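import Pool.Agent.T3H29.HK.Stm
import Pool.Agent.T3H29.HR.T_NA
import Pool.Agent.T3H29.HR.T_WIE

/-! Task ATM of project HK. -/

set_option autoImplicit false

namespace Pool.Agent.T3H29.HK

open MeasureTheory ProbabilityTheory Filter Topology Finset
open Pool.Agent.T3H29.HR

theorem t_ATM : S_ATM := by
  intro b _ hb P _ hP hD C hC
  have hNA := t_NA b P hP hD
  set V : Set (ℕ → Fin b) := {y | HR.val y ∈ C} with hV
  have hVc : V.Countable := by
    have : V = ⋃ c ∈ C, {y : ℕ → Fin b | HR.val y = c} := by
      ext y
      simp [hV]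
    rw [this]
    exact hC.biUnion fun c _ => WieAux.fiber_countable c
  have hVm : MeasurableSet V := hVc.measurableSet
  have hfm : Measurable (fun ω : ℤ → Fin b => (past ω, fut ω)) := (past_meas (b := b)).prodMk fut_meas
  have h1 : (P.map past) ⊗ₘ condDistrib (fut (b := b)) (past (b := b)) P = P.map fun w => (past w, fut w) :=
    compProd_map_condDistrib (fut_meas (b := b)).aemeasurable
  have h2 : P {ω | fut ω ∈ V} = ∫⁻ p, condDistrib (fut (b := b)) (past (b := b)) P p V ∂(P.map past) := by
    have h3 : ((P.map past) ⊗ₘ condDistrib (fut (b := b)) (past (b := b)) P) (Set.univ ×ˢ V) =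
        ∫⁻ p, condDistrib (fut (b := b)) (past (b := b)) P p V ∂(P.map past) := by
      rw [Measure.compProd_apply (MeasurableSet.univ.prod hVm)]
      refine lintegral_congr fun p => ?_
      congr 1
      ext y
      simp
    rw [← h3, h1, Measure.map_apply hfm (MeasurableSet.univ.prod hVm)]
    congr 1
    ext ω
    simp
  have h4 : ∫⁻ p, condDistrib (fut (b := b)) (past (b := b)) P p V ∂(P.map past) = 0 := by
    rw [lintegral_map (Kernel.measurable_coe _ hVm) past_meas]
    refine (lintegral_congr_ae (g := fun _ => (0 : ENNReal)) ?_).trans (by simp)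
    filter_upwards [hNA] with ω hω
    have : condDistrib (fut (b := b)) (past (b := b)) P (past ω) V = 0 := by
      have h5 : V = ⋃ y ∈ V, {y} := by simp
      rw [h5, measure_biUnion_null_iff hVc]
      intro y _
      exact hω y
    exact this
  rw [h4] at h2
  rw [ae_iff]
  convert h2 using 2
  ext ω
  simp [hV]

end Pool.Agent.T3H29.HK
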