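import Pool.Agent.T3H29.HK.Stm
import Pool.Agent.H165R3.Birk

/-! Task AVG of project HK. -/

set_option autoImplicit false

namespace Pool.Agent.T3H29.HK

open MeasureTheory ProbabilityTheory Filter Topology Finset
open Pool.Agent.T3H29.HR
open Pool.Agent.T3H29.HR.VdcAux (Small)

namespace AvgAux

lemma iter_sh {b : ℕ} (k : ℕ) (ω : ℤ → Fin b) : (sh (b := b) 1)^[k] ω = sh (k : ℤ) ω := by
  induction k generalizing ω with
  | zero => exact (sh_zero ω).symm
  | succ k ih =>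
    rw [Function.iterate_succ_apply, ih, sh_comp]
    congr 1

/-- Riemann sums of a Lipschitz function -/
lemma riemann (F : ℝ → ℝ) (C : ℝ) (hF : ∀ u ∈ Set.Icc (0 : ℝ) 1, ∀ v ∈ Set.Icc (0 : ℝ) 1, |F u - F v| ≤ C * |u - v|)
    (L : ℕ) (hL : 0 < L) :
    (1 / (L : ℝ)) * ∑ l ∈ range L, F ((l : ℝ) / L) ≤ (∫ u in (0 : ℝ)..1, F u) + C / L := by
  have hL0 : (0 : ℝ) < L := by exact_mod_cast hL
  have hC : 0 ≤ C := by
    have := hF 0 (by simp) 1 (by simp)
    have h2 := abs_nonneg (F 0 - F 1)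
    simp at this
    linarith
  have hcont : ContinuousOn F (Set.Icc 0 1) := by
    have : LipschitzOnWith (Real.toNNReal C) F (Set.Icc 0 1) := by
      refine LipschitzOnWith.of_dist_le_mul fun u hu v hv => ?_
      rw [Real.dist_eq, Real.dist_eq, Real.coe_toNNReal _ hC]
      exact hF u hu v hv
    exact this.continuousOn
  have hint : ∀ l < L, IntervalIntegrable F volume ((l : ℝ) / L) (((l + 1 : ℕ) : ℝ) / L) := by
    intro l hl
    refine ContinuousOn.intervalIntegrable (hcont.mono ?_)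
    have h1 : (l : ℝ) / L ≤ ((l + 1 : ℕ) : ℝ) / L := by
      apply div_le_div_of_nonneg_right _ hL0.le
      exact_mod_cast Nat.le_succ l
    rw [Set.uIcc_of_le h1]
    intro u hu
    refine ⟨le_trans (by positivity) hu.1, hu.2.trans ?_⟩
    rw [div_le_one hL0]
    exact_mod_cast hl
  have hsum : ∑ l ∈ range L, ∫ u in ((l : ℝ) / L)..(((l + 1 : ℕ) : ℝ) / L), F u = ∫ u in (0 : ℝ)..1, F u := by
    have := intervalIntegral.sum_integral_adjacent_intervals (f := F) (μ := volume)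
      (a := fun l : ℕ => (l : ℝ) / L) (n := L) (fun k hk => hint k hk)
    rw [this]
    simp [hL0.ne']
  rw [← hsum, mul_sum]
  have hle : ∀ l ∈ range L, (1 / (L : ℝ)) * F ((l : ℝ) / L) ≤
      (∫ u in ((l : ℝ) / L)..(((l + 1 : ℕ) : ℝ) / L), F u) + C / L * (1 / L) := by
    intro l hl
    have hl := mem_range.1 hl
    have h1 : (l : ℝ) / L ≤ ((l + 1 : ℕ) : ℝ) / L := by
      apply div_le_div_of_nonneg_right _ hL0.le
      exact_mod_cast Nat.le_succ l
    have h2 : ((l + 1 : ℕ) : ℝ) / L - (l : ℝ) / L = 1 / L := by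
      push_cast
      ring
    have h5 : ((l + 1 : ℕ) : ℝ) / L ≤ 1 := by
      rw [div_le_one hL0]
      exact_mod_cast hl
    have h3 : ∫ u in ((l : ℝ) / L)..(((l + 1 : ℕ) : ℝ) / L), (F ((l : ℝ) / L) - C / L) ≤
        ∫ u in ((l : ℝ) / L)..(((l + 1 : ℕ) : ℝ) / L), F u := by
      refine intervalIntegral.integral_mono_on h1 (by simp) (hint l hl) ?_
      intro u hu
      have h4 := hF ((l : ℝ) / L) ⟨by positivity, h1.trans h5⟩ u ⟨le_trans (by positivity) hu.1, hu.2.trans h5⟩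
      have h6 : |(l : ℝ) / L - u| ≤ 1 / L := by
        rw [abs_le]
        constructor <;> linarith [hu.1, hu.2]
      have h7 : C * |(l : ℝ) / L - u| ≤ C / L := by
        calc _ ≤ C * (1 / L) := mul_le_mul_of_nonneg_left h6 hC
          _ = _ := by ring
      have h8 := (abs_le.1 h4).2
      linarith
    rw [intervalIntegral.integral_const, h2, smul_eq_mul] at h3
    linarith
  refine (sum_le_sum hle).trans ?_
  rw [sum_add_distrib, sum_const, card_range, nsmul_eq_mul]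
  have : (L : ℝ) * (C / L * (1 / L)) = C / L := by field_simp
  linarith

end AvgAux

open AvgAux

theorem t_AVG (hEQB : S_EQB) (hEQS : S_EQS) (hSVL : S_SVL) (hWW : S_WW) (hCNT : S_CNT) : S_AVG := by
  intro b _ hb P _ hP
  have hfm : ∀ (K : ℕ) (u : ℝ), Measurable (fun ω => Phi P K ω u) := fun K u =>
    (Phi_meas P hb K).comp (measurable_id.prodMk measurable_const)
  choose E hE hWWE using fun (p : ℕ × ℕ × ℕ) => hWW (ℤ → Fin b) P (sh 1) hP
    (fun ω => Phi P p.1 ω ((p.2.2 : ℝ) / p.2.1)) (hfm _ _) (fun ω => Phi_bounds P _ ω _)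
  set ET : Set ℂ := ⋃ p, E p with hETdef
  have hET : ET.Countable := Set.countable_iUnion hE
  refine ⟨{θ : ℝ | 0 < θ ∧ ∃ k : ℤ, k ≠ 0 ∧ e (k / θ) ∈ ET}, hCNT ET hET, ?_⟩
  have hB : ∀ᵐ ω ∂P, ∀ p : ℕ × ℕ × ℕ, Tendsto (fun n : ℕ => (n : ℝ)⁻¹ * ∑ k ∈ range n,
      Phi P p.1 ((sh 1)^[k] ω) ((p.2.2 : ℝ) / p.2.1)) atTop (𝓝 (∫ ω, Phi P p.1 ω ((p.2.2 : ℝ) / p.2.1) ∂P)) := by
    rw [ae_all_iff]
    intro p
    exact Pool.Agent.H165R3.birkhoff hP _ (hfm _ _) ⟨1, fun ω => by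
      rw [abs_of_nonneg (Phi_bounds P _ _ _).1]; exact (Phi_bounds P _ _ _).2⟩
  filter_upwards [hB, ae_all_iff.2 hWWE] with ω h1 h2 θ hθ hθR K v τ s hv ε hε
  obtain ⟨C, hC⟩ := Phi_lip P hb K
  have hC0 : 0 ≤ C := by
    have h3 := hC ω 0 (by simp) 1 (by simp)
    have h4 := abs_nonneg (Phi P K ω 0 - Phi P K ω 1)
    simp at h3
    linarith
  obtain ⟨L, hL⟩ := exists_nat_gt (max (16 / θ) (max (65 * C / (ε / 4)) 1))
  have hL1 : 16 / θ < L := (le_max_left _ _).trans_lt hL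
  have hL2 : 65 * C / (ε / 4) < L := ((le_max_left _ _).trans (le_max_right _ _)).trans_lt hL
  have hL3 : (1 : ℝ) < L := ((le_max_right _ _).trans (le_max_right _ _)).trans_lt hL
  have hL0 : (0 : ℝ) < L := by linarith
  have hLn : 0 < L := by exact_mod_cast hL0
  set a : ℕ → ℕ → ℝ := fun l j => Phi P K (sh (j : ℤ) ω) ((l : ℝ) / L) with ha
  set m : ℕ → ℝ := fun l => ∫ ω, Phi P K ω ((l : ℝ) / L) ∂P with hm
  set v' : ℕ → ℝ := fun n => v n - ((K : ℤ) : ℝ) with hv'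
  have hSV : SV θ v' := hSVL b θ τ s v hb hv K
  have hHyp : Hyp L θ a m v' := by
    refine ⟨hθ, ?_, fun l j => Phi_bounds P _ _ _, ?_, ?_, hSV⟩
    · rw [div_lt_iff₀ hθ] at hL1
      exact hL1.le
    · intro l _
      have h3 := h1 (K, L, l)
      refine h3.congr fun n => ?_
      have h4 : ∑ j ∈ range n, Phi P K ((sh 1)^[j] ω) ((l : ℝ) / L) = ∑ j ∈ range n, a l j := by
        refine Finset.sum_congr rfl fun j _ => ?_
        simp only [ha]
        rw [iter_sh]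
      rw [← h4]
      exact (div_eq_inv_mul _ _).symm
    · intro l _ k hk
      have h3 := h2 (K, L, l) (k / θ) (fun h4 => hθR ⟨hθ, k, hk, Set.mem_iUnion.2 ⟨_, h4⟩⟩)
      unfold VdcAux.Small at h3 ⊢
      refine h3.congr fun n => ?_
      have h4 : ∑ j ∈ range n, ((Phi P K ((sh 1)^[j] ω) ((l : ℝ) / L) : ℝ) : ℂ) * e (j * (k / θ)) =
          ∑ j ∈ range n, (a l j : ℂ) * e (j * (k / θ)) := by
        refine Finset.sum_congr rfl fun j _ => ?_
        simp only [ha]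
        rw [iter_sh]
      exact congrArg (fun w : ℂ => ‖w‖ / (n : ℝ)) h4
  have hm0 : ∀ l, 0 ≤ m l := fun l => integral_nonneg fun ω => (Phi_bounds P _ _ _).1
  obtain ⟨η, hη, hblock⟩ := hEQB L θ a m v' hHyp
  have hS := hEQS (fun n => a ⌊(L : ℝ) * Int.fract (v' n)⌋₊ ⌊v' n⌋.toNat) (64 / L * ∑ l ∈ range L, m l) η
    (fun n => Phi_bounds P _ _ _) hη (mul_nonneg (by positivity) (sum_nonneg fun l _ => hm0 l)) hblock (ε / 4)
    (by positivity)
  set I : ℝ := ∫ u in (0 : ℝ)..1, ∫ ω, Phi P K ω u ∂P with hI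
  have hR : (1 / (L : ℝ)) * ∑ l ∈ range L, m l ≤ I + C / L := by
    refine riemann (fun u => ∫ ω, Phi P K ω u ∂P) C ?_ L hLn
    intro u hu w hw
    have i1 : ∀ u, Integrable (fun ω => Phi P K ω u) P := fun u =>
      Integrable.of_bound (C := 1) (hfm K u).aestronglyMeasurable (Eventually.of_forall fun ω => by
        rw [Real.norm_eq_abs, abs_of_nonneg (Phi_bounds P _ _ _).1]; exact (Phi_bounds P _ _ _).2)
    rw [← integral_sub (i1 u) (i1 w)]
    have := norm_integral_le_of_norm_le_const (μ := P) (f := fun ω => Phi P K ω u - Phi P K ω w) (C := C * |u - w|)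
      (Eventually.of_forall fun ω => by rw [Real.norm_eq_abs]; exact hC ω u hu w hw)
    rw [Real.norm_eq_abs] at this
    simpa using this
  -- eventually the index is nonnegative
  have hev : ∀ᶠ n : ℕ in atTop, 0 ≤ ⌊v' n⌋ := by
    filter_upwards [hSV.1.eventually (lt_mem_nhds hθ), eventually_gt_atTop 0] with n hn hn0
    have hn' : (0 : ℝ) < n := by exact_mod_cast hn0
    rw [Int.floor_nonneg]
    by_contra hcon
    push Not at hcon
    exact absurd hn (not_lt.2 (div_nonpos_of_nonpos_of_nonneg hcon.le hn'.le))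
  obtain ⟨n₀, hn₀⟩ := eventually_atTop.1 hev
  have hcomp : ∀ n : ℕ, Phi P K (sh (⌊v n⌋ - K) ω) (Int.fract (v n)) ≤
      (a ⌊(L : ℝ) * Int.fract (v' n)⌋₊ ⌊v' n⌋.toNat + C / L) + (if n < n₀ then 1 else 0) := by
    intro n
    have ha0 : 0 ≤ a ⌊(L : ℝ) * Int.fract (v' n)⌋₊ ⌊v' n⌋.toNat := (Phi_bounds P _ _ _).1
    by_cases hn : n < n₀
    · rw [if_pos hn]
      have := (Phi_bounds P K (sh (⌊v n⌋ - K) ω) (Int.fract (v n))).2
      have hCL : 0 ≤ C / L := by positivity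
      linarith
    · rw [if_neg hn, add_zero]
      have h3 := hn₀ n (by omega)
      have h4 : ⌊v' n⌋ = ⌊v n⌋ - K := by
        simp only [hv']
        exact Int.floor_sub_intCast _ _
      have h5 : Int.fract (v' n) = Int.fract (v n) := by
        simp only [hv']
        exact Int.fract_sub_intCast _ _
      have h6 : ((⌊v' n⌋.toNat : ℕ) : ℤ) = ⌊v n⌋ - K := by
        rw [Int.toNat_of_nonneg h3, h4]
      simp only [ha]
      rw [h6, h5]
      have h7 := Int.fract_nonneg (v n)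
      have h8 := Int.fract_lt_one (v n)
      set t := Int.fract (v n) with ht
      have h9 : ((⌊(L : ℝ) * t⌋₊ : ℕ) : ℝ) ≤ L * t := Nat.floor_le (by positivity)
      have h10 : (L : ℝ) * t < ⌊(L : ℝ) * t⌋₊ + 1 := Nat.lt_floor_add_one _
      have h11 : ((⌊(L : ℝ) * t⌋₊ : ℕ) : ℝ) / L ≤ t := by
        rw [div_le_iff₀ hL0]; linarith
      have h12 : t - ((⌊(L : ℝ) * t⌋₊ : ℕ) : ℝ) / L ≤ 1 / L := by
        rw [sub_le_iff_le_add, ← add_div, le_div_iff₀ hL0]; linarith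
      have h13 := hC (sh (⌊v n⌋ - K) ω) t ⟨h7, h8.le⟩ (((⌊(L : ℝ) * t⌋₊ : ℕ) : ℝ) / L)
        ⟨by positivity, h11.trans h8.le⟩
      rw [abs_of_nonneg (by linarith : (0 : ℝ) ≤ t - ((⌊(L : ℝ) * t⌋₊ : ℕ) : ℝ) / L)] at h13
      have h14 : C * (t - ((⌊(L : ℝ) * t⌋₊ : ℕ) : ℝ) / L) ≤ C / L := by
        calc _ ≤ C * (1 / L) := mul_le_mul_of_nonneg_left h12 hC0
          _ = _ := by ring
      have h15 := (abs_le.1 h13).2
      linarith
  obtain ⟨N1, hN1⟩ := exists_nat_gt ((n₀ : ℝ) / (ε / 4))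
  filter_upwards [hS, eventually_gt_atTop 0, eventually_ge_atTop N1] with N hN hN0 hNN
  have hN' : (0 : ℝ) < N := by exact_mod_cast hN0
  have h3 : ∑ n ∈ range N, Phi P K (sh (⌊v n⌋ - K) ω) (Int.fract (v n)) ≤
      ∑ n ∈ range N, a ⌊(L : ℝ) * Int.fract (v' n)⌋₊ ⌊v' n⌋.toNat + N * (C / L) + n₀ := by
    refine (sum_le_sum fun n _ => hcomp n).trans ?_
    rw [sum_add_distrib, sum_add_distrib, sum_const, card_range, nsmul_eq_mul]
    have h4 : ∑ n ∈ range N, (if n < n₀ then (1 : ℝ) else 0) ≤ n₀ := by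
      rw [← sum_filter, sum_const, nsmul_eq_mul, mul_one]
      have : ((range N).filter (fun n => n < n₀)).card ≤ (range n₀).card := card_le_card (by
        intro n hn
        simp only [mem_filter] at hn
        exact mem_range.2 hn.2)
      rw [card_range] at this
      exact_mod_cast this
    linarith
  have h4 : (n₀ : ℝ) ≤ ε / 4 * N := by
    have h5 : (n₀ : ℝ) / (ε / 4) < N := hN1.trans_le (by exact_mod_cast hNN)
    rw [div_lt_iff₀ (by positivity)] at h5
    linarith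
  have h5 : 65 * (C / L) ≤ ε / 4 := by
    rw [div_lt_iff₀ (by positivity)] at hL2
    rw [← mul_div_assoc, div_le_iff₀ hL0]
    linarith
  have h6 : 64 / (L : ℝ) * ∑ l ∈ range L, m l ≤ 64 * (I + C / L) := by
    have : 64 / (L : ℝ) * ∑ l ∈ range L, m l = 64 * ((1 / (L : ℝ)) * ∑ l ∈ range L, m l) := by ring
    rw [this]
    linarith
  have h7 : (64 / (L : ℝ) * ∑ l ∈ range L, m l + ε / 4) * N ≤ (64 * (I + C / L) + ε / 4) * N :=
    mul_le_mul_of_nonneg_right (by linarith) hN'.le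
  have h8 : (64 * (I + C / L) + ε / 4) * N + N * (C / L) + ε / 4 * N = (64 * I + (65 * (C / L)) + ε / 2) * N := by
    ring
  have h9 : (64 * I + (65 * (C / L)) + ε / 2) * N ≤ (64 * I + ε) * N :=
    mul_le_mul_of_nonneg_right (by linarith) hN'.le
  linarith

end Pool.Agent.T3H29.HK
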