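import Pool.Agent.T3H29.HK.Stm

/-! CNT: the exceptional slopes are countable. -/

set_option autoImplicit false

namespace Pool.Agent.T3H29.HK

open MeasureTheory ProbabilityTheory Filter Topology Finset
open Pool.Agent.T3H29.HR

theorem e_fib (w : ℂ) : {x : ℝ | e x = w}.Countable := by
  rcases Set.eq_empty_or_nonempty {x : ℝ | e x = w} with h | ⟨x₀, hx₀⟩
  · rw [h]
    exact Set.countable_empty
  · refine Set.Countable.mono ?_ (Set.countable_range fun m : ℤ => x₀ + (m : ℝ))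
    intro x hx
    have h1 : e x = e x₀ := hx.trans hx₀.symm
    unfold e at h1
    obtain ⟨m, hm⟩ := Complex.exp_eq_exp_iff_exists_int.1 h1
    refine ⟨m, ?_⟩
    have h2 := congrArg Complex.im hm
    simp at h2
    have h3 : 2 * Real.pi * (x - (x₀ + m)) = 0 := by linarith
    have h4 : x - (x₀ + m) = 0 := by
      rcases mul_eq_zero.1 h3 with h | h
      · exact absurd h (by positivity)
      · exact h
    show x₀ + (m : ℝ) = x
    linarith

theorem t_CNT : S_CNT := by
  intro E hE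
  have h1 : {θ : ℝ | 0 < θ ∧ ∃ k : ℤ, k ≠ 0 ∧ e (k / θ) ∈ E} ⊆
      ⋃ w ∈ E, ⋃ k : ℤ, (fun x : ℝ => (k : ℝ) / x) '' {x : ℝ | e x = w} := by
    rintro θ ⟨hθ, k, hk, hw⟩
    rw [Set.mem_iUnion₂]
    refine ⟨_, hw, ?_⟩
    rw [Set.mem_iUnion]
    refine ⟨k, (k : ℝ) / θ, rfl, ?_⟩
    have hk' : (k : ℝ) ≠ 0 := by exact_mod_cast hk
    show (k : ℝ) / ((k : ℝ) / θ) = θ
    field_simp
  refine Set.Countable.mono h1 (hE.biUnion fun w _ => ?_)
  exact Set.countable_iUnion fun k => (e_fib w).image _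

end Pool.Agent.T3H29.HK
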