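import Pool.Agent.T3h64.HK.Com

/-! COR of project HK: correlation of two differences with stopping indices. -/

set_option autoImplicit false

namespace Pool.Agent.T3H29.HK

open MeasureTheory ProbabilityTheory Filter Topology Finset
open Pool.Agent.T3H29.HR Pool.Agent.T3h64.HK

section
variable {b : ℕ} [NeZero b]

/-- a sequence whose past up to the place `J` is `π` -/
def secx (J : ℕ) (π : ℕ → Fin b) : ℤ → Fin b := fun k => if k ≤ (J : ℤ) then π ((J : ℤ) - k).toNat else 0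

lemma secx_meas (J : ℕ) : Measurable (secx (b := b) J) := by
  refine measurable_pi_lambda _ fun k => ?_
  unfold secx
  split_ifs with h
  · exact measurable_pi_apply _
  · exact measurable_const

lemma past_secx (J : ℕ) (π : ℕ → Fin b) : past (sh (J : ℤ) (secx J π)) = π := by
  funext i
  unfold past sh secx
  have h : -(i : ℤ) + (J : ℤ) ≤ (J : ℤ) := by omega
  rw [if_pos h]
  congr 1
  omega

lemma past_secx_le (J i : ℕ) (h : i ≤ J) (ω : ℤ → Fin b) :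
    past (sh (i : ℤ) (secx J (past (sh (J : ℤ) ω)))) = past (sh (i : ℤ) ω) := by
  rw [past_sh i J h, past_sh i J h ω, past_secx]

/-- the part of the first difference known at the place `J` -/
noncomputable def HJ (P : Measure (ℤ → Fin b)) [IsFiniteMeasure P] 
    (G : ℕ → (ℕ → Fin b) → ℂ) (ξ : ℕ → (ℕ → Fin b) → ℝ) (J i : ℕ) (π : ℕ → Fin b) : ℂ :=
  G i (past (sh (i : ℤ) (secx J π))) * (e (ξ i (past (sh (i : ℤ) (secx J π))) * qq (J - i) π) -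
      cf P (past (sh (i : ℤ) (secx J π))) (ξ i (past (sh (i : ℤ) (secx J π)))))

lemma HJ_meas (hb : 2 ≤ b) (P : Measure (ℤ → Fin b)) [IsFiniteMeasure P]
    (G : ℕ → (ℕ → Fin b) → ℂ) (ξ : ℕ → (ℕ → Fin b) → ℝ) (hG : ∀ J, Measurable (G J))
    (hξ : ∀ J, Measurable (ξ J)) (J i : ℕ) : Measurable (HJ P G ξ J i) := by
  have hp : Measurable fun π : ℕ → Fin b => past (sh (i : ℤ) (secx J π)) :=
    past_meas.comp ((sh_meas _).comp (secx_meas J))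
  unfold HJ
  exact ((hG i).comp hp).mul ((e_cont.measurable.comp (((hξ i).comp hp).mul (qq_meas _))).sub
    ((cf_meas hb P (ξ i) (hξ i)).comp hp))

lemma HJ_norm (P : Measure (ℤ → Fin b)) [IsFiniteMeasure P]
    (G : ℕ → (ℕ → Fin b) → ℂ) (ξ : ℕ → (ℕ → Fin b) → ℝ) (hG : ∀ J π, ‖G J π‖ ≤ 1) (J i : ℕ)
    (π : ℕ → Fin b) : ‖HJ P G ξ J i π‖ ≤ 2 := by
  unfold HJ
  rw [norm_mul]
  have h1 := hG i (past (sh (i : ℤ) (secx J π)))
  have h2 : ‖e (ξ i (past (sh (i : ℤ) (secx J π))) * qq (J - i) π) -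
      cf P (past (sh (i : ℤ) (secx J π))) (ξ i (past (sh (i : ℤ) (secx J π))))‖ ≤ 2 := by
    refine (norm_sub_le _ _).trans ?_
    have := cf_norm P (past (sh (i : ℤ) (secx J π))) (ξ i (past (sh (i : ℤ) (secx J π))))
    rw [norm_e]
    linarith
  nlinarith [norm_nonneg (G i (past (sh (i : ℤ) (secx J π))))]

end

theorem t_COR : S_COR := by
  intro b _ hb P _ hP j₁ j₂ G₁ G₂ ξ₁ ξ₂ B δ hj₁ hj₂ hle hG₁ hG₂ hG₁b hG₂b hξ₁ hξ₂ hB hδ
  have hbr : (0 : ℝ) < b := by exact_mod_cast (by omega : 0 < b)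
  have hB0 : 0 ≤ B := (abs_nonneg _).trans (hB 0 (fun _ => 0))
  have hδ0 : 0 ≤ δ := by
    refine le_trans ?_ (hδ (fun _ => 0))
    positivity
  have hm₁ := Stop.meas hj₁
  have hm₂ := Stop.meas hj₂
  obtain ⟨⟨A₁, hA₁, hiff₁⟩, -⟩ := id hj₁
  obtain ⟨⟨A₂, hA₂, hiff₂⟩, M, hM⟩ := id hj₂
  have hconj : Measurable (starRingEnd ℂ) := Complex.continuous_conj.measurable
  -- the index read off from the section
  have hsec : ∀ ω, j₁ (secx (j₂ ω) (past (sh (j₂ ω : ℤ) ω))) = j₁ ω := by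
    intro ω
    rw [hiff₁, past_secx_le _ _ (hle ω), ← hiff₁]
  set Hs : ℕ → (ℕ → Fin b) → ℂ := fun J π => HJ P G₁ ξ₁ J (j₁ (secx J π)) π with hHs
  have hHsm : ∀ J, Measurable (Hs J) := fun J =>
    meas_sel (fun i π => HJ P G₁ ξ₁ J i π) (fun i => HJ_meas hb P G₁ ξ₁ hG₁ hξ₁ J i)
      (fun π => j₁ (secx J π)) (hm₁.comp (secx_meas J))
  have hHsb : ∀ J π, ‖Hs J π‖ ≤ 2 := fun J π => HJ_norm P G₁ ξ₁ hG₁b J _ π
  set Hw : (ℤ → Fin b) → ℂ := fun ω => Hs (j₂ ω) (past (sh (j₂ ω : ℤ) ω)) with hHw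
  have hHwm : Measurable Hw :=
    meas_sel (fun J ω => Hs J (past (sh (J : ℤ) ω))) (fun J => (hHsm J).comp (past_meas.comp (sh_meas _))) j₂ hm₂
  have hdiff : ∀ ω, ‖Dd P j₁ G₁ ξ₁ ω - Hw ω‖ ≤ δ := by
    intro ω
    have h1 : Hw ω = G₁ (j₁ ω) (past (sh (j₁ ω : ℤ) ω)) *
        (e (ξ₁ (j₁ ω) (past (sh (j₁ ω : ℤ) ω)) * qq (j₂ ω - j₁ ω) (past (sh (j₂ ω : ℤ) ω))) -
        cf P (past (sh (j₁ ω : ℤ) ω)) (ξ₁ (j₁ ω) (past (sh (j₁ ω : ℤ) ω)))) := by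
      simp only [hHw, hHs]
      rw [hsec ω]
      unfold HJ
      rw [past_secx_le _ _ (hle ω)]
    rw [h1]
    unfold Dd
    rw [← mul_sub, sub_sub_sub_cancel_right, norm_mul]
    refine (mul_le_of_le_one_left (norm_nonneg _) (hG₁b _ _)).trans ((norm_e_sub_e_le _ _).trans ?_)
    refine le_trans ?_ (hδ ω)
    rw [mul_div_assoc]
    refine mul_le_mul_of_nonneg_left ?_ (by positivity)
    rw [← mul_sub, abs_mul]
    have h2 : val (fut (sh (j₁ ω : ℤ) ω)) - qq (j₂ ω - j₁ ω) (past (sh (j₂ ω : ℤ) ω)) =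
        val (fut (sh (j₂ ω : ℤ) ω)) / (b : ℝ) ^ (j₂ ω - j₁ ω) := by
      have h3 := val_split hb (j₂ ω - j₁ ω) (sh (j₁ ω : ℤ) ω)
      rw [sh_comp] at h3
      have h4 : (((j₂ ω - j₁ ω : ℕ)) : ℤ) + (j₁ ω : ℤ) = (j₂ ω : ℤ) := by
        have := hle ω
        omega
      rw [h4] at h3
      linarith
    rw [h2, abs_div, abs_of_nonneg (val_nonneg _), abs_of_nonneg (by positivity : (0 : ℝ) ≤ (b : ℝ) ^ (j₂ ω - j₁ ω)),
      div_eq_mul_one_div, div_eq_mul_one_div B, ← mul_assoc]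
    refine mul_le_mul_of_nonneg_right ?_ (by positivity)
    calc |ξ₁ (j₁ ω) (past (sh (j₁ ω : ℤ) ω))| * val (fut (sh (j₂ ω : ℤ) ω)) ≤ B * 1 :=
          mul_le_mul (hB _ _) (val_le_one hb _) (val_nonneg _) hB0
      _ = B := mul_one B
  -- the main term vanishes
  have hzero : ∫ ω, Hw ω * (starRingEnd ℂ) (Dd P j₂ G₂ ξ₂ ω) ∂P = 0 := by
    have hsplit : ∀ ω, Hw ω * (starRingEnd ℂ) (Dd P j₂ G₂ ξ₂ ω) = ∑ J ∈ range (M + 1),
        (A₂ J).indicator (Hs J) (past (sh (J : ℤ) ω)) * (starRingEnd ℂ) (DJ P G₂ ξ₂ J ω) := by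
      intro ω
      rw [sum_eq_single (j₂ ω)]
      · rw [Set.indicator_of_mem ((hiff₂ ω (j₂ ω)).1 rfl), Dd_eq]
      · intro J _ hJ
        rw [Set.indicator_of_notMem (fun h => hJ ((hiff₂ ω J).2 h).symm), zero_mul]
      · intro h
        exact absurd (mem_range.2 (Nat.lt_succ_of_le (hM ω))) h
    simp only [hsplit]
    rw [integral_finsetSum]
    · refine sum_eq_zero fun J _ => ?_
      refine orth3 hb P hP G₂ ξ₂ hG₂ hξ₂ hG₂b J ((A₂ J).indicator (Hs J)) ((hHsm J).indicator (hA₂ J)) 2 fun π => ?_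
      refine (norm_indicator_le_norm_self _ _).trans (hHsb J π)
    · intro J _
      refine Integrable.of_bound (C := 4) ?_ (Eventually.of_forall fun ω => ?_)
      · exact ((((hHsm J).indicator (hA₂ J)).comp (past_meas.comp (sh_meas _))).mul
          (hconj.comp (DJ_meas hb P G₂ ξ₂ hG₂ hξ₂ J))).aestronglyMeasurable
      · rw [norm_mul, RCLike.norm_conj]
        have h1 := (norm_indicator_le_norm_self (s := A₂ J) (Hs J) (past (sh (J : ℤ) ω))).trans (hHsb J _)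
        have h2 := DJ_norm P G₂ ξ₂ hG₂b J ω
        nlinarith [norm_nonneg ((A₂ J).indicator (Hs J) (past (sh (J : ℤ) ω))), norm_nonneg (DJ P G₂ ξ₂ J ω)]
  have hD1m := Dd_meas hb P j₁ hj₁ G₁ ξ₁ hG₁ hξ₁
  have hD2m := Dd_meas hb P j₂ hj₂ G₂ ξ₂ hG₂ hξ₂
  have hD2b := Dd_norm P j₂ G₂ ξ₂ hG₂b
  have i1 : Integrable (fun ω => Hw ω * (starRingEnd ℂ) (Dd P j₂ G₂ ξ₂ ω)) P := by
    refine Integrable.of_bound (C := 4) (hHwm.mul (hconj.comp hD2m)).aestronglyMeasurable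
      (Eventually.of_forall fun ω => ?_)
    rw [norm_mul, RCLike.norm_conj]
    have h1 : ‖Hw ω‖ ≤ 2 := hHsb _ _
    have h2 := hD2b ω
    nlinarith [norm_nonneg (Hw ω), norm_nonneg (Dd P j₂ G₂ ξ₂ ω)]
  have hb2 : ∀ ω, ‖(Dd P j₁ G₁ ξ₁ ω - Hw ω) * (starRingEnd ℂ) (Dd P j₂ G₂ ξ₂ ω)‖ ≤ 2 * δ := by
    intro ω
    rw [norm_mul, RCLike.norm_conj, mul_comm 2 δ]
    exact mul_le_mul (hdiff ω) (hD2b ω) (norm_nonneg _) hδ0
  have i2 : Integrable (fun ω => (Dd P j₁ G₁ ξ₁ ω - Hw ω) * (starRingEnd ℂ) (Dd P j₂ G₂ ξ₂ ω)) P :=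
    Integrable.of_bound (C := 2 * δ) ((hD1m.sub hHwm).mul (hconj.comp hD2m)).aestronglyMeasurable
      (Eventually.of_forall hb2)
  have hsp : ∀ ω, Dd P j₁ G₁ ξ₁ ω * (starRingEnd ℂ) (Dd P j₂ G₂ ξ₂ ω) =
      Hw ω * (starRingEnd ℂ) (Dd P j₂ G₂ ξ₂ ω) +
      (Dd P j₁ G₁ ξ₁ ω - Hw ω) * (starRingEnd ℂ) (Dd P j₂ G₂ ξ₂ ω) := fun ω => by ring
  simp only [hsp]
  rw [integral_add i1 i2, hzero, zero_add]
  refine (norm_integral_le_of_norm_le_const (C := 2 * δ) (Eventually.of_forall hb2)).trans ?_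
  simp

end Pool.Agent.T3H29.HK
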