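import Pool.Agent.T3H29.HK.Stm

/-! DIF: the class of sequences of functions is stable under differences. -/

set_option autoImplicit false

namespace Pool.Agent.T3H29.HK

open MeasureTheory ProbabilityTheory Filter Topology Finset

theorem ratio_tendsto (l : ℕ) (τ : ℝ) :
    Tendsto (fun n : ℕ => ((n + l : ℕ) : ℝ) ^ τ / (n : ℝ) ^ τ) atTop (𝓝 1) := by
  have h1 : Tendsto (fun n : ℕ => (1 + (l : ℝ) / n)) atTop (𝓝 (1 + 0)) :=
    tendsto_const_nhds.add (tendsto_const_div_atTop_nhds_zero_nat _)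
  rw [add_zero] at h1
  have h2 : Tendsto (fun n : ℕ => (1 + (l : ℝ) / n) ^ τ) atTop (𝓝 (1 ^ τ)) :=
    h1.rpow_const (Or.inl one_ne_zero)
  rw [Real.one_rpow] at h2
  refine h2.congr' ?_
  filter_upwards [eventually_ge_atTop 1] with n hn
  have hn0 : (0 : ℝ) < n := by exact_mod_cast hn
  rw [← Real.div_rpow (by positivity) hn0.le]
  congr 1
  push_cast
  field_simp

theorem t_DIF : S_DIF := by
  intro U hU g r f τ hg hg1 hr hf hlim l
  rw [Metric.tendstoLocallyUniformlyOn_iff] at hlim ⊢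
  intro ε hε x hx
  -- local bounds
  obtain ⟨M, hM⟩ : ∃ M, M = max (|r x| + 1) (|g x ^ l| + 1) := ⟨_, rfl⟩
  have hM1 : 1 ≤ M := by
    rw [hM]
    refine le_trans ?_ (le_max_left _ _)
    have := abs_nonneg (r x)
    linarith
  have hrc : ContinuousAt (fun y => |r y|) x := (hr.continuousAt (hU.mem_nhds hx)).abs
  have hgc : ContinuousAt (fun y => |g y ^ l|) x :=
    ((hg.continuousAt (hU.mem_nhds hx)).pow l).abs
  have h1 : ∀ᶠ y in 𝓝 x, |r y| < M := hrc.eventually_lt continuousAt_const (by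
    rw [hM]
    exact lt_of_lt_of_le (by linarith) (le_max_left _ _))
  have h2 : ∀ᶠ y in 𝓝 x, |g y ^ l| < M := hgc.eventually_lt continuousAt_const (by
    rw [hM]
    exact lt_of_lt_of_le (by linarith) (le_max_right _ _))
  obtain ⟨κ, hκ⟩ : ∃ κ, κ = ε / (8 * M ^ 2) := ⟨_, rfl⟩
  have hκ0 : 0 < κ := by rw [hκ]; positivity
  obtain ⟨t, ht, htn⟩ := hlim κ hκ0 x hx
  refine ⟨t ∩ {y | |r y| < M ∧ |g y ^ l| < M ∧ y ∈ U}, Filter.inter_mem ht
    (mem_nhdsWithin_of_mem_nhds (h1.and (h2.and (hU.mem_nhds hx)))), ?_⟩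
  have h3 := ratio_tendsto l τ
  have h4 : ∀ᶠ n : ℕ in atTop, |((n + l : ℕ) : ℝ) ^ τ / (n : ℝ) ^ τ - 1| < min 1 κ := by
    have := (Metric.tendsto_nhds.1 h3) (min 1 κ) (lt_min one_pos hκ0)
    simpa [Real.dist_eq] using this
  have h5 : ∀ᶠ n : ℕ in atTop, ∀ y ∈ t, dist (r y)
      (deriv (f (n + l)) y / (((n + l : ℕ) : ℝ) ^ τ * g y ^ (n + l))) < κ :=
    (tendsto_add_atTop_nat l).eventually htn
  filter_upwards [htn, h4, h5, eventually_ge_atTop 1] with n e1 e2 e3 hn y hy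
  obtain ⟨hyt, hyr, hyg, hyU⟩ := hy
  have a1 := e1 y hyt
  have a2 := e3 y hyt
  have hn0 : (0 : ℝ) < n := by exact_mod_cast hn
  have hnt : (0 : ℝ) < (n : ℝ) ^ τ := Real.rpow_pos_of_pos hn0 τ
  have hnl : (0 : ℝ) < ((n + l : ℕ) : ℝ) ^ τ := Real.rpow_pos_of_pos (by positivity) τ
  have hg0 : 0 < g y := by
    have := hg1 y hyU
    linarith
  have hd1 : DifferentiableAt ℝ (f (n + l)) y := (hf (n + l)).differentiableAt (hU.mem_nhds hyU)
  have hd2 : DifferentiableAt ℝ (f n) y := (hf n).differentiableAt (hU.mem_nhds hyU)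
  have hder : deriv (fun z => f (n + l) z - f n z) y = deriv (f (n + l)) y - deriv (f n) y :=
    deriv_fun_sub hd1 hd2
  rw [hder]
  obtain ⟨A, hA⟩ : ∃ A, A = deriv (f (n + l)) y / (((n + l : ℕ) : ℝ) ^ τ * g y ^ (n + l)) := ⟨_, rfl⟩
  obtain ⟨B, hB⟩ : ∃ B, B = deriv (f n) y / ((n : ℝ) ^ τ * g y ^ n) := ⟨_, rfl⟩
  obtain ⟨ρ, hρ⟩ : ∃ ρ, ρ = ((n + l : ℕ) : ℝ) ^ τ / (n : ℝ) ^ τ := ⟨_, rfl⟩
  rw [← hA, Real.dist_eq] at a2
  rw [← hB, Real.dist_eq] at a1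
  rw [← hρ] at e2
  have e4 : (deriv (f (n + l)) y - deriv (f n) y) / ((n : ℝ) ^ τ * g y ^ n) =
      A * ρ * g y ^ l - B := by
    rw [hA, hB, hρ, pow_add]
    field_simp
  rw [e4, Real.dist_eq]
  have e5 : r y * (g y ^ l - 1) - (A * ρ * g y ^ l - B) =
      (r y - A) * ρ * g y ^ l - r y * (ρ - 1) * g y ^ l - (r y - B) := by ring
  rw [e5]
  have hρ1 : |ρ| ≤ 2 := by
    have b1 : |ρ - 1| < 1 := lt_of_lt_of_le e2 (min_le_left _ _)
    rw [abs_lt] at b1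
    rw [abs_le]
    constructor <;> linarith
  have hρ2 : |ρ - 1| ≤ κ := (lt_of_lt_of_le e2 (min_le_right _ _)).le
  have c1 : |(r y - A) * ρ * g y ^ l| ≤ κ * 2 * M := by
    rw [abs_mul, abs_mul]
    gcongr
  have c2 : |r y * (ρ - 1) * g y ^ l| ≤ M * κ * M := by
    rw [abs_mul, abs_mul]
    gcongr
  have c3 : |(r y - A) * ρ * g y ^ l - r y * (ρ - 1) * g y ^ l - (r y - B)| ≤
      κ * 2 * M + M * κ * M + κ := by
    refine (abs_sub _ _).trans (add_le_add ((abs_sub _ _).trans (add_le_add c1 c2)) a1.le)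
  refine lt_of_le_of_lt c3 ?_
  have hMM : M ≤ M ^ 2 := by nlinarith
  have hM2 : 1 ≤ M ^ 2 := by nlinarith
  calc κ * 2 * M + M * κ * M + κ ≤ κ * 2 * M ^ 2 + κ * M ^ 2 + κ * M ^ 2 := by
        have d1 : κ * 2 * M ≤ κ * 2 * M ^ 2 := by gcongr
        have d2 : κ ≤ κ * M ^ 2 := le_mul_of_one_le_right hκ0.le hM2
        have d3 : M * κ * M = κ * M ^ 2 := by ring
        linarith
    _ = 4 * M ^ 2 * κ := by ring
    _ = ε / 2 := by
        rw [hκ]
        field_simp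
        ring
    _ < ε := by linarith

end Pool.Agent.T3H29.HK
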