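import Pool.Agent.T3H29.HK.Stm

/-! Task EQB of project HK. -/

set_option autoImplicit false

namespace Pool.Agent.T3H29.HK

open Filter Topology Finset
open Pool.Agent.T3H29.HR
open Pool.Agent.T3H29.HR.VdcAux (Small conj_e)

namespace EQBAux

lemma e_int (n : ℤ) : e (n : ℝ) = 1 := by
  unfold e
  rw [show (((2 * Real.pi * (n : ℝ) : ℝ) : ℂ) * Complex.I) = (n : ℂ) * (2 * Real.pi * Complex.I) by
    push_cast; ring]
  exact Complex.exp_int_mul_two_pi_mul_I n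

lemma e_re (x : ℝ) : (e x).re = Real.cos (2 * Real.pi * x) := by
  unfold e
  rw [Complex.exp_ofReal_mul_I_re]

/-- the Fejer sum -/
noncomputable def W (D : ℕ) (y : ℝ) : ℂ := ∑ k ∈ range D, e (k * y)

lemma W_ge {D : ℕ} (hD : 0 < D) {y : ℝ} {n : ℤ} (h : |y - n| ≤ 1 / (8 * D)) :
    1 ≤ 2 / (D : ℝ) * (1 / (D : ℝ) * ‖W D y‖ ^ 2) := by
  have hD' : (0 : ℝ) < D := by exact_mod_cast hD
  have h1 : ∀ k ∈ range D, Real.sqrt 2 / 2 ≤ (e (k * y)).re := by
    intro k hk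
    rw [Finset.mem_range] at hk
    have e1 : e (k * y) = e (k * (y - n)) := by
      have : (k : ℝ) * y = k * (y - n) + ((k * n : ℤ) : ℝ) := by push_cast; ring
      rw [this, e_add, e_int, mul_one]
    rw [e1, e_re, ← Real.cos_pi_div_four, ← Real.cos_abs (2 * Real.pi * _)]
    apply Real.cos_le_cos_of_nonneg_of_le_pi (abs_nonneg _)
    · linarith [Real.pi_pos]
    · rw [abs_mul (2 * Real.pi), abs_mul (k : ℝ), abs_of_pos (by positivity : (0 : ℝ) < 2 * Real.pi),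
        Nat.abs_cast]
      have hk' : (k : ℝ) ≤ D := by exact_mod_cast hk.le
      have : (k : ℝ) * |y - n| ≤ D * (1 / (8 * D)) :=
        mul_le_mul hk' h (abs_nonneg _) hD'.le
      have e2 : (D : ℝ) * (1 / (8 * D)) = 1 / 8 := by field_simp
      rw [e2] at this
      nlinarith [Real.pi_pos]
  have h2 : (D : ℝ) * (Real.sqrt 2 / 2) ≤ ‖W D y‖ := by
    calc (D : ℝ) * (Real.sqrt 2 / 2) = ∑ _k ∈ range D, Real.sqrt 2 / 2 := by simp
      _ ≤ ∑ k ∈ range D, (e (k * y)).re := Finset.sum_le_sum h1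
      _ = (W D y).re := by
        unfold W
        rw [Complex.re_sum]
      _ ≤ ‖W D y‖ := Complex.re_le_norm _
  have h3 : (D : ℝ) ^ 2 / 2 ≤ ‖W D y‖ ^ 2 := by
    have h4 : (0 : ℝ) ≤ D * (Real.sqrt 2 / 2) := by positivity
    have h5 := pow_le_pow_left₀ h4 h2 2
    have h6 : ((D : ℝ) * (Real.sqrt 2 / 2)) ^ 2 = D ^ 2 / 2 := by
      have := Real.sq_sqrt (show (0 : ℝ) ≤ 2 by norm_num)
      nlinarith
    rwa [h6] at h5
  rw [← mul_assoc, div_mul_div_comm, mul_one, div_mul_eq_mul_div, le_div_iff₀ (by positivity)]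
  nlinarith

lemma W_sq (D : ℕ) (y : ℝ) : ((‖W D y‖ ^ 2 : ℝ) : ℂ) =
    ∑ k ∈ range D, ∑ k' ∈ range D, e (((k : ℝ) - k') * y) := by
  have : ((‖W D y‖ ^ 2 : ℝ) : ℂ) = W D y * (starRingEnd ℂ) (W D y) := by
    rw [Complex.mul_conj, Complex.normSq_eq_norm_sq]
  rw [this]
  unfold W
  rw [map_sum, Finset.sum_mul_sum]
  refine Finset.sum_congr rfl fun k _ => Finset.sum_congr rfl fun k' _ => ?_
  rw [conj_e, ← e_add]
  congr 1
  ring

/-- the sum over the integers of an interval -/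
lemma block (D : ℕ) (hD : 0 < D) (θ c m τ : ℝ) (a : ℕ → ℝ) (ha : ∀ j, 0 ≤ a j) (M0 j0 j1 : ℕ)
    (h0 : M0 ≤ j0) (h01 : j0 ≤ j1) (hm : 0 ≤ m) (hτ : 0 ≤ τ)
    (hmean : ∀ M : ℕ, M0 ≤ M → |∑ j ∈ range M, a j - m * M| ≤ τ * M)
    (hor : ∀ M : ℕ, M0 ≤ M → ∀ k k' : ℕ, k < D → k' < D → k ≠ k' →
      ‖∑ j ∈ range M, (a j : ℂ) * e (j * ((((k : ℤ) - k' : ℤ) : ℝ) / θ))‖ ≤ τ * M) :
    ∑ j ∈ Ico j0 j1, a j * (1 / (D : ℝ) * ‖W D ((j + c) / θ)‖ ^ 2) ≤
      m * ((j1 : ℝ) - j0) + 2 * D * τ * j1 := by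
  have hD' : (0 : ℝ) < D := by exact_mod_cast hD
  set T : ℕ → ℕ → ℂ := fun k k' => ∑ j ∈ Ico j0 j1, (a j : ℂ) * e (((k : ℝ) - k') * ((j + c) / θ))
    with hT
  have h01' : (j0 : ℝ) ≤ j1 := by exact_mod_cast h01
  have hj0 : (0 : ℝ) ≤ j0 := Nat.cast_nonneg _
  have e1 : ((∑ j ∈ Ico j0 j1, a j * (1 / (D : ℝ) * ‖W D ((j + c) / θ)‖ ^ 2) : ℝ) : ℂ) =
      (1 / (D : ℂ)) * ∑ k ∈ range D, ∑ k' ∈ range D, T k k' := by
    rw [Complex.ofReal_sum]
    have : ∀ j ∈ Ico j0 j1, ((a j * (1 / (D : ℝ) * ‖W D ((j + c) / θ)‖ ^ 2) : ℝ) : ℂ) =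
        (1 / (D : ℂ)) * ∑ k ∈ range D, ∑ k' ∈ range D,
          (a j : ℂ) * e (((k : ℝ) - k') * ((j + c) / θ)) := by
      intro j _
      have := W_sq D ((j + c) / θ)
      rw [Complex.ofReal_mul, Complex.ofReal_mul, this]
      simp only [← Finset.mul_sum]
      push_cast
      ring
    rw [Finset.sum_congr rfl this, ← Finset.mul_sum]
    congr 1
    rw [Finset.sum_comm]
    refine Finset.sum_congr rfl fun k _ => ?_
    rw [Finset.sum_comm]
  have e2 : ∑ j ∈ Ico j0 j1, a j * (1 / (D : ℝ) * ‖W D ((j + c) / θ)‖ ^ 2) ≤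
      1 / (D : ℝ) * ∑ k ∈ range D, ∑ k' ∈ range D, ‖T k k'‖ := by
    calc _ ≤ ‖((∑ j ∈ Ico j0 j1, a j * (1 / (D : ℝ) * ‖W D ((j + c) / θ)‖ ^ 2) : ℝ) : ℂ)‖ := by
          rw [Complex.norm_real]
          exact le_abs_self _
      _ ≤ 1 / (D : ℝ) * ∑ k ∈ range D, ∑ k' ∈ range D, ‖T k k'‖ := by
          rw [e1, norm_mul]
          have : ‖(1 / (D : ℂ))‖ = 1 / (D : ℝ) := by simp
          rw [this]
          gcongr
          refine (norm_sum_le _ _).trans (Finset.sum_le_sum fun k _ => norm_sum_le _ _)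
  have hTd : ∀ k, ‖T k k‖ ≤ m * ((j1 : ℝ) - j0) + 2 * τ * j1 := by
    intro k
    have : T k k = ((∑ j ∈ Ico j0 j1, a j : ℝ) : ℂ) := by
      simp only [hT]
      rw [Complex.ofReal_sum]
      refine Finset.sum_congr rfl fun j _ => ?_
      have : ((k : ℝ) - k) * ((j + c) / θ) = ((0 : ℤ) : ℝ) := by simp
      rw [this, e_int, mul_one]
    rw [this, Complex.norm_real, Real.norm_eq_abs, abs_of_nonneg (Finset.sum_nonneg fun j _ => ha j)]
    have h1 := abs_le.mp (hmean j1 (h0.trans h01))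
    have h2 := abs_le.mp (hmean j0 h0)
    rw [Finset.sum_Ico_eq_sub _ h01]
    have : τ * j0 ≤ τ * j1 := by gcongr
    linarith [h1.2, h2.1]
  have hTo : ∀ k k', k < D → k' < D → k ≠ k' → ‖T k k'‖ ≤ 2 * τ * j1 := by
    intro k k' hk hk' hne
    have : T k k' = e (((k : ℝ) - k') * (c / θ)) *
        ((∑ j ∈ range j1, (a j : ℂ) * e (j * ((((k : ℤ) - k' : ℤ) : ℝ) / θ))) -
          ∑ j ∈ range j0, (a j : ℂ) * e (j * ((((k : ℤ) - k' : ℤ) : ℝ) / θ))) := by
      rw [← Finset.sum_Ico_eq_sub _ h01, Finset.mul_sum]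
      simp only [hT]
      refine Finset.sum_congr rfl fun j _ => ?_
      have : ((k : ℝ) - k') * ((j + c) / θ) =
          ((k : ℝ) - k') * (c / θ) + j * ((((k : ℤ) - k' : ℤ) : ℝ) / θ) := by
        push_cast
        ring
      rw [this, e_add]
      ring
    rw [this, norm_mul, norm_e, one_mul]
    refine (norm_sub_le _ _).trans ?_
    have h1 := hor j1 (h0.trans h01) k k' hk hk' hne
    have h2 := hor j0 h0 k k' hk hk' hne
    have : τ * j0 ≤ τ * j1 := by gcongr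
    linarith
  have hj1 : (0 : ℝ) ≤ τ * j1 := by positivity
  have hmm : 0 ≤ m * ((j1 : ℝ) - j0) := mul_nonneg hm (by linarith)
  have e3 : ∑ k ∈ range D, ∑ k' ∈ range D, ‖T k k'‖ ≤
      ∑ k ∈ range D, ∑ k' ∈ range D, (2 * τ * j1 + if k = k' then m * ((j1 : ℝ) - j0) else 0) := by
    refine Finset.sum_le_sum fun k hk => Finset.sum_le_sum fun k' hk' => ?_
    rw [Finset.mem_range] at hk hk'
    split_ifs with h
    · subst h
      linarith [hTd k]
    · linarith [hTo k k' hk hk' h]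
  have e4 : ∑ k ∈ range D, ∑ k' ∈ range D, (2 * τ * j1 + if k = k' then m * ((j1 : ℝ) - j0) else 0) =
      D * (D * (2 * τ * j1)) + D * (m * ((j1 : ℝ) - j0)) := by
    simp only [Finset.sum_add_distrib, Finset.sum_const, Finset.card_range, nsmul_eq_mul,
      Finset.sum_ite_eq, Finset.mem_range]
    congr 1
    rw [Finset.sum_congr rfl (g := fun _ => m * ((j1 : ℝ) - j0))]
    · simp
    · intro k hk
      rw [if_pos (Finset.mem_range.mp hk)]
  rw [e4] at e3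
  refine e2.trans ?_
  calc _ ≤ 1 / (D : ℝ) * (D * (D * (2 * τ * j1)) + D * (m * ((j1 : ℝ) - j0))) := by gcongr
    _ = _ := by field_simp; ring

lemma small_le {f : ℕ → ℂ} (h : Small f) {τ : ℝ} (hτ : 0 < τ) :
    ∀ᶠ M : ℕ in atTop, ‖f M‖ ≤ τ * M := by
  have h1 := (h.eventually (gt_mem_nhds hτ))
  filter_upwards [h1, eventually_gt_atTop 0] with M hM hM0
  have : (0 : ℝ) < M := by exact_mod_cast hM0
  rw [div_lt_iff₀ this] at hM
  exact hM.le

lemma mean_le {f : ℕ → ℝ} {m : ℝ} (h : Tendsto (fun M : ℕ => f M / M) atTop (𝓝 m)) {τ : ℝ}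
    (hτ : 0 < τ) : ∀ᶠ M : ℕ in atTop, |f M - m * M| ≤ τ * M := by
  have h1 := (Metric.tendsto_nhds.mp h) τ hτ
  filter_upwards [h1, eventually_gt_atTop 0] with M hM hM0
  have h2 : (0 : ℝ) < M := by exact_mod_cast hM0
  rw [Real.dist_eq] at hM
  have h3 : f M - m * M = (f M / M - m) * M := by
    field_simp
  rw [h3, abs_mul, abs_of_pos h2]
  exact (mul_lt_mul_of_pos_right hM h2).le

/-- the arithmetic of one block -/
lemma arith {θ v vA ρ A n L j l : ℝ} (hL : 0 < L) (hθ : 0 < θ) (hρ : ρ = vA - A * θ)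
    (hd : |(v - n * θ) - (vA - A * θ)| ≤ 1 / L) (hv1 : j + l / L ≤ v) (hv2 : v < j + (l + 1) / L) :
    |(j + (l / L - ρ)) / θ - n| ≤ 2 / (L * θ) := by
  have h1 := abs_le.mp hd
  have h2 : (l + 1) / L = l / L + 1 / L := by ring
  have h3 : 2 / (L * θ) = (2 * (1 / L)) / θ := by field_simp
  rw [h3, div_sub' hθ.ne', abs_div, abs_of_pos hθ]
  gcongr
  rw [abs_le]
  constructor <;> nlinarith [h1.1, h1.2]

end EQBAux

open EQBAux in
theorem t_EQB : S_EQB := by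
  intro L θ a m v ⟨hθ, hLθ, ha, hmean, hsm, hv, hSV⟩
  have hL : (0 : ℝ) < L := by
    by_contra h
    have : (L : ℝ) * θ ≤ 0 := mul_nonpos_of_nonpos_of_nonneg (not_lt.mp h) hθ.le
    linarith
  have hL1 : (1 : ℝ) ≤ L := by
    have : 0 < L := by exact_mod_cast hL
    exact_mod_cast this
  obtain ⟨η₀, hη₀, n₀, hn₀⟩ := hSV (1 / L) (by positivity)
  have hη1 : min η₀ 1 ≤ 1 := min_le_right _ _
  have hη2 : min η₀ 1 ≤ η₀ := min_le_left _ _
  refine ⟨min η₀ 1, lt_min hη₀ one_pos, fun τ hτ => ?_⟩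
  set η := min η₀ 1 with hη
  -- the parameter `D`
  set D := ⌊(L : ℝ) * θ / 16⌋₊ with hD
  have hD1 : (D : ℝ) ≤ L * θ / 16 := Nat.floor_le (by positivity)
  have hDpos : 0 < D := Nat.floor_pos.mpr (by linarith)
  have hD' : (1 : ℝ) ≤ D := by exact_mod_cast hDpos
  have hD2 : (L : ℝ) * θ / 32 ≤ D := by
    have : (L : ℝ) * θ / 16 < D + 1 := Nat.lt_floor_add_one _
    linarith
  have hm01 : ∀ l < L, 0 ≤ m l ∧ m l ≤ 1 := by
    intro l hl
    have h1 : ∀ M : ℕ, (∑ j ∈ range M, a l j) / M ∈ Set.Icc (0 : ℝ) 1 := by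
      intro M
      refine ⟨div_nonneg (Finset.sum_nonneg fun j _ => (ha l j).1) (Nat.cast_nonneg _), ?_⟩
      refine div_le_one_of_le₀ ?_ (Nat.cast_nonneg _)
      calc _ ≤ ∑ _j ∈ range M, (1 : ℝ) := Finset.sum_le_sum fun j _ => (ha l j).2
        _ = M := by simp
    exact ⟨ge_of_tendsto' (hmean l hl) fun M => (h1 M).1,
      le_of_tendsto' (hmean l hl) fun M => (h1 M).2⟩
  -- the constants
  set C : ℝ := 3 * θ + 5 with hC
  have hCpos : 0 < C := by positivity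
  set τ' : ℝ := τ / (8 * L * C) with hτ'
  have hτ'pos : 0 < τ' := by positivity
  have hev : ∀ᶠ M : ℕ in atTop, ∀ l < L, |∑ j ∈ range M, a l j - m l * M| ≤ τ' * M ∧
      ∀ k < D, ∀ k' < D, k ≠ k' →
      ‖∑ j ∈ range M, (a l j : ℂ) * e (j * ((((k : ℤ) - k' : ℤ) : ℝ) / θ))‖ ≤ τ' * M := by
    have h1 : ∀ᶠ M : ℕ in atTop, ∀ l ∈ Finset.range L,
        |∑ j ∈ range M, a l j - m l * M| ≤ τ' * M := by
      rw [Filter.eventually_all_finset]
      intro l hl
      exact mean_le (hmean l (Finset.mem_range.mp hl)) hτ'pos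
    have h2 : ∀ᶠ M : ℕ in atTop, ∀ l ∈ Finset.range L, ∀ k ∈ Finset.range D,
        ∀ k' ∈ Finset.range D, k ≠ k' →
        ‖∑ j ∈ range M, (a l j : ℂ) * e (j * ((((k : ℤ) - k' : ℤ) : ℝ) / θ))‖ ≤ τ' * M := by
      rw [Filter.eventually_all_finset]
      intro l hl
      rw [Filter.eventually_all_finset]
      intro k _
      rw [Filter.eventually_all_finset]
      intro k' _
      by_cases hkk : k = k'
      · exact Filter.Eventually.of_forall fun M h => absurd hkk h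
      · have h3 := small_le (hsm l (Finset.mem_range.mp hl) ((k : ℤ) - k') (by omega)) hτ'pos
        filter_upwards [h3] with M hM _
        exact hM
    filter_upwards [h1, h2] with M hM1 hM2 l hl
    exact ⟨hM1 l (Finset.mem_range.mpr hl), fun k hk k' hk' => hM2 l (Finset.mem_range.mpr hl) k
      (Finset.mem_range.mpr hk) k' (Finset.mem_range.mpr hk')⟩
  obtain ⟨M0, hM0⟩ := Filter.eventually_atTop.mp hev
  -- large `A`
  have hvA : ∀ᶠ A : ℕ in atTop, |v A - θ * A| ≤ θ / 2 * A := mean_le hv (by positivity)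
  obtain ⟨A0, hA0⟩ := Filter.eventually_atTop.mp hvA
  obtain ⟨A1, hA1⟩ := exists_nat_ge (max (2 * ((M0 : ℝ) + 3) / θ) (20 * L / τ))
  refine ⟨max (max A0 A1) (max n₀ 1), fun A B hA hAB hB => ?_⟩
  have g1 : A0 ≤ A := (le_max_left _ _).trans ((le_max_left _ _).trans hA)
  have g2 : A1 ≤ A := (le_max_right _ _).trans ((le_max_left _ _).trans hA)
  have g3 : n₀ ≤ A := (le_max_left _ _).trans ((le_max_right _ _).trans hA)
  have g4 : 1 ≤ A := (le_max_right _ _).trans ((le_max_right _ _).trans hA)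
  have g4' : (1 : ℝ) ≤ A := by exact_mod_cast g4
  have g2' : (A1 : ℝ) ≤ A := by exact_mod_cast g2
  have g5 : 2 * ((M0 : ℝ) + 3) / θ ≤ A := (le_max_left _ _).trans (hA1.trans g2')
  have g6 : 20 * L / τ ≤ A := (le_max_right _ _).trans (hA1.trans g2')
  rw [div_le_iff₀ hθ] at g5
  rw [div_le_iff₀ hτ] at g6
  have hAB' : (A : ℝ) ≤ B := by exact_mod_cast hAB
  have hB2 : (B : ℝ) ≤ 2 * A := hB.trans (by nlinarith)
  have hvA' := abs_le.mp (hA0 A g1)
  have hvA1 : (M0 : ℝ) + 3 ≤ v A := by nlinarith [hvA'.1]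
  have hvA2 : v A ≤ 2 * θ * A := by nlinarith [hvA'.2]
  have hM0' : (0 : ℝ) ≤ M0 := Nat.cast_nonneg _
  have hd : ∀ n, A ≤ n → n < B → |(v n - n * θ) - (v A - A * θ)| ≤ 1 / L := by
    intro n hn1 hn2
    refine hn₀ A n g3 hn1 ?_
    have : (n : ℝ) ≤ B := by exact_mod_cast hn2.le
    nlinarith
  have hdd : ∀ n n', A ≤ n → n ≤ n' → n' < B → |(v n' - n' * θ) - (v n - n * θ)| ≤ 1 / L := by
    intro n n' hn1 hn2 hn3
    refine hn₀ n n' (g3.trans hn1) hn2 ?_
    have h1 : (n' : ℝ) ≤ B := by exact_mod_cast hn3.le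
    have h2 : (A : ℝ) ≤ n := by exact_mod_cast hn1
    nlinarith
  have hL' : (1 : ℝ) / L ≤ 1 := by
    rw [div_le_one hL]
    exact hL1
  set F : ℕ := ⌊v A⌋₊ with hF
  have hF1 : (F : ℝ) ≤ v A := Nat.floor_le (by linarith)
  have hF2 : v A < F + 1 := Nat.lt_floor_add_one _
  set R : ℕ := ⌈((B : ℝ) - A) * θ⌉₊ with hR
  have hR1 : ((B : ℝ) - A) * θ ≤ R := Nat.le_ceil _
  have hR2 : (R : ℝ) < ((B : ℝ) - A) * θ + 1 := Nat.ceil_lt_add_one (by nlinarith)
  set j0 : ℕ := F - 1 with hj0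
  set j1 : ℕ := F + R + 3 with hj1
  have hFM : M0 + 2 ≤ F := by
    have : (M0 : ℝ) + 2 < F := by linarith
    exact_mod_cast this.le
  have hj0' : (j0 : ℝ) = F - 1 := by
    rw [hj0, Nat.cast_sub (by omega)]
    simp
  have hM0j : M0 ≤ j0 := by omega
  have hj01 : j0 ≤ j1 := by omega
  have hj1' : (j1 : ℝ) = F + R + 3 := by
    rw [hj1]
    push_cast
    ring
  have hj1C : (j1 : ℝ) ≤ C * A := by
    rw [hj1', hC]
    nlinarith
  have hjd : (j1 : ℝ) - j0 ≤ ((B : ℝ) - A) * θ + 5 := by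
    rw [hj1', hj0']
    linarith
  set ρ : ℝ := v A - A * θ with hρ
  -- facts for `n` in the block
  have hvpos : ∀ n, A ≤ n → n < B → 0 < v n ∧ v A - 1 ≤ v n ∧ v n ≤ v A + ((B : ℝ) - A) * θ + 1 := by
    intro n hn1 hn2
    have h1 := abs_le.mp (hd n hn1 hn2)
    have h2 : (A : ℝ) ≤ n := by exact_mod_cast hn1
    have h3 : (n : ℝ) ≤ B := by exact_mod_cast hn2.le
    have h4 : (A : ℝ) * θ ≤ n * θ := by gcongr
    have h5 : (n : ℝ) * θ ≤ B * θ := by gcongr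
    have h6 : v A - 1 ≤ v n := by linarith [h1.1]
    refine ⟨by linarith, h6, by linarith [h1.2]⟩
  set ll : ℕ → ℕ := fun n => ⌊(L : ℝ) * Int.fract (v n)⌋₊ with hll
  set jj : ℕ → ℕ := fun n => ⌊v n⌋.toNat with hjj
  have hjj' : ∀ n, A ≤ n → n < B → (jj n : ℝ) = ⌊v n⌋ := by
    intro n hn1 hn2
    have h0 := (hvpos n hn1 hn2).1
    have : 0 ≤ ⌊v n⌋ := Int.floor_nonneg.mpr h0.le
    simp only [hjj]
    exact_mod_cast congrArg (Int.cast (R := ℝ)) (Int.toNat_of_nonneg this)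
  have hvb : ∀ n, A ≤ n → n < B → (jj n : ℝ) + (ll n : ℝ) / L ≤ v n ∧
      v n < (jj n : ℝ) + ((ll n : ℝ) + 1) / L := by
    intro n hn1 hn2
    have hfl : (ll n : ℝ) ≤ L * Int.fract (v n) :=
      Nat.floor_le (mul_nonneg hL.le (Int.fract_nonneg _))
    have hfl2 : L * Int.fract (v n) < (ll n : ℝ) + 1 := Nat.lt_floor_add_one _
    rw [hjj' n hn1 hn2]
    have hs := Int.floor_add_fract (v n)
    constructor
    · have : (ll n : ℝ) / L ≤ Int.fract (v n) := by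
        rw [div_le_iff₀ hL]
        linarith
      linarith
    · have : Int.fract (v n) < ((ll n : ℝ) + 1) / L := by
        rw [lt_div_iff₀ hL]
        linarith
      linarith
  have hllL : ∀ n, ll n < L := by
    intro n
    have h1 : (L : ℝ) * Int.fract (v n) < L := by
      have := Int.fract_lt_one (v n)
      nlinarith
    have h2 : ((ll n : ℕ) : ℝ) < L := lt_of_le_of_lt
      (Nat.floor_le (mul_nonneg hL.le (Int.fract_nonneg _))) h1
    exact_mod_cast h2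
  have hjjJ : ∀ n, A ≤ n → n < B → jj n ∈ Ico j0 j1 := by
    intro n hn1 hn2
    obtain ⟨h1, h2, h3⟩ := hvpos n hn1 hn2
    have h4 := hjj' n hn1 hn2
    have h5 := Int.floor_le (v n)
    have h6 := Int.lt_floor_add_one (v n)
    rw [← h4] at h5 h6
    rw [Finset.mem_Ico]
    constructor
    · have : (j0 : ℝ) < jj n + 1 := by
        rw [hj0']
        linarith
      have : j0 < jj n + 1 := by exact_mod_cast this
      omega
    · have : (jj n : ℝ) < j1 := by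
        rw [hj1']
        linarith
      exact_mod_cast this
  have hinj : Set.InjOn (fun n => (ll n, jj n)) (Ico A B : Finset ℕ) := by
    have key : ∀ n n', A ≤ n → n < n' → n' < B → (ll n, jj n) = (ll n', jj n') → False := by
      intro n n' hn1 hn2 hn3 he
      rw [Prod.mk.injEq] at he
      have h1 := hvb n hn1 (hn2.trans hn3)
      have h2 := hvb n' (hn1.trans hn2.le) hn3
      rw [← he.1, ← he.2] at h2
      have h3 := abs_le.mp (hdd n n' hn1 hn2.le hn3)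
      have h4 : (n : ℝ) + 1 ≤ n' := by exact_mod_cast hn2
      have h5 : ((ll n : ℝ) + 1) / L = (ll n : ℝ) / L + 1 / L := by ring
      have h6 : 16 / (L : ℝ) ≤ θ := by
        rw [div_le_iff₀ hL]
        linarith
      have h7 : 16 / (L : ℝ) = 16 * (1 / L) := by ring
      have h8 : 0 < 1 / (L : ℝ) := by positivity
      nlinarith [h1.1, h2.2, h3.1]
    intro n hn n' hn' he
    rw [Finset.mem_coe, Finset.mem_Ico] at hn hn'
    rcases lt_trichotomy n n' with h | h | h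
    · exact (key n n' hn.1 h hn'.2 he).elim
    · exact h
    · exact (key n' n hn'.1 h hn.2 he.symm).elim
  -- the function of `(l, j)`
  set g : ℕ × ℕ → ℝ := fun p => a p.1 p.2 * (2 / (D : ℝ) * (1 / (D : ℝ) *
    ‖W D ((p.2 + ((p.1 : ℝ) / L - ρ)) / θ)‖ ^ 2)) with hg
  have hg0 : ∀ p, 0 ≤ g p := fun p => mul_nonneg (ha _ _).1 (by positivity)
  have hterm : ∀ n ∈ Ico A B, a (ll n) (jj n) ≤ g (ll n, jj n) := by
    intro n hn
    rw [Finset.mem_Ico] at hn
    obtain ⟨h1, h2⟩ := hvb n hn.1 hn.2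
    have h3 := arith (ρ := ρ) hL hθ hρ (hd n hn.1 hn.2) h1 h2
    have h4 : 2 / ((L : ℝ) * θ) ≤ 1 / (8 * D) := by
      rw [div_le_div_iff₀ (by positivity) (by positivity)]
      linarith
    have h5 := W_ge (D := D) hDpos (n := (n : ℤ)) (y := ((jj n : ℝ) + ((ll n : ℝ) / L - ρ)) / θ)
      (by rw [Int.cast_natCast]; exact h3.trans h4)
    have h6 := (ha (ll n) (jj n)).1
    simp only [hg]
    calc a (ll n) (jj n) = a (ll n) (jj n) * 1 := (mul_one _).symm
      _ ≤ _ := by gcongr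
  have hsum1 : ∑ n ∈ Ico A B, a (ll n) (jj n) ≤ ∑ l ∈ range L, ∑ j ∈ Ico j0 j1, g (l, j) := by
    calc _ ≤ ∑ n ∈ Ico A B, g (ll n, jj n) := Finset.sum_le_sum hterm
      _ = ∑ p ∈ (Ico A B).image (fun n => (ll n, jj n)), g p := by
        rw [Finset.sum_image hinj]
      _ ≤ ∑ p ∈ range L ×ˢ Ico j0 j1, g p := by
        refine Finset.sum_le_sum_of_subset_of_nonneg ?_ fun p _ _ => hg0 p
        intro p hp
        rw [Finset.mem_image] at hp
        obtain ⟨n, hn, rfl⟩ := hp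
        rw [Finset.mem_Ico] at hn
        exact Finset.mem_product.mpr ⟨Finset.mem_range.mpr (hllL n), hjjJ n hn.1 hn.2⟩
      _ = _ := Finset.sum_product _ _ _
  have hsum2 : ∀ l ∈ range L, ∑ j ∈ Ico j0 j1, g (l, j) ≤
      64 / L * m l * ((B : ℝ) - A) + (10 + 4 * τ' * j1) := by
    intro l hl
    rw [Finset.mem_range] at hl
    have h1 := block D hDpos θ ((l : ℝ) / L - ρ) (m l) τ' (a l) (fun j => (ha l j).1) M0 j0 j1
      hM0j hj01 (hm01 l hl).1 hτ'pos.le (fun M hM => (hM0 M hM l hl).1)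
      (fun M hM k k' hk hk' hne => (hM0 M hM l hl).2 k hk k' hk' hne)
    have h2 : ∑ j ∈ Ico j0 j1, g (l, j) = 2 / (D : ℝ) * ∑ j ∈ Ico j0 j1,
        a l j * (1 / (D : ℝ) * ‖W D (((j : ℝ) + ((l : ℝ) / L - ρ)) / θ)‖ ^ 2) := by
      rw [Finset.mul_sum]
      refine Finset.sum_congr rfl fun j _ => ?_
      simp only [hg]
      ring
    rw [h2]
    have hDp : (0 : ℝ) < D := by linarith
    calc _ ≤ 2 / (D : ℝ) * (m l * ((j1 : ℝ) - j0) + 2 * D * τ' * j1) := by gcongr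
      _ = 2 / (D : ℝ) * m l * ((j1 : ℝ) - j0) + 4 * τ' * j1 := by field_simp; ring
      _ ≤ 2 / (D : ℝ) * m l * (((B : ℝ) - A) * θ + 5) + 4 * τ' * j1 := by
        have := (hm01 l hl).1
        gcongr
      _ = (2 / (D : ℝ) * θ) * (m l * ((B : ℝ) - A)) + 10 * (m l / D) + 4 * τ' * j1 := by
        field_simp
        ring
      _ ≤ (64 / L) * (m l * ((B : ℝ) - A)) + 10 * 1 + 4 * τ' * j1 := by
        have h3 : 2 / (D : ℝ) * θ ≤ 64 / L := by
          rw [div_mul_eq_mul_div, div_le_div_iff₀ hDp hL]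
          nlinarith
        have h4 : m l / D ≤ 1 := by
          rw [div_le_one hDp]
          linarith [(hm01 l hl).2]
        have h5 : 0 ≤ m l * ((B : ℝ) - A) := mul_nonneg (hm01 l hl).1 (by linarith)
        gcongr
      _ = _ := by ring
  have hfin : ∑ n ∈ Ico A B, a (ll n) (jj n) ≤
      ∑ l ∈ range L, (64 / L * m l * ((B : ℝ) - A) + (10 + 4 * τ' * j1)) :=
    hsum1.trans (Finset.sum_le_sum hsum2)
  have hfin2 : ∑ l ∈ range L, (64 / L * m l * ((B : ℝ) - A) + (10 + 4 * τ' * j1)) =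
      (64 / L * ∑ l ∈ range L, m l) * ((B : ℝ) - A) + L * (10 + 4 * τ' * j1) := by
    rw [Finset.sum_add_distrib, Finset.mul_sum, Finset.sum_mul]
    simp
    ring
  have hfin3 : (L : ℝ) * (10 + 4 * τ' * j1) ≤ τ * A := by
    have h1 : τ' * (L * C) = τ / 8 := by
      rw [hτ']
      field_simp
    have h2 : (L : ℝ) * (4 * τ' * j1) ≤ L * (4 * τ' * (C * A)) := by gcongr
    have h3 : (L : ℝ) * (4 * τ' * (C * A)) = 4 * (τ' * (L * C)) * A := by ring
    rw [h1] at h3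
    have h4 : (20 : ℝ) * L ≤ τ * A := by linarith
    nlinarith
  calc _ ≤ _ := hfin
    _ = _ := hfin2
    _ ≤ _ := by linarith

end Pool.Agent.T3H29.HK
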