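import Pool.Agent.T3H29.HK.Stm

/-! Task EQS of project HK. -/

set_option autoImplicit false

namespace Pool.Agent.T3H29.HK

open Filter Topology Finset

namespace EQSAux

theorem main (u : ℕ → ℝ) (κ η : ℝ) (hu : ∀ n, 0 ≤ u n ∧ u n ≤ 1) (hη : 0 < η) (hκ : 0 ≤ κ)
    (h : ∀ τ : ℝ, 0 < τ → ∃ n₁ : ℕ, ∀ A B : ℕ, n₁ ≤ A → A ≤ B → (B : ℝ) ≤ (1 + η) * A →
      ∑ n ∈ Ico A B, u n ≤ κ * ((B : ℝ) - A) + τ * A) (ε : ℝ) (hε : 0 < ε) :
    ∀ᶠ N : ℕ in atTop, ∑ n ∈ range N, u n ≤ (κ + ε) * N := by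
  set η' := min η 1 with hη'
  have h1 : 0 < η' := lt_min hη one_pos
  have h2 : η' ≤ 1 := min_le_right _ _
  have h3 : η' ≤ η := min_le_left _ _
  obtain ⟨n₁, hn₁⟩ := h (ε * η' / 16) (by positivity)
  obtain ⟨n2, hn2⟩ := exists_nat_ge (max (2 * (n₁ : ℝ)) (4 / η'))
  have key : ∀ B : ℕ, ∑ n ∈ range B, u n ≤ n2 + (κ + ε / 4) * B := by
    intro B
    induction B using Nat.strong_induction_on with
    | _ B ih =>
      rcases lt_or_ge B n2 with hB | hB
      · have : ∑ n ∈ range B, u n ≤ B := by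
          calc _ ≤ ∑ n ∈ range B, (1 : ℝ) := Finset.sum_le_sum fun n _ => (hu n).2
            _ = B := by simp
        have hB' : (B : ℝ) ≤ n2 := by exact_mod_cast hB.le
        have : 0 ≤ (κ + ε / 4) * B := by positivity
        linarith
      · have hB' : (n2 : ℝ) ≤ B := by exact_mod_cast hB
        have hB1 : 2 * (n₁ : ℝ) ≤ B := (le_max_left _ _).trans (hn2.trans hB')
        have hB2 : 4 / η' ≤ B := (le_max_right _ _).trans (hn2.trans hB')
        have hB3 : 4 ≤ B * η' := by rwa [div_le_iff₀ h1] at hB2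
        have hB0 : 0 ≤ (B : ℝ) := Nat.cast_nonneg _
        set A := ⌈(B : ℝ) / (1 + η')⌉₊ with hA
        have hA1 : (B : ℝ) / (1 + η') ≤ A := Nat.le_ceil _
        have hA2 : (A : ℝ) < B / (1 + η') + 1 := Nat.ceil_lt_add_one (by positivity)
        have hA3 : (B : ℝ) ≤ (1 + η') * A := by
          rw [div_le_iff₀ (by positivity)] at hA1
          linarith
        have hA4 : (B : ℝ) / (1 + η') ≤ B - B * η' / 2 := by
          rw [div_le_iff₀ (by positivity)]
          nlinarith [mul_nonneg hB0 h1.le, mul_nonneg (mul_nonneg hB0 h1.le) (sub_nonneg.mpr h2)]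
        have hA5 : B * η' / 4 ≤ (B : ℝ) - A := by linarith
        have hAB : A < B := by
          have : (A : ℝ) < B := by linarith
          exact_mod_cast this
        have hA6 : (n₁ : ℝ) ≤ A := by
          have : (B : ℝ) ≤ 2 * A := by nlinarith [Nat.cast_nonneg (α := ℝ) A]
          linarith
        have h5 := hn₁ A B (by exact_mod_cast hA6) hAB.le (hA3.trans (by
          have : (0 : ℝ) ≤ A := Nat.cast_nonneg _
          nlinarith))
        have h6 := ih A hAB
        have h7 : ∑ n ∈ range B, u n = ∑ n ∈ range A, u n + ∑ n ∈ Ico A B, u n := by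
          rw [Finset.sum_range_add_sum_Ico _ hAB.le]
        rw [h7]
        have h8 : ε * η' / 16 * A ≤ ε / 4 * ((B : ℝ) - A) := by
          have hAle : (A : ℝ) ≤ B := by exact_mod_cast hAB.le
          have : ε * η' / 16 * A ≤ ε * η' / 16 * B := by gcongr
          nlinarith [mul_le_mul_of_nonneg_left hA5 hε.le]
        nlinarith
  have h9 := eventually_ge_atTop (⌈2 * (n2 : ℝ) / ε⌉₊)
  filter_upwards [h9] with N hN
  have : 2 * (n2 : ℝ) / ε ≤ N := (Nat.le_ceil _).trans (by exact_mod_cast hN)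
  rw [div_le_iff₀ hε] at this
  have hk := key N
  have : 0 ≤ (N : ℝ) := Nat.cast_nonneg _
  nlinarith

end EQSAux

theorem t_EQS : S_EQS := by
  intro u κ η hu hη hκ h ε hε
  exact EQSAux.main u κ η hu hη hκ h ε hε

end Pool.Agent.T3H29.HK
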