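import Pool.Agent.T3H29.HK.Stm

/-! EXA: the example `h g ^ n`. -/

set_option autoImplicit false

namespace Pool.Agent.T3H29.HK

open MeasureTheory ProbabilityTheory Filter Topology Finset

theorem t_EXA : S_EXA := by
  intro U hU g h hg hh hg1
  rw [Metric.tendstoLocallyUniformlyOn_iff]
  intro ε hε x hx
  have hcont : ContinuousOn (deriv h) U := hh.continuousOn_deriv_of_isOpen hU le_rfl
  have hca : ContinuousAt (fun y => |deriv h y|) x :=
    ((hcont.continuousAt (hU.mem_nhds hx))).abs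
  have h1 : ∀ᶠ y in 𝓝 x, |deriv h y| < |deriv h x| + 1 :=
    hca.eventually_lt continuousAt_const (by linarith)
  have h2 : ∀ᶠ y in 𝓝 x, y ∈ U := hU.mem_nhds hx
  refine ⟨{y | |deriv h y| < |deriv h x| + 1 ∧ y ∈ U}, mem_nhdsWithin_of_mem_nhds (h1.and h2), ?_⟩
  obtain ⟨M, hM⟩ : ∃ M, M = |deriv h x| + 1 := ⟨_, rfl⟩
  have hM0 : 0 < M := by rw [hM]; positivity
  obtain ⟨N, hN⟩ := exists_nat_gt (M / ε)
  filter_upwards [eventually_ge_atTop (max N 1)] with n hn y hy
  obtain ⟨hy1, hyU⟩ := hy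
  rw [← hM] at hy1
  have hn1 : 1 ≤ n := le_trans (le_max_right _ _) hn
  have hnN : (N : ℝ) ≤ n := by exact_mod_cast le_trans (le_max_left _ _) hn
  have hn0 : (0 : ℝ) < n := by exact_mod_cast hn1
  have hgy := hg1 y hyU
  have hg0 : g y ≠ 0 := by linarith
  have hdg : DifferentiableAt ℝ g y :=
    (hg.differentiableOn one_ne_zero).differentiableAt (hU.mem_nhds hyU)
  have hdh : DifferentiableAt ℝ h y :=
    (hh.differentiableOn one_ne_zero).differentiableAt (hU.mem_nhds hyU)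
  have hder : deriv (fun z => h z * g z ^ n) y =
      deriv h y * g y ^ n + h y * ((n : ℝ) * g y ^ (n - 1) * deriv g y) := by
    have e1 := hdh.hasDerivAt.mul (hdg.hasDerivAt.pow n)
    exact e1.deriv
  have hpow : g y ^ n = g y ^ (n - 1) * g y := by
    rw [← pow_succ, Nat.sub_add_cancel hn1]
  have hgp : g y ^ (n - 1) ≠ 0 := pow_ne_zero _ hg0
  rw [hder, Real.rpow_one, Real.dist_eq]
  have e2 : h y * deriv g y / g y - (deriv h y * g y ^ n + h y * ((n : ℝ) * g y ^ (n - 1) *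
      deriv g y)) / ((n : ℝ) * g y ^ n) = -(deriv h y / n) := by
    rw [hpow]
    field_simp
    ring
  rw [e2, abs_neg, abs_div, abs_of_pos hn0, div_lt_iff₀ hn0]
  calc |deriv h y| < M := hy1
    _ ≤ ε * N := by
        rw [div_lt_iff₀ hε] at hN
        linarith
    _ ≤ ε * n := by gcongr

end Pool.Agent.T3H29.HK
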