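import Pool.Agent.T3H29.HK.Stm

/-! LEV: the level sets are countable. -/

set_option autoImplicit false

namespace Pool.Agent.T3H29.HK

open MeasureTheory ProbabilityTheory Filter Topology Finset

theorem t_LEV : S_LEV := by
  intro U hU g hg hd R hR
  have h1 : ∀ c : ℝ, {x | x ∈ U ∧ g x = c}.Countable := by
    intro c
    have hdisc : DiscreteTopology {x | x ∈ U ∧ g x = c} := by
      rw [discreteTopology_subtype_iff]
      rintro x ⟨hxU, hxc⟩
      have hda : DifferentiableAt ℝ g x :=
        (hg.differentiableOn one_ne_zero).differentiableAt (hU.mem_nhds hxU)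
      have h2 := hda.hasDerivAt.eventually_ne (c := c) (hd x hxU)
      rw [← Filter.empty_mem_iff_bot, Filter.mem_inf_principal]
      filter_upwards [h2] with z hz hz2
      exact hz hz2.2
    have := countable_of_Lindelof_of_discrete (X := {x | x ∈ U ∧ g x = c})
    exact Set.countable_coe_iff.1 this
  have h2 : {x | x ∈ U ∧ g x ∈ R} = ⋃ c ∈ R, {x | x ∈ U ∧ g x = c} := by
    ext x
    simp
  rw [h2]
  exact hR.biUnion fun c _ => h1 c

end Pool.Agent.T3H29.HK
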