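import Pool.Agent.T3h64.HK.Com

/-! LLN of project HK: law of large numbers along stopping indices. -/

set_option autoImplicit false

namespace Pool.Agent.T3H29.HK

open MeasureTheory ProbabilityTheory Filter Topology Finset
open Pool.Agent.T3H29.HR Pool.Agent.T3h64.HK

theorem t_LLN (hCOR : S_COR) : S_LLN := by
  intro b _ hb P _ hP j G ξ B c C hj hGm hGb hξm hξb hc hgr
  have hb1 : (1 : ℝ) < b := by exact_mod_cast (by omega : 1 < b)
  have hb0 : (0 : ℝ) < b := by linarith
  have hB0 : 0 ≤ B := (abs_nonneg _).trans (hξb 0 0 (fun _ => 0))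
  set D : ℕ → (ℤ → Fin b) → ℂ := fun n => Dd P (j n) (G n) (ξ n) with hD
  have hDm : ∀ n, Measurable (D n) := fun n => Dd_meas hb P (j n) (hj n) (G n) (ξ n) (hGm n) (hξm n)
  have hDb : ∀ n ω, ‖D n ω‖ ≤ 2 := fun n ω => Dd_norm P (j n) (G n) (ξ n) (hGb n) ω
  set ρ : ℝ := (b : ℝ) ^ (-c) with hρ
  have hρ0 : 0 < ρ := Real.rpow_pos_of_pos hb0 _
  have hρ1 : ρ < 1 := Real.rpow_lt_one_of_one_lt_of_neg hb1 (by linarith)
  have hρn : ∀ k : ℕ, ρ ^ k = (b : ℝ) ^ (-(c * k)) := by
    intro k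
    rw [hρ, ← Real.rpow_natCast, ← Real.rpow_mul hb0.le]
    congr 1
    ring
  set A : ℝ := (4 * Real.pi * B + 4) * (b : ℝ) ^ C with hA
  have hbC : 0 < (b : ℝ) ^ C := Real.rpow_pos_of_pos hb0 _
  have hA0 : 0 ≤ A := by positivity
  have hcorr : ∀ m n, m < n → ‖∫ ω, D m ω * (starRingEnd ℂ) (D n ω) ∂P‖ ≤ A * ρ ^ (n - m) := by
    intro m n hmn
    have hcast : (((n - m : ℕ)) : ℝ) = (n : ℝ) - m := by push_cast [hmn.le]; ring
    have hkey : (b : ℝ) ^ C * ρ ^ (n - m) = (b : ℝ) ^ (-(c * ((n : ℝ) - m) - C)) := by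
      rw [hρn, hcast, ← Real.rpow_add hb0]
      congr 1
      ring
    rcases le_or_gt 0 (c * ((n : ℝ) - m) - C) with h | h
    · have hle : ∀ ω, j m ω ≤ j n ω := by
        intro ω
        have := hgr m n ω hmn.le
        have h2 : (j m ω : ℝ) ≤ j n ω := by linarith
        exact_mod_cast h2
      have h3 := hCOR b hb P hP (j m) (j n) (G m) (G n) (ξ m) (ξ n) B
        (2 * Real.pi * B * (b : ℝ) ^ (-(c * ((n : ℝ) - m) - C))) (hj m) (hj n) hle (hGm m) (hGm n) (hGb m) (hGb n)
        (hξm m) (hξm n) (hξb m) (fun ω => by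
          rw [div_eq_mul_inv]
          refine mul_le_mul_of_nonneg_left ?_ (by positivity)
          rw [← Real.rpow_natCast, ← Real.rpow_neg hb0.le]
          refine Real.rpow_le_rpow_of_exponent_le hb1.le ?_
          have h4 := hgr m n ω hmn.le
          push_cast [hle ω]
          linarith)
      refine h3.trans ?_
      rw [hA, mul_assoc (4 * Real.pi * B + 4), hkey]
      have h5 : 0 < (b : ℝ) ^ (-(c * ((n : ℝ) - m) - C)) := Real.rpow_pos_of_pos hb0 _
      nlinarith
    · have h6 : 1 ≤ (b : ℝ) ^ C * ρ ^ (n - m) := by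
        rw [hkey]
        exact Real.one_le_rpow hb1.le (by linarith)
      have h7 : ‖∫ ω, D m ω * (starRingEnd ℂ) (D n ω) ∂P‖ ≤ 4 := by
        refine (norm_integral_le_of_norm_le_const (C := 4) (Eventually.of_forall fun ω => ?_)).trans (by simp)
        rw [norm_mul, RCLike.norm_conj]
        have h1 := hDb m ω
        have h2 := hDb n ω
        nlinarith [norm_nonneg (D m ω), norm_nonneg (D n ω)]
      refine h7.trans ?_
      rw [hA, mul_assoc (4 * Real.pi * B + 4)]
      have h8 : 0 ≤ 4 * Real.pi * B := by positivity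
      nlinarith
  have h2m := second_moment P D hDm hDb A ρ hA0 hρ0.le hρ1 hcorr
  have h1ρ : 0 < 1 - ρ := by linarith
  exact as_of_second P D hDm hDb _ (by positivity) h2m

end Pool.Agent.T3H29.HK
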