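import Pool.Agent.T3h64.HK.Red2

/-! RED of project HK: reduction to the conditional characteristic functions. -/

set_option autoImplicit false

namespace Pool.Agent.T3H29.HK

open MeasureTheory ProbabilityTheory Filter Topology Finset
open Pool.Agent.T3H29.HR Pool.Agent.T3h64.HK

theorem t_RED (hLLN : S_LLN) : S_RED := by
  intro b _ hb P _ hP q x₀ f F θ s Λ c τ σ hθ hc hcθ hs hσ hder hF z hz K
  have hb1 : (1 : ℝ) < b := by exact_mod_cast (by omega : 1 < b)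
  have hb0 : (0 : ℝ) < b := by linarith
  have hq0 : 0 ≤ 1 / (b : ℝ) ^ q := by positivity
  set I := Set.Icc x₀ (x₀ + 1 / (b : ℝ) ^ q) with hI
  -- continuous extensions
  set ft : ℕ → ℝ → ℝ := fun n x => f n (max x₀ (min (x₀ + 1 / (b : ℝ) ^ q) x)) with hft
  have hftc : ∀ n, Continuous (ft n) := by
    intro n
    have h1 : ContinuousOn (f n) I := fun x hx => (hder n x hx).continuousWithinAt
    refine h1.comp_continuous (by fun_prop) fun x => ⟨le_max_left _ _, max_le (by linarith) (min_le_left _ _)⟩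
  have hfte : ∀ n x, x ∈ I → ft n x = f n x := by
    intro n x hx
    simp only [hft]
    rw [min_eq_right hx.2, max_eq_right hx.1]
  set G : ℕ → ℕ → (ℕ → Fin b) → ℂ := fun n J π => z n * e (ft n (qq J π)) with hG
  set ξ : ℕ → ℕ → (ℕ → Fin b) → ℝ := fun n J π => σ * (b : ℝ) ^ ((K : ℝ) + Int.fract (WJ θ s c τ n J π)) with hξ
  have hσ1 : |σ| = 1 := by rcases hσ with h | h <;> simp [h]
  have hGm : ∀ n J, Measurable (G n J) := fun n J =>
    (e_cont.measurable.comp ((hftc n).measurable.comp (qq_meas J))).const_mul _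
  have hGb : ∀ n J π, ‖G n J π‖ ≤ 1 := fun n J π => by
    simp only [hG, norm_mul, norm_e, mul_one]
    exact hz n
  have hrp : Measurable fun x : ℝ => σ * (b : ℝ) ^ ((K : ℝ) + Int.fract x) := by
    have h1 : Continuous fun x : ℝ => (b : ℝ) ^ ((K : ℝ) + x) := by
      refine continuous_iff_continuousAt.2 fun x => ?_
      exact (Real.continuousAt_const_rpow hb0.ne').comp (continuousAt_const.add continuousAt_id)
    exact (h1.measurable.comp measurable_fract).const_mul _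
  have hξm : ∀ n J, Measurable (ξ n J) := fun n J => hrp.comp (WJ_meas θ s Λ c τ hθ hs n J)
  have hfr : ∀ x : ℝ, (b : ℝ) ^ ((K : ℝ) + Int.fract x) ≤ (b : ℝ) ^ (K + 1) := by
    intro x
    rw [← Real.rpow_natCast]
    refine Real.rpow_le_rpow_of_exponent_le hb1.le ?_
    have := Int.fract_lt_one x
    push_cast
    linarith
  have hξb : ∀ n J π, |ξ n J π| ≤ (b : ℝ) ^ (K + 1) := fun n J π => by
    simp only [hξ]
    rw [abs_mul, hσ1, one_mul, abs_of_pos (Real.rpow_pos_of_pos hb0 _)]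
    exact hfr _
  obtain ⟨C, hC⟩ := jj_growth (b := b) hb θ s Λ c τ hθ hs hc hcθ K
  obtain ⟨n₁, hn₁, hthr⟩ := exists_thr (b := b) hb θ s c τ hs hc hcθ K
  have hL := hLLN b hb P hP (fun n => jj θ s c τ K n) G ξ ((b : ℝ) ^ (K + 1)) (c / 2) C
    (fun n => jj_stop hb θ s Λ c τ hθ hs K n) hGm hGb hξm hξb (by positivity) hC
  filter_upwards [hL] with ω hω hx₀
  have hxq : xx q ω = x₀ := hx₀
  set X := val (fut ω) with hX
  have hX01 : X ∈ Set.Icc (0 : ℝ) 1 := ⟨val_nonneg _, val_le_one hb _⟩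
  -- closeness of the exponents
  have fact1 : ∀ ε : ℝ, 0 < ε → ∀ᶠ n : ℕ in atTop, ∀ x, xx (mm c n) ω ≤ x → x ≤ X →
      |VV b θ s τ n x - WW θ s c τ n ω| ≤ ε := by
    intro ε hε
    obtain ⟨n₂, hn₂⟩ := VV_close (b := b) θ s Λ c τ hb hθ hs hc ε hε
    filter_upwards [eventually_ge_atTop n₂] with n hn x hx1 hx2
    have h0 := xx_mem hb (mm c n) ω
    refine hn₂ n hn x ⟨h0.1.trans hx1, hx2.trans hX01.2⟩ _ h0 ?_
    have h1 := le_xx_add hb (mm c n) ω
    rw [abs_of_nonneg (by linarith)]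
    linarith
  refine ⟨fun n => WW θ s c τ n ω, ?_, ?_⟩
  · rw [Metric.tendsto_nhds]
    intro ε hε
    filter_upwards [fact1 (ε / 2) (half_pos hε)] with n hn
    have := hn X (xx_le hb _ ω) le_rfl
    rw [abs_sub_comm] at this
    rw [Real.dist_eq, sub_zero]
    linarith
  -- the derivatives
  have fact2 : ∀ ε : ℝ, 0 < ε → ∀ᶠ n : ℕ in atTop, ∀ x ∈ I, xx (mm c n) ω ≤ x → x ≤ X →
      |F n x - σ * (b : ℝ) ^ (WW θ s c τ n ω)| ≤ ε * (b : ℝ) ^ (WW θ s c τ n ω) := by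
    intro ε hε
    have hcont : ContinuousAt (fun u : ℝ => (b : ℝ) ^ u) 0 := Real.continuousAt_const_rpow hb0.ne'
    rw [Metric.continuousAt_iff] at hcont
    obtain ⟨η, hη, hη2⟩ := hcont (min 1 (ε / 2)) (by positivity)
    filter_upwards [fact1 (η / 2) (half_pos hη), hF (ε / 4) (by positivity)] with n h1 h2 x hxI hx1 hx2
    have h3 := h1 x hx1 hx2
    have h4 := h2 x hxI
    set V := VV b θ s τ n x with hV
    set W := WW θ s c τ n ω with hW
    have h5 : dist (V - W) 0 < η := by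
      rw [Real.dist_eq, sub_zero]
      linarith
    have h6 := hη2 h5
    rw [Real.dist_eq, Real.rpow_zero] at h6
    have h7 : (b : ℝ) ^ V = (b : ℝ) ^ W * (b : ℝ) ^ (V - W) := by
      rw [← Real.rpow_add hb0]; congr 1; ring
    have hW0 : 0 < (b : ℝ) ^ W := Real.rpow_pos_of_pos hb0 _
    have h8 : |(b : ℝ) ^ (V - W) - 1| ≤ 1 := h6.le.trans (min_le_left _ _)
    have h9 : |(b : ℝ) ^ (V - W) - 1| ≤ ε / 2 := h6.le.trans (min_le_right _ _)
    have h10 : (b : ℝ) ^ V ≤ 2 * (b : ℝ) ^ W := by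
      rw [h7]
      have := (abs_le.1 h8).2
      nlinarith
    have h11 : F n x - σ * (b : ℝ) ^ W = (F n x - σ * (b : ℝ) ^ V) + σ * ((b : ℝ) ^ W * ((b : ℝ) ^ (V - W) - 1)) := by
      rw [h7]; ring
    rw [h11]
    refine (abs_add_le _ _).trans ?_
    rw [abs_mul σ, hσ1, one_mul, abs_mul, abs_of_pos hW0]
    have h12 : (b : ℝ) ^ W * |(b : ℝ) ^ (V - W) - 1| ≤ (b : ℝ) ^ W * (ε / 2) := mul_le_mul_of_nonneg_left h9 hW0.le
    have h13 : ε / 4 * (b : ℝ) ^ V ≤ ε / 4 * (2 * (b : ℝ) ^ W) := mul_le_mul_of_nonneg_left h10 (by positivity)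
    linarith
  have hjn : ∀ n, n₁ ≤ n → ((jj θ s c τ K n ω : ℕ) : ℤ) = ⌊WW θ s c τ n ω⌋ - K := by
    intro n hn
    have := hthr n hn ω
    unfold jj
    omega
  have hmj : ∀ n, mm c n ≤ jj θ s c τ K n ω := fun n => le_max_left _ _
  have hWJ : ∀ n, WJ θ s c τ n (jj θ s c τ K n ω) (past (sh (jj θ s c τ K n ω : ℤ) ω)) = WW θ s c τ n ω :=
    fun n => WJ_eq θ s c τ n _ (hmj n) ω
  have hpowW : ∀ n, n₁ ≤ n → (b : ℝ) ^ (WW θ s c τ n ω) =
      (b : ℝ) ^ ((K : ℝ) + Int.fract (WW θ s c τ n ω)) * (b : ℝ) ^ (jj θ s c τ K n ω) := by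
    intro n hn
    rw [← Real.rpow_natCast, ← Real.rpow_add hb0]
    congr 1
    have h1 : ((jj θ s c τ K n ω : ℕ) : ℝ) = (⌊WW θ s c τ n ω⌋ : ℝ) - K := by exact_mod_cast hjn n hn
    rw [h1]
    have := Int.floor_add_fract (WW θ s c τ n ω)
    linarith
  have hmtop : ∀ᶠ n : ℕ in atTop, q ≤ mm c n := by
    obtain ⟨N, hN⟩ := exists_nat_gt (2 * (q + 1) / c)
    filter_upwards [eventually_ge_atTop N] with n hn
    rw [div_lt_iff₀ hc] at hN
    have h1 := lt_mm c n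
    have h2 : (N : ℝ) ≤ n := by exact_mod_cast hn
    have h3 : (q : ℝ) < mm c n := by nlinarith
    exact_mod_cast h3.le
  -- approximation
  have fact3 : ∀ ε : ℝ, 0 < ε → ∀ᶠ n : ℕ in atTop,
      |f n X - f n (xx (jj θ s c τ K n ω) ω) - σ * (b : ℝ) ^ ((K : ℝ) + Int.fract (WW θ s c τ n ω)) *
        val (fut (sh (jj θ s c τ K n ω : ℤ) ω))| ≤ ε * (b : ℝ) ^ (K + 1) ∧ xx (jj θ s c τ K n ω) ω ∈ I := by
    intro ε hε
    filter_upwards [fact2 ε hε, eventually_ge_atTop n₁, hmtop] with n h1 hn hqm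
    set J := jj θ s c τ K n ω with hJ
    have hmJ := hmj n
    have hx1 : xx (mm c n) ω ≤ xx J ω := xx_mono hb _ _ hmJ ω
    have hx2 : xx J ω ≤ X := xx_le hb J ω
    have hx3 : x₀ ≤ xx (mm c n) ω := by
      rw [← hxq]
      exact xx_mono hb _ _ hqm ω
    have hx4 : X ≤ x₀ + 1 / (b : ℝ) ^ q := by
      rw [← hxq]
      exact le_xx_add hb q ω
    have hsub : Set.Icc (xx J ω) X ⊆ I := Set.Icc_subset_Icc (hx3.trans hx1) hx4
    refine ⟨?_, hsub ⟨le_rfl, hx2⟩⟩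
    set W := WW θ s c τ n ω with hW
    have h2 := (convex_Icc (xx J ω) X).norm_image_sub_le_of_norm_hasDerivWithin_le
      (f := fun x => f n x - σ * (b : ℝ) ^ W * x) (f' := fun x => F n x - σ * (b : ℝ) ^ W)
      (C := ε * (b : ℝ) ^ W) (x := xx J ω) (y := X)
      (fun x hx => by
        have h3 := (hder n x (hsub hx)).mono hsub
        have h4 : HasDerivWithinAt (fun x : ℝ => σ * (b : ℝ) ^ W * x) (σ * (b : ℝ) ^ W) (Set.Icc (xx J ω) X) x := by
          simpa using (hasDerivWithinAt_id x (Set.Icc (xx J ω) X)).const_mul (σ * (b : ℝ) ^ W)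
        exact h3.fun_sub h4)
      (fun x hx => by
        rw [Real.norm_eq_abs]
        exact h1 x (hsub hx) (hx1.trans hx.1) hx.2)
      ⟨le_rfl, hx2⟩ ⟨hx2, le_rfl⟩
    simp only [Real.norm_eq_abs] at h2
    have h6 : X = xx J ω + val (fut (sh (J : ℤ) ω)) / (b : ℝ) ^ J := xx_split hb J ω
    have h7 : X - xx J ω = val (fut (sh (J : ℤ) ω)) / (b : ℝ) ^ J := by linarith
    have hbJ : (b : ℝ) ^ J ≠ 0 := by positivity
    have h8 : (b : ℝ) ^ W = (b : ℝ) ^ ((K : ℝ) + Int.fract W) * (b : ℝ) ^ J := hpowW n hn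
    have h9 : (b : ℝ) ^ W * (X - xx J ω) = (b : ℝ) ^ ((K : ℝ) + Int.fract W) * val (fut (sh (J : ℤ) ω)) := by
      rw [h7, h8]
      field_simp
    have h10 : f n X - σ * (b : ℝ) ^ W * X - (f n (xx J ω) - σ * (b : ℝ) ^ W * xx J ω) =
        f n X - f n (xx J ω) - σ * (b : ℝ) ^ ((K : ℝ) + Int.fract W) * val (fut (sh (J : ℤ) ω)) := by
      have : σ * (b : ℝ) ^ ((K : ℝ) + Int.fract W) * val (fut (sh (J : ℤ) ω)) =
          σ * ((b : ℝ) ^ W * (X - xx J ω)) := by rw [h9]; ring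
      rw [this]
      ring
    rw [h10, abs_of_nonneg (sub_nonneg.2 hx2), mul_assoc ε, h9] at h2
    refine h2.trans (mul_le_mul_of_nonneg_left ?_ hε.le)
    calc (b : ℝ) ^ ((K : ℝ) + Int.fract W) * val (fut (sh (J : ℤ) ω)) ≤ (b : ℝ) ^ (K + 1) * 1 :=
          mul_le_mul (hfr W) (val_le_one hb _) (val_nonneg _) (by positivity)
      _ = _ := mul_one _
  -- the errors
  set E : ℕ → ℝ := fun n => if n₁ ≤ n then
      ‖z n * e (f n X) - G n (jj θ s c τ K n ω) (past (sh (jj θ s c τ K n ω : ℤ) ω)) *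
        e (ξ n (jj θ s c τ K n ω) (past (sh (jj θ s c τ K n ω : ℤ) ω)) * val (fut (sh (jj θ s c τ K n ω : ℤ) ω)))‖
      else 3 with hE
  have hE0 : Tendsto E atTop (𝓝 0) := by
    rw [Metric.tendsto_nhds]
    intro ε hε
    set ε' : ℝ := ε / (4 * Real.pi * (b : ℝ) ^ (K + 1)) with hε'
    have hε'0 : 0 < ε' := by positivity
    filter_upwards [fact3 ε' hε'0, eventually_ge_atTop n₁] with n h1 hn
    obtain ⟨h1, h2⟩ := h1
    rw [Real.dist_eq, sub_zero]
    simp only [hE, if_pos hn]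
    rw [abs_of_nonneg (norm_nonneg _)]
    have h3 : G n (jj θ s c τ K n ω) (past (sh (jj θ s c τ K n ω : ℤ) ω)) *
        e (ξ n (jj θ s c τ K n ω) (past (sh (jj θ s c τ K n ω : ℤ) ω)) * val (fut (sh (jj θ s c τ K n ω : ℤ) ω))) =
        z n * e (f n (xx (jj θ s c τ K n ω) ω) + σ * (b : ℝ) ^ ((K : ℝ) + Int.fract (WW θ s c τ n ω)) *
          val (fut (sh (jj θ s c τ K n ω : ℤ) ω))) := by
      simp only [hG, hξ]
      rw [hWJ n, mul_assoc, ← e_add]
      have h4 : qq (jj θ s c τ K n ω) (past (sh (jj θ s c τ K n ω : ℤ) ω)) = xx (jj θ s c τ K n ω) ω := rfl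
      rw [h4, hfte n _ h2]
    rw [h3, ← mul_sub, norm_mul]
    refine lt_of_le_of_lt ((mul_le_of_le_one_left (norm_nonneg _) (hz n)).trans (norm_e_sub_e_le _ _)) ?_
    rw [← sub_sub]
    refine lt_of_le_of_lt (mul_le_mul_of_nonneg_left h1 (by positivity)) ?_
    have h5 : 2 * Real.pi * (ε' * (b : ℝ) ^ (K + 1)) = ε / 2 := by
      rw [hε']
      have : (0 : ℝ) < Real.pi := Real.pi_pos
      field_simp
      norm_num
    rw [h5]
    linarith
  have hPhi : ∀ n, n₁ ≤ n →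
      ‖cf P (past (sh (jj θ s c τ K n ω : ℤ) ω)) (ξ n (jj θ s c τ K n ω) (past (sh (jj θ s c τ K n ω : ℤ) ω)))‖ =
      Phi P K (sh (⌊WW θ s c τ n ω⌋ - K) ω) (Int.fract (WW θ s c τ n ω)) := by
    intro n hn
    simp only [hξ]
    rw [hWJ n, hjn n hn]
    unfold Phi cf
    rcases hσ with h | h
    · simp only [h, one_mul]
    · have : ∀ y : ℕ → Fin b, e (σ * (b : ℝ) ^ ((K : ℝ) + Int.fract (WW θ s c τ n ω)) * val y) =
          (starRingEnd ℂ) (e ((b : ℝ) ^ ((K : ℝ) + Int.fract (WW θ s c τ n ω)) * val y)) := by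
        intro y
        rw [h, ← e_neg]
        congr 1
        ring
      simp only [this]
      rw [integral_conj, RCLike.norm_conj]
  have hterm : ∀ n, ‖z n * e (f n X) - Dd P (fun ω => jj θ s c τ K n ω) (G n) (ξ n) ω‖ ≤
      Phi P K (sh (⌊WW θ s c τ n ω⌋ - K) ω) (Int.fract (WW θ s c τ n ω)) + E n := by
    intro n
    by_cases hn : n₁ ≤ n
    · have h1 := hPhi n hn
      simp only [hE, if_pos hn]
      rw [← h1]
      have h2 : z n * e (f n X) - Dd P (fun ω => jj θ s c τ K n ω) (G n) (ξ n) ω =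
          G n (jj θ s c τ K n ω) (past (sh (jj θ s c τ K n ω : ℤ) ω)) *
            cf P (past (sh (jj θ s c τ K n ω : ℤ) ω)) (ξ n (jj θ s c τ K n ω) (past (sh (jj θ s c τ K n ω : ℤ) ω))) +
          (z n * e (f n X) - G n (jj θ s c τ K n ω) (past (sh (jj θ s c τ K n ω : ℤ) ω)) *
        e (ξ n (jj θ s c τ K n ω) (past (sh (jj θ s c τ K n ω : ℤ) ω)) * val (fut (sh (jj θ s c τ K n ω : ℤ) ω)))) := by
        unfold Dd
        ring
      rw [h2]
      refine (norm_add_le _ _).trans ?_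
      have h3 : ‖G n (jj θ s c τ K n ω) (past (sh (jj θ s c τ K n ω : ℤ) ω)) *
            cf P (past (sh (jj θ s c τ K n ω : ℤ) ω)) (ξ n (jj θ s c τ K n ω) (past (sh (jj θ s c τ K n ω : ℤ) ω)))‖ ≤
          ‖cf P (past (sh (jj θ s c τ K n ω : ℤ) ω)) (ξ n (jj θ s c τ K n ω) (past (sh (jj θ s c τ K n ω : ℤ) ω)))‖ := by
        rw [norm_mul]
        exact mul_le_of_le_one_left (norm_nonneg _) (hGb _ _ _)
      linarith
    · simp only [hE, if_neg hn]
      refine (norm_sub_le _ _).trans ?_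
      have h1 := (Phi_bounds P K (sh (⌊WW θ s c τ n ω⌋ - K) ω) (Int.fract (WW θ s c τ n ω))).1
      have h2 := Dd_norm P (fun ω => jj θ s c τ K n ω) (G n) (ξ n) (hGb n) ω
      have h3 : ‖z n * e (f n X)‖ ≤ 1 := by
        rw [norm_mul, norm_e, mul_one]
        exact hz n
      linarith
  have hces := hE0.cesaro
  intro ε hε
  have hce : ∀ᶠ N : ℕ in atTop, (N : ℝ)⁻¹ * ∑ n ∈ range N, E n < ε / 2 :=
    hces.eventually (gt_mem_nhds (half_pos hε))
  filter_upwards [hω (ε / 2) (half_pos hε), hce, eventually_gt_atTop 0] with N hN hNN hN0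
  have hN0' : (0 : ℝ) < N := by exact_mod_cast hN0
  have h3 : ∑ n ∈ range N, z n * e (f n X) =
      ∑ n ∈ range N, Dd P (fun ω => jj θ s c τ K n ω) (G n) (ξ n) ω +
      ∑ n ∈ range N, (z n * e (f n X) - Dd P (fun ω => jj θ s c τ K n ω) (G n) (ξ n) ω) := by
    rw [← sum_add_distrib]
    exact sum_congr rfl fun n _ => by ring
  rw [h3]
  refine (norm_add_le _ _).trans ?_
  have h4 : ‖∑ n ∈ range N, (z n * e (f n X) - Dd P (fun ω => jj θ s c τ K n ω) (G n) (ξ n) ω)‖ ≤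
      ∑ n ∈ range N, Phi P K (sh (⌊WW θ s c τ n ω⌋ - K) ω) (Int.fract (WW θ s c τ n ω)) +
        ∑ n ∈ range N, E n := by
    refine (norm_sum_le _ _).trans ((sum_le_sum fun n _ => hterm n).trans ?_)
    rw [sum_add_distrib]
  have h5 : ∑ n ∈ range N, E n ≤ ε / 2 * N := by
    rw [inv_mul_lt_iff₀ hN0'] at hNN
    linarith
  linarith

end Pool.Agent.T3H29.HK
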