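import Pool.Agent.T3H29.HK.Stm

/-! SVL: `n θ + τ log n + s + o(1)` varies slowly. -/

set_option autoImplicit false

namespace Pool.Agent.T3H29.HK

open MeasureTheory ProbabilityTheory Filter Topology Finset

theorem t_SVL : S_SVL := by
  intro b θ τ s v hb hv k
  have hb2 : (2 : ℝ) ≤ b := by exact_mod_cast hb
  have hlb : 1 / 2 ≤ Real.log b := by
    have h1 : Real.log 2 ≤ Real.log b := Real.log_le_log (by norm_num) hb2
    have h2 := Real.log_two_gt_d9
    linarith
  constructor
  · -- the slope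
    have h1 : Tendsto (fun n : ℕ => Real.log n / n) atTop (𝓝 0) :=
      (Real.isLittleO_log_id_atTop.tendsto_div_nhds_zero).comp tendsto_natCast_atTop_atTop
    have h2 : Tendsto (fun n : ℕ => (s - k) / (n : ℝ)) atTop (𝓝 0) :=
      tendsto_const_div_atTop_nhds_zero_nat _
    have h3 : Tendsto (fun n : ℕ => (v n - (n * θ + τ * Real.logb b n + s)) * ((n : ℝ))⁻¹) atTop
        (𝓝 (0 * 0)) := hv.mul tendsto_inv_atTop_nhds_zero_nat
    have h4 : Tendsto (fun n : ℕ => θ + τ / Real.log b * (Real.log n / n) + (s - k) / (n : ℝ) +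
        (v n - (n * θ + τ * Real.logb b n + s)) * ((n : ℝ))⁻¹) atTop
        (𝓝 (θ + τ / Real.log b * 0 + 0 + 0 * 0)) :=
      (((tendsto_const_nhds.add (h1.const_mul _)).add h2).add h3)
    have h5 : θ + τ / Real.log b * 0 + 0 + 0 * 0 = θ := by ring
    rw [h5] at h4
    refine h4.congr' ?_
    filter_upwards [eventually_ge_atTop 1] with n hn
    have hn0 : (n : ℝ) ≠ 0 := by positivity
    unfold Real.logb
    have hl : Real.log b ≠ 0 := by linarith
    field_simp
    ring
  · intro δ hδ
    have hτ : 0 < |τ| + 1 := by positivity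
    refine ⟨δ / (4 * (|τ| + 1)), by positivity, ?_⟩
    have h1 : ∀ᶠ n : ℕ in atTop, |v n - (n * θ + τ * Real.logb b n + s)| ≤ δ / 4 := by
      have h2 := (Metric.tendsto_nhds.1 hv) (δ / 4) (by positivity)
      filter_upwards [h2] with n hn
      rw [Real.dist_eq, sub_zero] at hn
      exact hn.le
    obtain ⟨n₀, hn₀⟩ := eventually_atTop.1 h1
    refine ⟨max n₀ 1, fun n n' hn hnn' hle => ?_⟩
    have e1 := hn₀ n (le_trans (le_max_left _ _) hn)
    have e2 := hn₀ n' (le_trans (le_trans (le_max_left _ _) hn) hnn')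
    have hn1 : 1 ≤ n := le_trans (le_max_right _ _) hn
    have hnp : (0 : ℝ) < n := by exact_mod_cast hn1
    have hnp' : (0 : ℝ) < n' := by exact_mod_cast (le_trans hn1 hnn')
    have hnn : (n : ℝ) ≤ n' := by exact_mod_cast hnn'
    have e3 : |Real.logb b n' - Real.logb b n| ≤ δ / (2 * (|τ| + 1)) := by
      have e4 : Real.logb b n' - Real.logb b n = (Real.log (n' / n)) / Real.log b := by
        unfold Real.logb
        rw [Real.log_div hnp'.ne' hnp.ne']
        ring
      have e5 : 1 ≤ (n' : ℝ) / n := (one_le_div hnp).2 hnn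
      have e6 : 0 ≤ Real.log ((n' : ℝ) / n) := Real.log_nonneg e5
      have e7 : Real.log ((n' : ℝ) / n) ≤ δ / (4 * (|τ| + 1)) := by
        have e8 := Real.log_le_sub_one_of_pos (lt_of_lt_of_le one_pos e5)
        have e9 : (n' : ℝ) / n ≤ 1 + δ / (4 * (|τ| + 1)) := by
          rw [div_le_iff₀ hnp]
          exact hle
        linarith
      rw [e4, abs_of_nonneg (div_nonneg e6 (by linarith))]
      rw [div_le_iff₀ (by linarith)]
      calc Real.log ((n' : ℝ) / n) ≤ δ / (4 * (|τ| + 1)) := e7
        _ = δ / (2 * (|τ| + 1)) * (1 / 2) := by field_simp; ring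
        _ ≤ δ / (2 * (|τ| + 1)) * Real.log b := by gcongr
    have e10 : |τ * (Real.logb b n' - Real.logb b n)| ≤ δ / 2 := by
      rw [abs_mul]
      calc |τ| * |Real.logb b n' - Real.logb b n| ≤ (|τ| + 1) * (δ / (2 * (|τ| + 1))) := by
            gcongr
            linarith
        _ = δ / 2 := by field_simp
    have e11 : (v n' - k - n' * θ) - (v n - k - n * θ) =
        τ * (Real.logb b n' - Real.logb b n) +
        (v n' - (n' * θ + τ * Real.logb b n' + s)) -
        (v n - (n * θ + τ * Real.logb b n + s)) := by ring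
    rw [e11]
    rw [abs_le] at e1 e2 e10 ⊢
    constructor <;> linarith

end Pool.Agent.T3H29.HK
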