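import Pool.Agent.T3H29.HK.Stm

/-!
Task WW of the project HK: the theorem of Wiener and Wintner.
-/

set_option autoImplicit false

namespace Pool.Agent.T3H29.HK

open MeasureTheory Filter Topology Finset
open Pool.Agent.T3H29.HR
open Pool.Agent.T3H29.HR.VdcAux (Small)

theorem t_WW (hM : S_WWM) (hK : S_WWK) (hD : S_WWD) : S_WW := by
  intro Ω _ μ _ T hT f hfm hf
  obtain ⟨g₁, g₂, h₁, h₂, m₁, m₂, n₁, n₂, hs, hE, hP⟩ := hD Ω μ T hT f hfm hf
  obtain ⟨E, hEc, hE1⟩ := hK Ω μ T hT g₁ h₁ m₁ n₁ hE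
  refine ⟨E, hEc, ?_⟩
  filter_upwards [hE1, hM Ω μ T hT g₂ h₂ m₂ n₂ hP] with x hx1 hx2 α hα
  have h3 := hx1 α hα
  have h4 := hx2 α
  unfold Pool.Agent.T3H29.HR.VdcAux.Small at h3 h4 ⊢
  have h5 := h3.add h4
  rw [add_zero] at h5
  refine squeeze_zero (fun N => by positivity) (fun N => ?_) h5
  rw [← add_div]
  refine div_le_div_of_nonneg_right ?_ (Nat.cast_nonneg _)
  have h6 : ∑ j ∈ range N, (f (T^[j] x) : ℂ) * e (j * α) =
      ∑ j ∈ range N, g₁ (T^[j] x) * e (j * α) + ∑ j ∈ range N, g₂ (T^[j] x) * e (j * α) := by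
    rw [← sum_add_distrib]
    refine sum_congr rfl fun j _ => ?_
    rw [hs]
    ring
  beta_reduce
  rw [h6]
  exact norm_add_le _ _

end Pool.Agent.T3H29.HK
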