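import Pool.Agent.T3H29.HK.Stm

/-!
Task WWD of the project HK: the decomposition.
-/

set_option autoImplicit false

namespace Pool.Agent.T3H29.HK

open MeasureTheory Filter Topology Finset
open Pool.Agent.Helper498.NCR (koop EigSpan Ec Box01 I01 proj_box memLp_bdd ecperp)

theorem t_WWD : S_WWD := by
  intro Ω _ μ _ T hT f hfm hf
  have hcm : Measurable fun x => (f x : ℂ) := Complex.measurable_ofReal.comp hfm
  have hcn : ∀ x, ‖(f x : ℂ)‖ ≤ 1 := fun x => by
    rw [Complex.norm_real, Real.norm_of_nonneg (hf x).1]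
    exact (hf x).2
  have hcL : MemLp (fun x => (f x : ℂ)) 2 μ := memLp_bdd hcm hcn
  have hc01 : ∀ x, (f x : ℂ) ∈ I01 := fun x => ⟨by simpa using (hf x).1, by simpa using (hf x).2, by simp⟩
  obtain ⟨y, hy⟩ : ∃ y : Lp ℂ 2 μ, y = (Ec (koop hT.toMeasurePreserving)).starProjection
    (hcL.toLp _) := ⟨_, rfl⟩
  have hyBox : y ∈ Box01 μ := by
    rw [hy]
    exact proj_box hT.toMeasurePreserving hcL hc01
  have hyE : y ∈ Ec (koop hT.toMeasurePreserving) := by
    rw [hy]
    exact Submodule.starProjection_apply_mem _ _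
  have hyP : hcL.toLp _ - y ∈ (EigSpan (koop hT.toMeasurePreserving))ᗮ := by
    rw [hy, ← ecperp]
    exact Submodule.sub_starProjection_mem_orthogonal _
  have hymeas : Measurable y := (Lp.stronglyMeasurable y).measurable
  obtain ⟨h, hh⟩ : ∃ h : Ω → ℝ, ∀ x, h x = max 0 (min 1 (y x).re) := ⟨_, fun x => rfl⟩
  have hhm : Measurable h := by
    have : h = fun x => max 0 (min 1 (y x).re) := funext hh
    rw [this]
    exact measurable_const.max (measurable_const.min (Complex.measurable_re.comp hymeas))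
  have hh0 : ∀ x, 0 ≤ h x := fun x => by rw [hh]; exact le_max_left _ _
  have hh1 : ∀ x, h x ≤ 1 := fun x => by rw [hh]; exact max_le zero_le_one (min_le_left _ _)
  have hhy : (fun x => (h x : ℂ)) =ᵐ[μ] y := by
    have hyb : ∀ᵐ x ∂μ, y x ∈ I01 := hyBox
    filter_upwards [hyb] with x hx
    have h1 : h x = (y x).re := by
      rw [hh, min_eq_right hx.2.1, max_eq_right hx.1]
    rw [h1]
    apply Complex.ext <;> simp [hx.2.2]
  have hm1 : Measurable fun x => (h x : ℂ) := Complex.measurable_ofReal.comp hhm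
  have hn1 : ∀ x, ‖(h x : ℂ)‖ ≤ 1 := fun x => by
    rw [Complex.norm_real, Real.norm_of_nonneg (hh0 x)]
    exact hh1 x
  have hm2 : Measurable fun x => (f x : ℂ) - (h x : ℂ) := hcm.sub hm1
  have hn2 : ∀ x, ‖(f x : ℂ) - (h x : ℂ)‖ ≤ 1 := fun x => by
    rw [← Complex.ofReal_sub, Complex.norm_real, Real.norm_eq_abs, abs_le]
    have h1 := hf x
    have h2 := hh0 x
    have h3 := hh1 x
    constructor
    · linarith [h1.1]
    · linarith [h1.2]
  refine ⟨fun x => (h x : ℂ), fun x => (f x : ℂ) - (h x : ℂ), memLp_bdd hm1 hn1,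
    memLp_bdd hm2 hn2, hm1, hm2, hn1, hn2, fun x => by ring, ?_, ?_⟩
  · have h1 : (memLp_bdd hm1 hn1 : MemLp (fun x => (h x : ℂ)) 2 μ).toLp _ = y := by
      apply Lp.ext
      exact (MemLp.coeFn_toLp _).trans hhy
    rw [h1]
    exact hyE
  · have h1 : (memLp_bdd hm2 hn2 : MemLp (fun x => (f x : ℂ) - (h x : ℂ)) 2 μ).toLp _ =
        hcL.toLp _ - y := by
      apply Lp.ext
      refine (MemLp.coeFn_toLp _).trans ?_
      filter_upwards [hhy, Lp.coeFn_sub (hcL.toLp _) y, hcL.coeFn_toLp] with x h1 h2 h3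
      rw [h2, Pi.sub_apply, h3, h1]
    rw [h1]
    exact hyP

end Pool.Agent.T3H29.HK
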