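import Pool.Agent.T3H29.HK.Stm
import Pool.Agent.R243.Erg.Max

/-!
Task WWK of the project HK: the theorem of Wiener and Wintner, the closed span of the eigenfunctions.
-/

set_option autoImplicit false

namespace Pool.Agent.T3H29.HK

open MeasureTheory Filter Topology Finset
open Pool.Agent.T3H29.HR
open Pool.Agent.T3H29.HR.VdcAux (Small)
open Pool.Agent.Helper498.NCR (koop EigSpan Ec koop_pow_coe eig_pow char_avg approx_of_closure
  integral_norm_le_of_L2)

namespace WWK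

/-- the pointwise ergodic theorem for integrable functions and ergodic maps -/
theorem birk_L1 {Ω : Type} [MeasurableSpace Ω] {μ : Measure Ω} [IsProbabilityMeasure μ] {T : Ω → Ω}
    (hT : Ergodic T μ) {f : Ω → ℝ} (hf : Measurable f) (hi : Integrable f μ) :
    ∀ᵐ x ∂μ, Tendsto (fun n : ℕ => (n : ℝ)⁻¹ * ∑ k ∈ range n, f (T^[k] x)) atTop
      (𝓝 (∫ x, f x ∂μ)) := by
  have h1 := Pool.Agent.R243.Erg.birkhoff_L1 hT.toMeasurePreserving hf hi
  have hle := MeasurableSpace.invariants_le T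
  have h2 : (μ[f | MeasurableSpace.invariants T]) ∘ T = μ[f | MeasurableSpace.invariants T] :=
    MeasurableSpace.comp_eq_of_measurable_invariants stronglyMeasurable_condExp.measurable
  have h3 : AEStronglyMeasurable (μ[f | MeasurableSpace.invariants T]) μ :=
    (stronglyMeasurable_condExp.mono hle).aestronglyMeasurable
  obtain ⟨c, hc⟩ := hT.ae_eq_const_of_ae_eq_comp_ae h3 (by rw [h2])
  have h4 : ∫ x, (μ[f | MeasurableSpace.invariants T]) x ∂μ = ∫ x, f x ∂μ := integral_condExp hle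
  have h5 : ∫ x, (μ[f | MeasurableSpace.invariants T]) x ∂μ = c := by
    rw [integral_congr_ae hc]
    simp
  filter_upwards [h1, hc] with x hx1 hx2
  rw [hx2] at hx1
  rw [← h4, h5]
  exact hx1

theorem e_mul_nat (j : ℕ) (α : ℝ) : e (j * α) = e α ^ j := by
  unfold e
  rw [← Complex.exp_nat_mul]
  congr 1
  push_cast
  ring

end WWK

open WWK

theorem t_WWK : S_WWK := by
  intro Ω _ μ _ T hT g hg2 hgm hg1 hEc
  have hmp := hT.toMeasurePreserving
  obtain ⟨U, hU⟩ : ∃ U, U = koop hT.toMeasurePreserving := ⟨_, rfl⟩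
  have happ : ∀ m : ℕ, ∃ z, Pool.Agent.Helper498.NCR.FinEig U z ∧
      ‖hg2.toLp g - z‖ ≤ 1 / ((m : ℝ) + 1) := fun m => by
    rw [hU]
    exact approx_of_closure _ _ hEc _ (by positivity)
  choose z hz1 hz2 using happ
  choose ι inst y l hl hy hz using hz1
  refine ⟨⋃ m : ℕ, Set.range fun i : ι m => (starRingEnd ℂ) (l m i), ?_, ?_⟩
  · exact Set.countable_iUnion fun m => (Set.finite_range _).countable
  -- the values of the eigenfunctions
  have hA : ∀ᵐ x ∂μ, ∀ (m n : ℕ), (z m) (T^[n] x) = ∑ i, l m i ^ n * (y m i) x := by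
    rw [ae_all_iff]
    intro m
    rw [ae_all_iff]
    intro n
    have e1 : (U ^ n) (z m) = ∑ i, (l m i ^ n) • y m i := by
      rw [hz m, map_sum]
      exact sum_congr rfl fun i _ => eig_pow U (hy m i) n
    have e2 : ⇑((U ^ n) (z m)) =ᵐ[μ] fun x => (z m) (T^[n] x) := by
      rw [hU]
      exact koop_pow_coe hT.toMeasurePreserving n (z m)
    have e3 : ⇑(∑ i, (l m i ^ n) • y m i : Lp ℂ 2 μ) =ᵐ[μ] fun x => ∑ i, l m i ^ n * (y m i) x := by
      have h3 := Lp.coeFn_finsetSum (p := 2) (μ := μ) (univ : Finset (ι m))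
        (fun i => (l m i ^ n) • y m i)
      have h4 : ∀ᵐ x ∂μ, ∀ i : ι m, ((l m i ^ n) • y m i : Lp ℂ 2 μ) x = l m i ^ n * (y m i) x := by
        rw [ae_all_iff]
        intro i
        filter_upwards [Lp.coeFn_smul (l m i ^ n) (y m i)] with x hx
        rw [hx, Pi.smul_apply, smul_eq_mul]
      filter_upwards [h3, h4] with x hx3 hx4
      rw [hx3, Finset.sum_apply]
      exact sum_congr rfl fun i _ => hx4 i
    rw [e1] at e2
    filter_upwards [e2, e3] with x hx2 hx3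
    rw [← hx2, hx3]
  -- the averages of the errors
  have hzm : ∀ m, Measurable (z m) := fun m => (Lp.stronglyMeasurable (z m)).measurable
  have hB : ∀ᵐ x ∂μ, ∀ m : ℕ, Tendsto (fun n : ℕ => (n : ℝ)⁻¹ *
      ∑ k ∈ range n, ‖g (T^[k] x) - (z m) (T^[k] x)‖) atTop (𝓝 (∫ x, ‖g x - (z m) x‖ ∂μ)) := by
    rw [ae_all_iff]
    intro m
    refine birk_L1 hT (f := fun x => ‖g x - (z m) x‖) (hgm.sub (hzm m)).norm ?_
    exact ((hg2.integrable (by norm_num)).sub ((Lp.memLp (z m)).integrable (by norm_num))).norm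
  have hC : ∀ m : ℕ, ∫ x, ‖g x - (z m) x‖ ∂μ ≤ 1 / ((m : ℝ) + 1) := by
    intro m
    have hp : (0 : ℝ) < 1 / ((m : ℝ) + 1) := by positivity
    have h1 := integral_norm_le_of_L2 (hg2.toLp g - z m) _ hp
    have h2 : ∫ x, ‖(hg2.toLp g - z m : Lp ℂ 2 μ) x‖ ∂μ = ∫ x, ‖g x - (z m) x‖ ∂μ := by
      refine integral_congr_ae ?_
      filter_upwards [Lp.coeFn_sub (hg2.toLp g) (z m), hg2.coeFn_toLp] with x hx1 hx2
      rw [hx1, Pi.sub_apply, hx2]
    rw [h2, measure_univ, ENNReal.toReal_one, mul_one] at h1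
    refine h1.trans ?_
    obtain ⟨δ, hδ⟩ : ∃ δ, δ = 1 / ((m : ℝ) + 1) := ⟨_, rfl⟩
    rw [← hδ] at hp ⊢
    have h3 : ‖hg2.toLp g - z m‖ ^ 2 ≤ δ ^ 2 := by
      rw [hδ]
      exact pow_le_pow_left₀ (norm_nonneg _) (hz2 m) 2
    calc δ / 2 + (2 * δ)⁻¹ * ‖hg2.toLp g - z m‖ ^ 2 ≤ δ / 2 + (2 * δ)⁻¹ * δ ^ 2 := by gcongr
      _ = δ := by
        field_simp
        ring
  filter_upwards [hA, hB] with x hxA hxB α hα
  -- the eigenfunctions
  have hD : ∀ m : ℕ, Tendsto (fun N : ℕ => ‖(N : ℂ)⁻¹ * ∑ j ∈ range N, (z m) (T^[j] x) * e (j * α)‖)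
      atTop (𝓝 0) := by
    intro m
    have h1 : ∀ i : ι m, Tendsto (fun N : ℕ => (y m i) x *
        ((N : ℂ)⁻¹ * ∑ j ∈ range N, (l m i * e α) ^ j)) atTop (𝓝 0) := by
      intro i
      have h2 : ‖l m i * e α‖ = 1 := by rw [norm_mul, hl, norm_e, one_mul]
      have h3 : l m i * e α ≠ 1 := by
        intro h4
        apply hα
        refine Set.mem_iUnion.2 ⟨m, i, ?_⟩
        have h5 : (starRingEnd ℂ) (l m i) * l m i = 1 := by
          rw [← Complex.normSq_eq_conj_mul_self, Complex.normSq_eq_norm_sq, hl]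
          norm_num
        calc (starRingEnd ℂ) (l m i) = (starRingEnd ℂ) (l m i) * (l m i * e α) := by
              rw [h4, mul_one]
          _ = ((starRingEnd ℂ) (l m i) * l m i) * e α := by ring
          _ = e α := by rw [h5, one_mul]
      have h6 := char_avg (l m i * e α) h2
      rw [if_neg h3] at h6
      simpa using h6.const_mul ((y m i) x)
    have h2 := tendsto_finsetSum (univ : Finset (ι m)) (fun i _ => h1 i)
    rw [sum_const_zero] at h2
    have h3 := h2.norm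
    rw [norm_zero] at h3
    refine h3.congr fun N => ?_
    congr 1
    have h4 : ∑ j ∈ range N, (z m) (T^[j] x) * e (j * α) =
        ∑ i, (y m i) x * ∑ j ∈ range N, (l m i * e α) ^ j := by
      simp only [mul_sum]
      rw [sum_comm]
      refine sum_congr rfl fun j _ => ?_
      rw [hxA, sum_mul]
      refine sum_congr rfl fun i _ => ?_
      rw [e_mul_nat, mul_pow]
      ring
    rw [h4, mul_sum]
    exact sum_congr rfl fun i _ => by ring
  unfold Pool.Agent.T3H29.HR.VdcAux.Small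
  rw [Metric.tendsto_atTop]
  intro ε hε
  obtain ⟨m, hm⟩ := exists_nat_one_div_lt (show (0 : ℝ) < ε / 3 by positivity)
  have h1 : ∀ᶠ N : ℕ in atTop, ‖(N : ℂ)⁻¹ * ∑ j ∈ range N, (z m) (T^[j] x) * e (j * α)‖ < ε / 3 :=
    (hD m).eventually (gt_mem_nhds (by positivity))
  have h2 : ∀ᶠ N : ℕ in atTop, (N : ℝ)⁻¹ * ∑ k ∈ range N, ‖g (T^[k] x) - (z m) (T^[k] x)‖ <
      ε / 3 + ε / 3 :=
    (hxB m).eventually (gt_mem_nhds (by linarith [hC m]))
  obtain ⟨N₀, hN₀⟩ := eventually_atTop.1 (h1.and h2)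
  refine ⟨N₀, fun N hN => ?_⟩
  obtain ⟨h3, h4⟩ := hN₀ N hN
  rw [Real.dist_eq, sub_zero, abs_of_nonneg (by positivity)]
  have h5 : ‖∑ j ∈ range N, g (T^[j] x) * e (j * α)‖ / N =
      ‖(N : ℂ)⁻¹ * ∑ j ∈ range N, g (T^[j] x) * e (j * α)‖ := by
    rw [norm_mul, norm_inv, Complex.norm_natCast]
    ring
  have h6 : (N : ℂ)⁻¹ * ∑ j ∈ range N, g (T^[j] x) * e (j * α) =
      (N : ℂ)⁻¹ * ∑ j ∈ range N, (z m) (T^[j] x) * e (j * α) +
        (N : ℂ)⁻¹ * ∑ j ∈ range N, (g (T^[j] x) - (z m) (T^[j] x)) * e (j * α) := by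
    rw [← mul_add, ← sum_add_distrib]
    congr 1
    exact sum_congr rfl fun j _ => by ring
  have h7 : ‖(N : ℂ)⁻¹ * ∑ j ∈ range N, (g (T^[j] x) - (z m) (T^[j] x)) * e (j * α)‖ ≤
      (N : ℝ)⁻¹ * ∑ k ∈ range N, ‖g (T^[k] x) - (z m) (T^[k] x)‖ := by
    rw [norm_mul, norm_inv, Complex.norm_natCast]
    refine mul_le_mul_of_nonneg_left ?_ (by positivity)
    refine (norm_sum_le _ _).trans (le_of_eq ?_)
    refine sum_congr rfl fun j _ => ?_
    rw [norm_mul, norm_e, mul_one]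
  rw [h5, h6]
  have h8 := norm_add_le ((N : ℂ)⁻¹ * ∑ j ∈ range N, (z m) (T^[j] x) * e (j * α))
    ((N : ℂ)⁻¹ * ∑ j ∈ range N, (g (T^[j] x) - (z m) (T^[j] x)) * e (j * α))
  linarith

end Pool.Agent.T3H29.HK
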