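import Pool.Agent.T3H29.HK.Stm
import Pool.Agent.H165R3.Birk

/-!
Task WWM of the project HK: the theorem of Wiener and Wintner, the part orthogonal to the eigenfunctions.
-/

set_option autoImplicit false

namespace Pool.Agent.T3H29.HK

open MeasureTheory Filter Topology Finset
open Pool.Agent.T3H29.HR
open Pool.Agent.T3H29.HR.VdcAux (Small conj_e)
open Pool.Agent.Helper498.NCR (koop EigSpan Ec wiener_one koop_pow_toLp inner_toLp)

namespace WWM

/-- the inequality of van der Corput with correlations of small mean -/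
theorem small_of_corr (z : ℕ → ℂ) (hz : ∀ n, ‖z n‖ ≤ 1) (c : ℕ → ℝ) (hc : ∀ l, 0 ≤ c l)
    (h : ∀ (l : ℕ) (δ : ℝ), 0 < δ → ∀ᶠ M : ℕ in atTop,
      ‖∑ n ∈ range M, z (n + l) * (starRingEnd ℂ) (z n)‖ ≤ (c l + δ) * M)
    (hw : ∀ ε : ℝ, 0 < ε → ∃ k₀ : ℕ, ∀ k ≥ k₀,
      ((2 ^ k : ℕ) : ℝ)⁻¹ * ∑ l ∈ range (2 ^ k), c l ≤ ε) :
    Small fun N => ∑ n ∈ range N, z n := by
  unfold Pool.Agent.T3H29.HR.VdcAux.Small
  rw [Metric.tendsto_atTop]
  intro ε hε
  obtain ⟨k₀, hk₀⟩ := hw (ε ^ 2 / 16) (by positivity)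
  obtain ⟨K, hK⟩ := exists_nat_gt (4 / ε ^ 2)
  obtain ⟨H, hH⟩ : ∃ H : ℕ, H = 2 ^ (max k₀ K) := ⟨_, rfl⟩
  have hH1 : 4 / ε ^ 2 < H := hK.trans_le (by
    have h1 : K < 2 ^ K := Nat.lt_two_pow_self
    have h2 : 2 ^ K ≤ 2 ^ (max k₀ K) := Nat.pow_le_pow_right (by norm_num) (le_max_right _ _)
    rw [hH]
    exact_mod_cast (h1.le.trans h2))
  have hH0 : (0 : ℝ) < H := lt_of_le_of_lt (by positivity) hH1
  have hsum : ∑ l ∈ range H, c l ≤ H * (ε ^ 2 / 16) := by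
    have h1 := hk₀ (max k₀ K) (le_max_left _ _)
    rw [← hH, inv_mul_le_iff₀ hH0] at h1
    exact h1
  have hev : ∀ᶠ N : ℕ in atTop, ∀ l ∈ Ico 1 H,
      ‖∑ n ∈ range (N - l), z (n + l) * (starRingEnd ℂ) (z n)‖ ≤ (c l + ε ^ 2 / 16) * N := by
    rw [Filter.eventually_all_finset]
    intro l _
    have h1 := (tendsto_sub_atTop_nat l).eventually (h l (ε ^ 2 / 16) (by positivity))
    filter_upwards [h1] with N hN
    refine hN.trans ?_
    have hcl := hc l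
    apply mul_le_mul_of_nonneg_left _ (by positivity)
    exact_mod_cast Nat.sub_le _ _
  obtain ⟨N₀, hN₀⟩ := eventually_atTop.1 hev
  refine ⟨max N₀ (max H 1), fun N hN => ?_⟩
  have hN1 : N₀ ≤ N := le_trans (le_max_left _ _) hN
  have hN2 : H ≤ N := le_trans (le_trans (le_max_left _ _) (le_max_right _ _)) hN
  have hN3 : 1 ≤ N := le_trans (le_trans (le_max_right _ _) (le_max_right _ _)) hN
  have hNpos : (0 : ℝ) < N := by exact_mod_cast hN3
  have hHN : (H : ℝ) ≤ N := by exact_mod_cast hN2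
  have h3 : ∑ l ∈ Ico 1 H, ‖∑ n ∈ range (N - l), z (n + l) * (starRingEnd ℂ) (z n)‖ ≤
      (H * (ε ^ 2 / 8)) * N := by
    calc ∑ l ∈ Ico 1 H, ‖∑ n ∈ range (N - l), z (n + l) * (starRingEnd ℂ) (z n)‖
        ≤ ∑ l ∈ Ico 1 H, (c l + ε ^ 2 / 16) * N := sum_le_sum (hN₀ N hN1)
      _ ≤ ∑ l ∈ range H, (c l + ε ^ 2 / 16) * N := by
          apply sum_le_sum_of_subset_of_nonneg
          · intro l hl
            exact mem_range.2 (mem_Ico.1 hl).2
          · intro l _ _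
            have hcl := hc l
            positivity
      _ = (∑ l ∈ range H, c l + H * (ε ^ 2 / 16)) * N := by
          rw [← sum_mul, sum_add_distrib, sum_const, card_range, nsmul_eq_mul]
      _ ≤ (H * (ε ^ 2 / 16) + H * (ε ^ 2 / 16)) * N := by
          apply mul_le_mul_of_nonneg_right _ hNpos.le
          linarith
      _ = (H * (ε ^ 2 / 8)) * N := by ring
  have h4 := Pool.Agent.H469R2.NK.vdcH z hz N H
  obtain ⟨S, hS⟩ : ∃ S, S = ‖∑ n ∈ range N, z n‖ := ⟨_, rfl⟩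
  have hS0 : 0 ≤ S := by rw [hS]; exact norm_nonneg _
  show dist (‖∑ n ∈ range N, z n‖ / N) 0 < ε
  rw [← hS] at h4 ⊢
  have h5 : (H : ℝ) * S ^ 2 ≤ 2 * N ^ 2 * (1 + H * (ε ^ 2 / 4)) := by
    refine h4.trans ?_
    have h6 : (N : ℝ) + 2 * ∑ l ∈ Ico 1 H,
        ‖∑ n ∈ range (N - l), z (n + l) * (starRingEnd ℂ) (z n)‖ ≤ N * (1 + H * (ε ^ 2 / 4)) := by
      have : (N : ℝ) * (1 + H * (ε ^ 2 / 4)) = N + 2 * (H * (ε ^ 2 / 8) * N) := by ring
      rw [this]
      linarith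
    calc ((N : ℝ) + H) * (N + 2 * ∑ l ∈ Ico 1 H,
        ‖∑ n ∈ range (N - l), z (n + l) * (starRingEnd ℂ) (z n)‖)
          ≤ (2 * N) * (N * (1 + H * (ε ^ 2 / 4))) := by
          apply mul_le_mul (by linarith) h6 (by positivity) (by positivity)
      _ = 2 * (N : ℝ) ^ 2 * (1 + H * (ε ^ 2 / 4)) := by ring
  have h6 : (S / N) ^ 2 < ε ^ 2 := by
    rw [div_pow, div_lt_iff₀ (by positivity)]
    have h7 : 4 < H * ε ^ 2 := by
      rw [div_lt_iff₀ (by positivity)] at hH1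
      exact hH1
    have h8 : H * S ^ 2 < H * (ε ^ 2 * N ^ 2) := by
      have h9 : 2 * (N : ℝ) ^ 2 * (1 + H * (ε ^ 2 / 4)) < H * (ε ^ 2 * N ^ 2) := by
        have h10 : 0 < (N : ℝ) ^ 2 := by positivity
        have h11 : (N : ℝ) ^ 2 * 4 < (N : ℝ) ^ 2 * (H * ε ^ 2) := mul_lt_mul_of_pos_left h7 h10
        nlinarith
      exact h5.trans_lt h9
    exact lt_of_mul_lt_mul_left h8 hH0.le
  rw [Real.dist_eq, sub_zero, abs_of_nonneg (by positivity)]
  exact lt_of_pow_lt_pow_left₀ 2 hε.le h6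

/-- the pointwise ergodic theorem for complex bounded functions -/
theorem birk_cpx {Ω : Type} [MeasurableSpace Ω] {μ : Measure Ω} [IsProbabilityMeasure μ] {T : Ω → Ω}
    (hT : Ergodic T μ) (φ : Ω → ℂ) (hφ : Measurable φ) (hb : ∀ x, ‖φ x‖ ≤ 1) :
    ∀ᵐ x ∂μ, Tendsto (fun n : ℕ => (n : ℂ)⁻¹ * ∑ k ∈ range n, φ (T^[k] x)) atTop
      (𝓝 (∫ x, φ x ∂μ)) := by
  have h1 := Pool.Agent.H165R3.birkhoff hT (fun x => (φ x).re) (Complex.measurable_re.comp hφ)
    ⟨1, fun x => (Complex.abs_re_le_norm _).trans (hb x)⟩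
  have h2 := Pool.Agent.H165R3.birkhoff hT (fun x => (φ x).im) (Complex.measurable_im.comp hφ)
    ⟨1, fun x => (Complex.abs_im_le_norm _).trans (hb x)⟩
  have hi : Integrable φ μ := Integrable.of_bound hφ.aestronglyMeasurable 1 (ae_of_all _ hb)
  have h3 : ∫ x, φ x ∂μ = ((∫ x, (φ x).re ∂μ : ℝ) : ℂ) + ((∫ x, (φ x).im ∂μ : ℝ) : ℂ) * Complex.I :=
    (integral_re_add_im hi).symm
  filter_upwards [h1, h2] with x hx1 hx2
  rw [h3]
  have h4 := ((Complex.continuous_ofReal.tendsto _).comp hx1).add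
    (((Complex.continuous_ofReal.tendsto _).comp hx2).mul_const Complex.I)
  refine h4.congr fun n => ?_
  simp only [Function.comp_apply]
  push_cast
  have h5 : ∑ k ∈ range n, φ (T^[k] x) =
      ∑ k ∈ range n, (((φ (T^[k] x)).re : ℂ) + ((φ (T^[k] x)).im : ℂ) * Complex.I) :=
    sum_congr rfl fun k _ => (Complex.re_add_im _).symm
  rw [h5, sum_add_distrib, ← sum_mul]
  ring

end WWM

open WWM

theorem t_WWM : S_WWM := by
  intro Ω _ μ _ T hT g hg2 hgm hg1 hperp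
  obtain ⟨c, hc⟩ : ∃ c : ℕ → ℝ, ∀ l, c l =
      ‖inner ℂ (hg2.toLp g) ((koop hT.toMeasurePreserving ^ l) (hg2.toLp g))‖ := ⟨_, fun l => rfl⟩
  have hc2 : ∀ l : ℕ, ‖∫ x, g (T^[l] x) * (starRingEnd ℂ) (g x) ∂μ‖ = c l := by
    intro l
    rw [hc, koop_pow_toLp, inner_toLp]
    congr 1
    refine integral_congr_ae (ae_of_all _ fun x => ?_)
    simp only [Function.comp_apply]
    ring
  have hbir : ∀ᵐ x ∂μ, ∀ l : ℕ, Tendsto (fun n : ℕ => (n : ℂ)⁻¹ * ∑ k ∈ range n,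
      (g (T^[l] (T^[k] x)) * (starRingEnd ℂ) (g (T^[k] x)))) atTop
      (𝓝 (∫ x, g (T^[l] x) * (starRingEnd ℂ) (g x) ∂μ)) := by
    rw [ae_all_iff]
    intro l
    refine birk_cpx hT (fun x => g (T^[l] x) * (starRingEnd ℂ) (g x)) ?_ ?_
    · exact (hgm.comp (hT.toMeasurePreserving.measurable.iterate l)).mul
        (Complex.continuous_conj.measurable.comp hgm)
    · intro x
      rw [norm_mul, RCLike.norm_conj]
      exact mul_le_one₀ (hg1 _) (norm_nonneg _) (hg1 _)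
  filter_upwards [hbir] with x hx α
  refine small_of_corr (fun n => g (T^[n] x) * e (n * α)) (fun n => ?_) c
    (fun l => by rw [hc]; exact norm_nonneg _) (fun l δ hδ => ?_) (fun ε hε => ?_)
  · rw [norm_mul, norm_e, mul_one]
    exact hg1 _
  · have h1 : ∀ᶠ n : ℕ in atTop, ‖(n : ℂ)⁻¹ * ∑ k ∈ range n,
        (g (T^[l] (T^[k] x)) * (starRingEnd ℂ) (g (T^[k] x)))‖ < c l + δ := by
      have h2 := (hx l).norm
      rw [hc2 l] at h2
      exact h2.eventually (gt_mem_nhds (by linarith))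
    filter_upwards [h1, eventually_ge_atTop 1] with M hM hM1
    have hM0 : (0 : ℝ) < M := by exact_mod_cast hM1
    have h2 : ∑ n ∈ range M, g (T^[n + l] x) * e ((n + l : ℕ) * α) *
        (starRingEnd ℂ) (g (T^[n] x) * e (n * α)) =
        e (l * α) * ∑ k ∈ range M, (g (T^[l] (T^[k] x)) * (starRingEnd ℂ) (g (T^[k] x))) := by
      rw [mul_sum]
      refine sum_congr rfl fun n _ => ?_
      rw [map_mul, conj_e, ← Function.iterate_add_apply, add_comm l n]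
      have h3 : e (((n + l : ℕ) : ℝ) * α) * e (-((n : ℝ) * α)) = e (l * α) := by
        rw [← e_add]
        congr 1
        push_cast
        ring
      rw [← h3]
      ring
    rw [h2, norm_mul, norm_e, one_mul]
    rw [norm_mul, norm_inv, Complex.norm_natCast, inv_mul_lt_iff₀ hM0] at hM
    rw [mul_comm]
    exact hM.le
  · obtain ⟨k₀, hk₀⟩ := wiener_one (koop hT.toMeasurePreserving) (hg2.toLp g) hperp ε hε
    refine ⟨k₀, fun k hk => ?_⟩
    have h1 := hk₀ k hk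
    simp only [← hc] at h1
    exact h1

end Pool.Agent.T3H29.HK
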