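import Pool.Agent.T3H29.HK.Exam
import Pool.Agent.T3H29.HK.T_COR
import Pool.Agent.T3H29.HK.T_LLN
import Pool.Agent.T3H29.HK.T_RED
import Pool.Agent.T3H29.HK.T_EQB
import Pool.Agent.T3H29.HK.T_EQS
import Pool.Agent.T3H29.HK.T_SVL
import Pool.Agent.T3H29.HK.T_WWM
import Pool.Agent.T3H29.HK.T_WWK
import Pool.Agent.T3H29.HK.T_WWD
import Pool.Agent.T3H29.HK.T_WW
import Pool.Agent.T3H29.HK.T_AVG
import Pool.Agent.T3H29.HK.T_CNT
import Pool.Agent.T3H29.HK.T_DER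
import Pool.Agent.T3H29.HK.T_DIF
import Pool.Agent.T3H29.HK.T_EXA
import Pool.Agent.T3H29.HK.T_LEV
import Pool.Agent.T3H29.HK.T_ATM

/-! # Assembly of the tasks -/

set_option autoImplicit false

namespace Pool.Agent.T3H29.HK

theorem p_RED : S_RED := t_RED (t_LLN t_COR)

theorem p_WW : S_WW := t_WW t_WWM t_WWK t_WWD

theorem p_AVG : S_AVG := t_AVG t_EQB t_EQS t_SVL p_WW t_CNT

end Pool.Agent.T3H29.HK
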