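import Pool.Agent.T3H29.HK.Main

/-! # The examples: `h g ^ n`, powers, exponentials -/

set_option autoImplicit false

namespace Pool.Agent.T3H29.HK

open MeasureTheory ProbabilityTheory Filter Topology Finset
open Pool.Agent.T3H29.HR
open Pool.Agent.T3H29.HR.VdcAux (Small)

open scoped Classical in
/-- the sequences `h g ^ n` -/
theorem mainHG (hRED : S_RED) (hAVG : S_AVG) (hDER : S_DER) (hLEV : S_LEV) (hATM : S_ATM) (hDIF : S_DIF)
    (hEXA : S_EXA) (b : ℕ) (hb : 2 ≤ b) (μ : Measure ℝ) [IsProbabilityMeasure μ]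
    (hμ : Ergodic (Tb b) μ) (c₀ : ℝ) (hc₀ : 0 < c₀) (hent : ∀ n : ℕ, c₀ * n ≤ En b μ n)
    (U : Set ℝ) (hU : IsOpen U) (g h : ℝ → ℝ)
    (hg : ContDiffOn ℝ 1 g U) (hg1 : ∀ x ∈ U, 1 < g x) (hg' : ∀ x ∈ U, deriv g x ≠ 0)
    (hh : ContDiffOn ℝ 1 h U) (hh0 : ∀ x ∈ U, h x ≠ 0) :
    ∀ᵐ x ∂μ, x ∈ U → ∀ Q : Polynomial ℝ, ∀ u v : ℝ, 0 ≤ u → u ≤ v → v ≤ 1 →
      Tendsto (fun N : ℕ => (((Icc 1 N).filter (fun n : ℕ =>
        Int.fract (h x * g x ^ n + Q.eval (n : ℝ)) ∈ Set.Ico u v)).card : ℝ) / N) atTop (𝓝 (v - u)) := by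
  have hr : ContinuousOn (fun x => h x * deriv g x / g x) U :=
    (hh.continuousOn.mul (hg.continuousOn_deriv_of_isOpen hU le_rfl)).div hg.continuousOn
      fun x hx => by linarith [hg1 x hx]
  have hr0 : ∀ x ∈ U, h x * deriv g x / g x ≠ 0 := fun x hx =>
    div_ne_zero (mul_ne_zero (hh0 x hx) (hg' x hx)) (by linarith [hg1 x hx])
  have hf : ∀ n : ℕ, DifferentiableOn ℝ (fun y => h y * g y ^ n) U := fun n =>
    (hh.differentiableOn one_ne_zero).mul ((hg.differentiableOn one_ne_zero).pow n)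
  filter_upwards [main hRED hAVG hDER hLEV hATM hDIF b hb μ hμ c₀ hc₀ hent U hU g _
    (fun (n : ℕ) y => h y * g y ^ n) 1 hg hg1 hg' hr hr0 hf (hEXA U hU g h hg hh hg1) Set.univ] with x hx hxU Q u v hu huv hv
  have h1 := (hx hxU Q u v hu huv hv).add_const (v - u)
  rw [zero_add] at h1
  refine h1.congr' ?_
  filter_upwards [eventually_gt_atTop 0] with N hN
  have hN0 : (N : ℝ) ≠ 0 := by exact_mod_cast hN.ne'
  have h4 : (((Icc 1 N).filter (fun n : ℕ => n ∈ Set.univ)).card : ℝ) = N := by simp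
  simp only [Set.mem_univ, true_and] at h4 ⊢
  rw [h4]
  field_simp
  ring

open scoped Classical in
/-- products of powers with polynomials: complete equidistribution of the powers -/
theorem mainPow (hRED : S_RED) (hAVG : S_AVG) (hDER : S_DER) (hLEV : S_LEV) (hATM : S_ATM) (hDIF : S_DIF)
    (hEXA : S_EXA) (b : ℕ) (hb : 2 ≤ b) (μ : Measure ℝ) [IsProbabilityMeasure μ]
    (hμ : Ergodic (Tb b) μ) (c₀ : ℝ) (hc₀ : 0 < c₀) (hent : ∀ n : ℕ, c₀ * n ≤ En b μ n) (y : ℝ) :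
    ∀ᵐ x ∂μ, 1 < x + y → ∀ p : Polynomial ℤ, p ≠ 0 → ∀ Q : Polynomial ℝ, ∀ u v : ℝ, 0 ≤ u → u ≤ v → v ≤ 1 →
      Tendsto (fun N : ℕ => (((Icc 1 N).filter (fun n : ℕ =>
        Int.fract (Polynomial.aeval (x + y) p * (x + y) ^ n + Q.eval (n : ℝ)) ∈ Set.Ico u v)).card : ℝ) / N)
        atTop (𝓝 (v - u)) := by
  -- all polynomials at once
  have key : ∀ᵐ x ∂μ, ∀ p : Polynomial ℤ, p ≠ 0 → x ∈ {x : ℝ | 1 < x + y ∧ Polynomial.aeval (x + y) p ≠ 0} →
      ∀ Q : Polynomial ℝ, ∀ u v : ℝ, 0 ≤ u → u ≤ v → v ≤ 1 →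
      Tendsto (fun N : ℕ => (((Icc 1 N).filter (fun n : ℕ =>
        Int.fract (Polynomial.aeval (x + y) p * (x + y) ^ n + Q.eval (n : ℝ)) ∈ Set.Ico u v)).card : ℝ) / N)
        atTop (𝓝 (v - u)) := by
    have hcount : Countable (Polynomial ℤ) := by
      have h0 : Cardinal.mk (Polynomial ℤ) ≤ Cardinal.aleph0 :=
        (Polynomial.cardinalMk_le_max (R := ℤ)).trans (by simp)
      exact Cardinal.mk_le_aleph0_iff.1 h0
    rw [ae_all_iff]
    intro p
    by_cases hp : p = 0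
    · exact Eventually.of_forall fun x h => absurd hp h
    have hc : ContDiff ℝ 1 fun x : ℝ => Polynomial.aeval (x + y) p := by
      have h1 : ContDiff ℝ 1 fun x : ℝ => Polynomial.aeval x p := p.contDiff_aeval 1
      exact h1.comp (contDiff_id.add contDiff_const)
    have hU : IsOpen {x : ℝ | 1 < x + y ∧ Polynomial.aeval (x + y) p ≠ 0} := by
      refine IsOpen.inter ?_ ?_
      · exact isOpen_lt continuous_const (continuous_id.add continuous_const)
      · exact isOpen_ne_fun hc.continuous continuous_const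
    have hd : ∀ x : ℝ, deriv (fun x : ℝ => x + y) x = 1 := fun x => by simp
    have h2 := mainHG hRED hAVG hDER hLEV hATM hDIF hEXA b hb μ hμ c₀ hc₀ hent _ hU (fun x => x + y)
      (fun x => Polynomial.aeval (x + y) p) (contDiff_id.add contDiff_const).contDiffOn (fun x hx => hx.1)
      (fun x _ => by rw [hd]; exact one_ne_zero) hc.contDiffOn (fun x hx => hx.2)
    filter_upwards [h2] with x hx _ hxU
    exact hx hxU
  -- the zeros of the polynomials
  have hz : ∀ᵐ x ∂μ, ∀ p : Polynomial ℤ, p ≠ 0 → Polynomial.aeval (x + y) p ≠ 0 := by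
    have : NeZero b := ⟨by omega⟩
    obtain ⟨P, hPp, hPerg, hfut, hHH⟩ := exists_two_sided (b := b) μ hμ
    have hD : ¬ Det P := t_ENT b P hPerg.toMeasurePreserving c₀ hc₀ (fun n => by rw [hHH]; exact hent n)
    have hC : {x : ℝ | ∃ p : Polynomial ℤ, p ≠ 0 ∧ Polynomial.aeval (x + y) p = 0}.Countable := by
      have h1 : {x : ℝ | ∃ p : Polynomial ℤ, p ≠ 0 ∧ Polynomial.aeval (x + y) p = 0} ⊆
          (fun z : ℝ => z - y) '' {z : ℝ | IsAlgebraic ℤ z} := by
        rintro x ⟨p, hp, h2⟩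
        exact ⟨x + y, ⟨p, hp, h2⟩, by ring⟩
      exact ((Algebraic.countable ℤ ℝ).image _).mono h1
    have h1 := hATM b hb P hPerg hD _ hC
    have h2 : ∀ᵐ y' ∂(P.map fut), HR.val y' ∉ {x : ℝ | ∃ p : Polynomial ℤ, p ≠ 0 ∧ Polynomial.aeval (x + y) p = 0} :=
      (ae_map_iff fut_meas.aemeasurable ((val_meas hb) hC.measurableSet.compl)).2 h1
    rw [hfut] at h2
    have h3 := ae_of_ae_map dg_meas.aemeasurable h2
    filter_upwards [h3, ae_mem μ hμ.toMeasurePreserving] with x hx hx01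
    rw [val_dg hb, Int.fract_eq_self.2 hx01] at hx
    intro p hp h4
    exact hx ⟨p, hp, h4⟩
  filter_upwards [key, hz] with x hx hx0 hx1 p hp
  exact hx p hp ⟨hx1, hx0 p hp⟩

open scoped Classical in
/-- exponentials -/
theorem mainExp (hRED : S_RED) (hAVG : S_AVG) (hDER : S_DER) (hLEV : S_LEV) (hATM : S_ATM) (hDIF : S_DIF)
    (hEXA : S_EXA) (b : ℕ) (hb : 2 ≤ b) (μ : Measure ℝ) [IsProbabilityMeasure μ]
    (hμ : Ergodic (Tb b) μ) (c₀ : ℝ) (hc₀ : 0 < c₀) (hent : ∀ n : ℕ, c₀ * n ≤ En b μ n) (β y : ℝ) (hβ : 1 < β) :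
    ∀ᵐ x ∂μ, 0 < x + y → ∀ Q : Polynomial ℝ, ∀ u v : ℝ, 0 ≤ u → u ≤ v → v ≤ 1 →
      Tendsto (fun N : ℕ => (((Icc 1 N).filter (fun n : ℕ =>
        Int.fract (β ^ ((n : ℝ) * (x + y)) + Q.eval (n : ℝ)) ∈ Set.Ico u v)).card : ℝ) / N)
        atTop (𝓝 (v - u)) := by
  have hβ0 : (0 : ℝ) < β := by linarith
  have hlog : 0 < Real.log β := Real.log_pos hβ
  have hU : IsOpen {x : ℝ | 0 < x + y} := isOpen_lt continuous_const (continuous_id.add continuous_const)
  have hg : ContDiff ℝ 1 fun x : ℝ => Real.exp (Real.log β * (x + y)) :=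
    Real.contDiff_exp.comp (contDiff_const.mul (contDiff_id.add contDiff_const))
  have hd : ∀ x : ℝ, deriv (fun x : ℝ => Real.exp (Real.log β * (x + y))) x =
      Real.exp (Real.log β * (x + y)) * Real.log β := by
    intro x
    have h1 : HasDerivAt (fun x : ℝ => Real.log β * (x + y)) (Real.log β) x := by
      have := ((hasDerivAt_id x).add_const y).const_mul (Real.log β)
      simpa using this
    exact h1.exp.deriv
  have h2 := mainHG hRED hAVG hDER hLEV hATM hDIF hEXA b hb μ hμ c₀ hc₀ hent _ hU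
    (fun x => Real.exp (Real.log β * (x + y))) (fun _ => 1) hg.contDiffOn
    (fun x hx => Real.one_lt_exp_iff.2 (mul_pos hlog hx))
    (fun x _ => by rw [hd]; positivity) contDiff_const.contDiffOn (fun x _ => one_ne_zero)
  filter_upwards [h2] with x hx hxU Q u v hu huv hv
  refine (hx hxU Q u v hu huv hv).congr fun N => ?_
  have h3 : ∀ n : ℕ, (1 : ℝ) * Real.exp (Real.log β * (x + y)) ^ n = β ^ ((n : ℝ) * (x + y)) := by
    intro n
    rw [one_mul, ← Real.exp_nat_mul, Real.rpow_def_of_pos hβ0]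
    congr 1
    ring
  simp only [h3]

end Pool.Agent.T3H29.HK
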