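import Pool.Agent.T3H29.HK.Stm
import Pool.Agent.T3H29.HR.Gen

/-! # The linear sums -/

set_option autoImplicit false

namespace Pool.Agent.T3H29.HK

open MeasureTheory ProbabilityTheory Filter Topology Finset
open Pool.Agent.T3H29.HR
open Pool.Agent.T3H29.HR.VdcAux (Small)

lemma qq_countable {b : ℕ} (q : ℕ) : (Set.range (qq (b := b) q)).Countable := by
  refine Set.Countable.mono (s₂ := Set.range (fun w : Fin q → Fin b =>
    ∑ i ∈ range q, (if h : q - 1 - i < q then (((w ⟨q - 1 - i, h⟩ : Fin b) : ℕ) : ℝ) else 0) / (b : ℝ) ^ (i + 1))) ?_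
    (Set.countable_range _)
  rintro _ ⟨π, rfl⟩
  refine ⟨fun i => π i, ?_⟩
  unfold qq
  refine sum_congr rfl fun i hi => ?_
  have hi := mem_range.1 hi
  rw [dif_pos (by omega : q - 1 - i < q)]

lemma qq_le_val {b : ℕ} (hb : 2 ≤ b) (q : ℕ) (ω : ℤ → Fin b) :
    qq q (past (sh (q : ℤ) ω)) ≤ val (fut ω) ∧ val (fut ω) ≤ qq q (past (sh (q : ℤ) ω)) + 1 / (b : ℝ) ^ q := by
  have hb0 : (0 : ℝ) < b := by exact_mod_cast (by omega : 0 < b)
  have h := val_split hb q ω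
  have h0 := val_nonneg (fut (sh (q : ℤ) ω))
  have h1 := val_le_one hb (fut (sh (q : ℤ) ω))
  have h2 : 0 ≤ val (fut (sh (q : ℤ) ω)) / (b : ℝ) ^ q := by positivity
  have h3 : val (fut (sh (q : ℤ) ω)) / (b : ℝ) ^ q ≤ 1 / (b : ℝ) ^ q :=
    div_le_div_of_nonneg_right h1 (by positivity)
  constructor <;> linarith

/-- the linear sums, for two-sided sequences -/
theorem linP (hRED : S_RED) (hAVG : S_AVG) (hDER : S_DER) (hLEV : S_LEV) (hATM : S_ATM)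
    {b : ℕ} [NeZero b] (hb : 2 ≤ b) (P : Measure (ℤ → Fin b)) [IsProbabilityMeasure P]
    (hP : Ergodic (sh (b := b) 1) P) (hD : ¬ Det P) (U : Set ℝ) (hU : IsOpen U) (g r : ℝ → ℝ) (f : ℕ → ℝ → ℝ) (τ : ℝ)
    (hg : ContDiffOn ℝ 1 g U) (hg1 : ∀ x ∈ U, 1 < g x) (hg' : ∀ x ∈ U, deriv g x ≠ 0)
    (hr : ContinuousOn r U) (hr0 : ∀ x ∈ U, r x ≠ 0) (hf : ∀ n, DifferentiableOn ℝ (f n) U)
    (hlim : TendstoLocallyUniformlyOn (fun (n : ℕ) x => deriv (f n) x / ((n : ℝ) ^ τ * g x ^ n)) r atTop U)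
    (z : ℕ → ℂ) (hz : ∀ n, ‖z n‖ ≤ 1) :
    ∀ᵐ ω ∂P, val (fut ω) ∈ U → Small (fun N : ℕ => ∑ n ∈ range N, z n * e (f n (val (fut ω)))) := by
  have hb0 : (0 : ℝ) < b := by exact_mod_cast (by omega : 0 < b)
  have hb1 : (1 : ℝ) < b := by exact_mod_cast (by omega : 1 < b)
  obtain ⟨R, hR, hA⟩ := hAVG b hb P hP
  -- the slopes are not exceptional
  have hslope : ∀ᵐ ω ∂P, val (fut ω) ∈ U → Real.logb b (g (val (fut ω))) ∉ R := by
    have hR' : ((fun t : ℝ => (b : ℝ) ^ t) '' R).Countable := hR.image _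
    filter_upwards [hATM b hb P hP hD _ (hLEV U hU g hg hg' _ hR')] with ω hω hωU hR2
    apply hω
    refine ⟨hωU, Real.logb b (g (val (fut ω))), hR2, ?_⟩
    exact Real.rpow_logb hb0 hb1.ne' (by linarith [hg1 _ hωU])
  -- the reduction, for all intervals
  have hred : ∀ᵐ ω ∂P, ∀ q : ℕ, ∀ x₀ ∈ Set.range (qq (b := b) q),
      Set.Icc x₀ (x₀ + 1 / (b : ℝ) ^ q) ⊆ U → qq q (past (sh (q : ℤ) ω)) = x₀ → ∀ K : ℕ,
      ∃ (v : ℕ → ℝ) (s : ℝ), Tendsto (fun n : ℕ => v n - (n * Real.logb b (g (val (fut ω))) + τ * Real.logb b n + s)) atTop (𝓝 0) ∧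
      ∀ ε : ℝ, 0 < ε → ∀ᶠ N : ℕ in atTop, ‖∑ n ∈ range N, z n * e (f n (val (fut ω)))‖ ≤
        ε * N + ∑ n ∈ range N, Phi P K (sh (⌊v n⌋ - K) ω) (Int.fract (v n)) := by
    rw [ae_all_iff]
    intro q
    rw [ae_ball_iff (qq_countable q)]
    intro x₀ _
    by_cases hI : Set.Icc x₀ (x₀ + 1 / (b : ℝ) ^ q) ⊆ U
    · obtain ⟨θ, s, Λ, c, σ, h1, h2, h3, h4, h5, h6, h7, h8⟩ := hDER b hb U hU g r f τ hg hg1 hr hr0 hf hlim x₀
        (x₀ + 1 / (b : ℝ) ^ q) (by linarith [show (0 : ℝ) < 1 / (b : ℝ) ^ q by positivity]) hI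
      have h9 := ae_all_iff.2 fun K : ℕ =>
        hRED b hb P hP.toMeasurePreserving q x₀ f (fun n => deriv (f n)) θ s Λ c τ σ h1 h2 h3 h4 h5 h7 h8 z hz K
      filter_upwards [h9] with ω hω _ hq K
      obtain ⟨v, hv1, hv2⟩ := hω K hq
      refine ⟨v, s (val (fut ω)), ?_, hv2⟩
      have hmem : val (fut ω) ∈ Set.Icc x₀ (x₀ + 1 / (b : ℝ) ^ q) := by
        have := qq_le_val hb q ω
        rw [hq] at this
        exact this
      refine hv1.congr fun n => ?_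
      unfold VV
      rw [h6 _ hmem]
    · exact Eventually.of_forall fun ω h => absurd h hI
  have hI0 : Tendsto (fun K : ℕ => ∫ u in (0 : ℝ)..1, ∫ ω, Phi P K ω u ∂P) atTop (𝓝 0) :=
    mean_tendsto P t_NA t_WIE hb hP hD
  filter_upwards [hA, hslope, hred] with ω h1 h2 h3 hωU
  obtain ⟨ε₀, hε₀, hball⟩ := Metric.isOpen_iff.1 hU _ hωU
  obtain ⟨q, hq⟩ : ∃ q : ℕ, 1 / (b : ℝ) ^ q < ε₀ := by
    obtain ⟨q, hq⟩ := exists_pow_lt_of_lt_one hε₀ (inv_lt_one_of_one_lt₀ hb1)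
    exact ⟨q, by rwa [one_div, ← inv_pow]⟩
  have hI : Set.Icc (qq q (past (sh (q : ℤ) ω))) (qq q (past (sh (q : ℤ) ω)) + 1 / (b : ℝ) ^ q) ⊆ U := by
    intro y hy
    apply hball
    have := qq_le_val hb q ω
    rw [Metric.mem_ball, Real.dist_eq, abs_lt]
    constructor <;> linarith [hy.1, hy.2, this.1, this.2]
  have h4 := h3 q _ ⟨_, rfl⟩ hI rfl
  have hθ : 0 < Real.logb b (g (val (fut ω))) := Real.logb_pos hb1 (hg1 _ hωU)
  unfold VdcAux.Small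
  rw [Metric.tendsto_atTop']
  intro ε hε
  obtain ⟨K, hK⟩ := ((hI0.eventually (gt_mem_nhds (show (0 : ℝ) < ε / 256 by positivity))).exists)
  obtain ⟨v, s, hv1, hv2⟩ := h4 K
  have h5 := h1 _ hθ (h2 hωU) K v τ s hv1 (ε / 4) (by positivity)
  have h6 := hv2 (ε / 4) (by positivity)
  obtain ⟨N0, hN0⟩ := eventually_atTop.1 (h5.and (h6.and (eventually_gt_atTop 0)))
  refine ⟨N0, fun N hN => ?_⟩
  obtain ⟨h7, h8, h9⟩ := hN0 N hN.le
  have hN' : (0 : ℝ) < N := by exact_mod_cast h9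
  rw [Real.dist_eq, sub_zero, abs_of_nonneg (by positivity), div_lt_iff₀ hN']
  nlinarith

end Pool.Agent.T3H29.HK
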