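import Pool.Agent.T3H29.HK.Lin

/-! # The general theorem -/

set_option autoImplicit false

namespace Pool.Agent.T3H29.HK

open MeasureTheory ProbabilityTheory Filter Topology Finset
open Pool.Agent.T3H29.HR
open Pool.Agent.T3H29.HR.VdcAux (Small)

/-- the linear sums, for an invariant measure of the circle -/
theorem linC (hRED : S_RED) (hAVG : S_AVG) (hDER : S_DER) (hLEV : S_LEV) (hATM : S_ATM)
    {b : ℕ} [NeZero b] (hb : 2 ≤ b) (μ : Measure ℝ) [IsProbabilityMeasure μ]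
    (hμ : Ergodic (Tb b) μ) (c₀ : ℝ) (hc₀ : 0 < c₀) (hent : ∀ n : ℕ, c₀ * n ≤ En b μ n)
    (U : Set ℝ) (hU : IsOpen U) (g r : ℝ → ℝ) (f : ℕ → ℝ → ℝ) (τ : ℝ)
    (hg : ContDiffOn ℝ 1 g U) (hg1 : ∀ x ∈ U, 1 < g x) (hg' : ∀ x ∈ U, deriv g x ≠ 0)
    (hr : ContinuousOn r U) (hr0 : ∀ x ∈ U, r x ≠ 0) (hf : ∀ n, DifferentiableOn ℝ (f n) U)
    (hlim : TendstoLocallyUniformlyOn (fun (n : ℕ) x => deriv (f n) x / ((n : ℝ) ^ τ * g x ^ n)) r atTop U)
    (z : ℕ → ℂ) (hz : ∀ n, ‖z n‖ ≤ 1) :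
    ∀ᵐ x ∂μ, x ∈ U → Small (fun N : ℕ => ∑ n ∈ range N, z n * e (f n x)) := by
  obtain ⟨P, hPp, hPerg, hfut, hHH⟩ := exists_two_sided (b := b) μ hμ
  have hD : ¬ Det P := t_ENT b P hPerg.toMeasurePreserving c₀ hc₀ (fun n => by rw [hHH]; exact hent n)
  have h1 := linP hRED hAVG hDER hLEV hATM hb P hPerg hD U hU g r f τ hg hg1 hg' hr hr0 hf hlim z hz
  have hfm : ∀ n, Measurable (U.indicator (f n)) := by
    classical
    intro n
    rw [← Set.piecewise_eq_indicator]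
    exact ((hf n).continuousOn).measurable_piecewise continuousOn_const hU.measurableSet
  have hm : MeasurableSet {x : ℝ | x ∈ U → Small (fun N : ℕ => ∑ n ∈ range N, z n * e (f n x))} := by
    have h2 : {x : ℝ | x ∈ U → Small (fun N : ℕ => ∑ n ∈ range N, z n * e (f n x))} =
        Uᶜ ∪ {x : ℝ | Small (fun N : ℕ => ∑ n ∈ range N, z n * e (U.indicator (f n) x))} := by
      ext x
      simp only [Set.mem_ofPred_eq, Set.mem_union, Set.mem_compl_iff]
      by_cases hx : x ∈ U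
      · simp only [hx, true_imp_iff, not_true_eq_false, false_or, Set.indicator_of_mem]
      · simp [hx]
    rw [h2]
    refine hU.measurableSet.compl.union ?_
    unfold VdcAux.Small
    refine measurableSet_tendsto (𝓝 0) fun N => ?_
    refine (Measurable.norm ?_).div_const _
    refine Finset.measurable_fun_sum _ fun n _ => ?_
    exact (e_cont.measurable.comp (hfm n)).const_mul _
  have h2 : ∀ᵐ y ∂(P.map fut), HR.val y ∈ U → Small (fun N : ℕ => ∑ n ∈ range N, z n * e (f n (HR.val y))) :=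
    (ae_map_iff fut_meas.aemeasurable ((val_meas hb) hm)).2 h1
  rw [hfut] at h2
  have h3 := ae_of_ae_map dg_meas.aemeasurable h2
  filter_upwards [h3, ae_mem μ hμ.toMeasurePreserving] with x hx hx01
  rw [val_dg hb, Int.fract_eq_self.2 hx01] at hx
  exact hx

/-- difference of a sequence of functions -/
def dF (l : ℕ) (f : ℕ → ℝ → ℝ) : ℕ → ℝ → ℝ := fun n y => f (n + (l + 1)) y - f n y

/-- iterated -/
def DF (L : List ℕ) (f : ℕ → ℝ → ℝ) : ℕ → ℝ → ℝ := L.foldr dF f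

lemma DF_eq (L : List ℕ) (f : ℕ → ℝ → ℝ) (n : ℕ) (x : ℝ) : DF L f n x = DA L (fun n => f n x) n := by
  induction L generalizing n with
  | nil => rfl
  | cons l L ih =>
    change DF L f (n + (l + 1)) x - DF L f n x = DA L (fun n => f n x) (n + (l + 1)) - DA L (fun n => f n x) n
    rw [ih, ih]

lemma DF_diff (L : List ℕ) (f : ℕ → ℝ → ℝ) (U : Set ℝ) (hf : ∀ n, DifferentiableOn ℝ (f n) U) :
    ∀ n, DifferentiableOn ℝ (DF L f n) U := by
  induction L with
  | nil => exact hf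
  | cons l L ih => intro n; exact (ih _).sub (ih _)

/-- the limit function of the derivatives of the differences -/
def RR (L : List ℕ) (g r : ℝ → ℝ) : ℝ → ℝ := L.foldr (fun l r x => r x * (g x ^ (l + 1) - 1)) r

lemma RR_cont (L : List ℕ) (g r : ℝ → ℝ) (U : Set ℝ) (hg : ContinuousOn g U) (hr : ContinuousOn r U) :
    ContinuousOn (RR L g r) U := by
  induction L with
  | nil => exact hr
  | cons l L ih => exact ih.mul ((hg.pow _).sub continuousOn_const)

lemma RR_ne (L : List ℕ) (g r : ℝ → ℝ) (x : ℝ) (hg : 1 < g x) (hr : r x ≠ 0) : RR L g r x ≠ 0 := by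
  induction L with
  | nil => exact hr
  | cons l L ih =>
    have h1 : 1 < g x ^ (l + 1) := one_lt_pow₀ hg (by omega)
    exact mul_ne_zero ih (by linarith)

lemma DF_lim (hDIF : S_DIF) (L : List ℕ) (U : Set ℝ) (hU : IsOpen U) (g r : ℝ → ℝ) (f : ℕ → ℝ → ℝ) (τ : ℝ)
    (hg : ContinuousOn g U) (hg1 : ∀ x ∈ U, 1 < g x) (hr : ContinuousOn r U)
    (hf : ∀ n, DifferentiableOn ℝ (f n) U)
    (hlim : TendstoLocallyUniformlyOn (fun (n : ℕ) x => deriv (f n) x / ((n : ℝ) ^ τ * g x ^ n)) r atTop U) :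
    TendstoLocallyUniformlyOn (fun (n : ℕ) x => deriv (DF L f n) x / ((n : ℝ) ^ τ * g x ^ n)) (RR L g r) atTop U := by
  induction L with
  | nil => exact hlim
  | cons l L ih =>
    exact hDIF U hU g (RR L g r) (DF L f) τ hg hg1 (RR_cont L g r U hg hr) (DF_diff L f U hf) ih (l + 1)

lemma mul_lim (U : Set ℝ) (hU : IsOpen U) (g r : ℝ → ℝ) (f : ℕ → ℝ → ℝ) (τ h : ℝ)
    (hf : ∀ n, DifferentiableOn ℝ (f n) U)
    (hlim : TendstoLocallyUniformlyOn (fun (n : ℕ) x => deriv (f n) x / ((n : ℝ) ^ τ * g x ^ n)) r atTop U) :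
    TendstoLocallyUniformlyOn (fun (n : ℕ) x => deriv (fun y => h * f n y) x / ((n : ℝ) ^ τ * g x ^ n))
      (fun x => h * r x) atTop U := by
  have h1 : TendstoLocallyUniformlyOn (fun (n : ℕ) x => h * (deriv (f n) x / ((n : ℝ) ^ τ * g x ^ n)))
      (fun x => h * r x) atTop U := by
    rw [Metric.tendstoLocallyUniformlyOn_iff] at hlim ⊢
    intro ε hε x hx
    obtain ⟨t, ht, h2⟩ := hlim (ε / (|h| + 1)) (by positivity) x hx
    refine ⟨t, ht, ?_⟩
    filter_upwards [h2] with n hn y hy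
    have h3 := hn y hy
    rw [Real.dist_eq] at h3 ⊢
    rw [← mul_sub, abs_mul]
    rw [lt_div_iff₀ (by positivity)] at h3
    nlinarith [abs_nonneg h, abs_nonneg (r y - deriv (f n) y / ((n : ℝ) ^ τ * g y ^ n))]
  refine h1.congr fun n x hx => ?_
  simp only
  rw [deriv_const_mul _ ((hf n).differentiableAt (hU.mem_nhds hx)), mul_div_assoc]

open scoped Classical in
/-- **The general theorem.** -/
theorem main (hRED : S_RED) (hAVG : S_AVG) (hDER : S_DER) (hLEV : S_LEV) (hATM : S_ATM) (hDIF : S_DIF)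
    (b : ℕ) (hb : 2 ≤ b) (μ : Measure ℝ) [IsProbabilityMeasure μ]
    (hμ : Ergodic (Tb b) μ) (c₀ : ℝ) (hc₀ : 0 < c₀) (hent : ∀ n : ℕ, c₀ * n ≤ En b μ n)
    (U : Set ℝ) (hU : IsOpen U) (g r : ℝ → ℝ) (f : ℕ → ℝ → ℝ) (τ : ℝ)
    (hg : ContDiffOn ℝ 1 g U) (hg1 : ∀ x ∈ U, 1 < g x) (hg' : ∀ x ∈ U, deriv g x ≠ 0)
    (hr : ContinuousOn r U) (hr0 : ∀ x ∈ U, r x ≠ 0) (hf : ∀ n, DifferentiableOn ℝ (f n) U)
    (hlim : TendstoLocallyUniformlyOn (fun (n : ℕ) x => deriv (f n) x / ((n : ℝ) ^ τ * g x ^ n)) r atTop U)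
    (S : Set ℕ) :
    ∀ᵐ x ∂μ, x ∈ U → ∀ Q : Polynomial ℝ, ∀ u v : ℝ, 0 ≤ u → u ≤ v → v ≤ 1 →
      Tendsto (fun N : ℕ => ((((Icc 1 N).filter (fun n : ℕ => n ∈ S ∧
        Int.fract (f n x + Q.eval (n : ℝ)) ∈ Set.Ico u v)).card : ℝ) -
        (v - u) * ((Icc 1 N).filter (fun n : ℕ => n ∈ S)).card) / N) atTop (𝓝 0) := by
  have : NeZero b := ⟨by omega⟩
  set w : ℕ → ℂ := fun n => (if n ∈ S then (1 : ℂ) else 0) with hw
  have hw1 : ∀ n, ‖w n‖ ≤ 1 := by
    intro n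
    simp only [hw]
    split_ifs <;> simp
  have hall : ∀ᵐ x ∂μ, ∀ (h : ℕ) (L : List ℕ), 1 ≤ h → x ∈ U →
      Small (fun N : ℕ => ∑ n ∈ range N, DW L w n * e (DF L (fun n y => h * f n y) n x)) := by
    rw [ae_all_iff]
    intro h
    rw [ae_all_iff]
    intro L
    by_cases hh : 1 ≤ h
    · have hh0 : (h : ℝ) ≠ 0 := by exact_mod_cast (by omega : h ≠ 0)
      have h1 := mul_lim U hU g r f τ h hf hlim
      have hf1 : ∀ n, DifferentiableOn ℝ ((fun (n : ℕ) y => (h : ℝ) * f n y) n) U := fun n =>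
        (hf n).const_mul _
      have hr1 : ContinuousOn (fun x => (h : ℝ) * r x) U := continuousOn_const.mul hr
      have h2 := DF_lim hDIF L U hU g (fun x => (h : ℝ) * r x) (fun (n : ℕ) y => (h : ℝ) * f n y) τ
        hg.continuousOn hg1 hr1 hf1 h1
      filter_upwards [linC hRED hAVG hDER hLEV hATM hb μ hμ c₀ hc₀ hent U hU g (RR L g (fun x => (h : ℝ) * r x))
        (DF L (fun (n : ℕ) y => (h : ℝ) * f n y)) τ hg hg1 hg' (RR_cont L g _ U hg.continuousOn hr1)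
        (fun x hx => RR_ne L g _ x (hg1 x hx) (mul_ne_zero hh0 (hr0 x hx))) (DF_diff L _ U hf1) h2 _ (DW_le L w hw1)]
        with x hx _ hxU
      exact hx hxU
    · exact Eventually.of_forall fun x h3 => absurd h3 hh
  filter_upwards [hall] with x hx hxU Q u v hu huv hv
  refine equi_S S (fun n => f n x + Q.eval (n : ℝ)) ?_ u v hu huv hv
  intro h hh
  have h1 := small_poly 1 w (fun n => h * f n x) hw1 (fun L => by
    have h2 := hx h L hh hxU
    unfold VdcAux.Small at h2 ⊢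
    refine h2.congr fun N => ?_
    congr 2
    refine sum_congr rfl fun n _ => ?_
    rw [DF_eq, mul_one])
    (Polynomial.C (h : ℝ) * Q).natDegree [] (Polynomial.C (h : ℝ) * Q) le_rfl
  unfold VdcAux.Small at h1 ⊢
  refine h1.congr fun N => ?_
  congr 2
  refine sum_congr rfl fun n _ => ?_
  change (if n ∈ S then (1 : ℂ) else 0) * e ((h * f n x) * 1 + (Polynomial.C (h : ℝ) * Q).eval (n : ℝ)) =
    (if n ∈ S then (1 : ℂ) else 0) * e (h * (f n x + Q.eval (n : ℝ)))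
  rw [Polynomial.eval_mul, Polynomial.eval_C]
  congr 2
  ring

end Pool.Agent.T3H29.HK
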