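import Pool.Agent.T3H29.HR.LL2
import Pool.Agent.T3H29.HR.Cir
import Pool.Agent.T3H29.HR.T_VDC
import Pool.Agent.Helper498.NCR.Positive

/-!
# Koksma's theorem for invariant measures of positive entropy: definitions and the statements of the parts

`b ≥ 2`, `P` is a shift invariant probability measure on the two-sided sequences `ω : ℤ → Fin b`, and
`X(ω) = val (fut ω)`. The functions `f_n` are differentiable on the `b`-adic interval `I = [x₀, x₀ + b^(-q)]` and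
`f_n'(x) = σ b^(V_n(x)) (1 + o(1))` uniformly on `I`, with `V_n(x) = n θ(x) + τ log_b n + s(x)`. We want that for almost
all `ω` with `X(ω) ∈ I` the sequence `(f_n(X))` is equidistributed modulo one, provided that `θ(X)` does not belong to
a certain countable set.
-/

set_option autoImplicit false

namespace Pool.Agent.T3H29.HK

open MeasureTheory ProbabilityTheory Filter Topology Finset
open Pool.Agent.T3H29.HR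
open Pool.Agent.T3H29.HR.VdcAux (Small)
open Pool.Agent.Helper498.NCR (koop EigSpan Ec)

/-- the characteristic function of `val` of the future, given the past `π`, at `ξ`;
`Phi P K ω u = ‖cf P (past ω) (b ^ (K + u))‖` by definition -/
noncomputable def cf {b : ℕ} [NeZero b] (P : Measure (ℤ → Fin b)) [IsFiniteMeasure P] (π : ℕ → Fin b) (ξ : ℝ) : ℂ :=
  ∫ y, e (ξ * val y) ∂(condDistrib (fut (b := b)) (past (b := b)) P π)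

/-- `j` is a bounded stopping index: whether `j ω = J` can be read off from the digits up to the place `J` -/
def Stop {b : ℕ} (j : (ℤ → Fin b) → ℕ) : Prop :=
  (∃ A : ℕ → Set (ℕ → Fin b), (∀ J, MeasurableSet (A J)) ∧ ∀ ω J, j ω = J ↔ past (sh (J : ℤ) ω) ∈ A J) ∧
    ∃ M : ℕ, ∀ ω, j ω ≤ M

/-- `G(π) (e(ξ(π) X_j) - E[e(ξ(π) X_j) | π])`, where `π = past (sh j ω)`, `X_j = val (fut (sh j ω))`, `j = j ω` -/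
noncomputable def Dd {b : ℕ} [NeZero b] (P : Measure (ℤ → Fin b)) [IsFiniteMeasure P] (j : (ℤ → Fin b) → ℕ)
    (G : ℕ → (ℕ → Fin b) → ℂ) (ξ : ℕ → (ℕ → Fin b) → ℝ) (ω : ℤ → Fin b) : ℂ :=
  G (j ω) (past (sh (j ω : ℤ) ω)) *
    (e (ξ (j ω) (past (sh (j ω : ℤ) ω)) * val (fut (sh (j ω : ℤ) ω))) -
      cf P (past (sh (j ω : ℤ) ω)) (ξ (j ω) (past (sh (j ω : ℤ) ω))))

/-- the exponent `V_n(x)` -/
noncomputable def VV (b : ℕ) (θ s : ℝ → ℝ) (τ : ℝ) (n : ℕ) (x : ℝ) : ℝ := n * θ x + τ * Real.logb b n + s x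

/-- `v n / n → θ` and `v n - n θ` varies slowly -/
def SV (θ : ℝ) (v : ℕ → ℝ) : Prop :=
  Tendsto (fun n : ℕ => v n / n) atTop (𝓝 θ) ∧
  ∀ δ : ℝ, 0 < δ → ∃ η : ℝ, 0 < η ∧ ∃ n₀ : ℕ, ∀ n n' : ℕ, n₀ ≤ n → n ≤ n' → (n' : ℝ) ≤ (1 + η) * n →
    |(v n' - n' * θ) - (v n - n * θ)| ≤ δ

/-! ### the law of large numbers -/

/-- COR: correlation of two differences with stopping indices `j₁ ≤ j₂` -/
def S_COR : Prop :=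
  ∀ (b : ℕ) [NeZero b], 2 ≤ b → ∀ (P : Measure (ℤ → Fin b)) [IsProbabilityMeasure P],
    MeasurePreserving (sh (b := b) 1) P P →
    ∀ (j₁ j₂ : (ℤ → Fin b) → ℕ) (G₁ G₂ : ℕ → (ℕ → Fin b) → ℂ) (ξ₁ ξ₂ : ℕ → (ℕ → Fin b) → ℝ) (B δ : ℝ),
    Stop j₁ → Stop j₂ → (∀ ω, j₁ ω ≤ j₂ ω) →
    (∀ J, Measurable (G₁ J)) → (∀ J, Measurable (G₂ J)) → (∀ J π, ‖G₁ J π‖ ≤ 1) → (∀ J π, ‖G₂ J π‖ ≤ 1) →
    (∀ J, Measurable (ξ₁ J)) → (∀ J, Measurable (ξ₂ J)) → (∀ J π, |ξ₁ J π| ≤ B) →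
    (∀ ω, 2 * Real.pi * B / (b : ℝ) ^ (j₂ ω - j₁ ω) ≤ δ) →
    ‖∫ ω, Dd P j₁ G₁ ξ₁ ω * (starRingEnd ℂ) (Dd P j₂ G₂ ξ₂ ω) ∂P‖ ≤ 2 * δ

/-- LLN: law of large numbers along stopping indices which grow at least linearly -/
def S_LLN : Prop :=
  ∀ (b : ℕ) [NeZero b], 2 ≤ b → ∀ (P : Measure (ℤ → Fin b)) [IsProbabilityMeasure P],
    MeasurePreserving (sh (b := b) 1) P P →
    ∀ (j : ℕ → (ℤ → Fin b) → ℕ) (G : ℕ → ℕ → (ℕ → Fin b) → ℂ) (ξ : ℕ → ℕ → (ℕ → Fin b) → ℝ) (B c C : ℝ),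
    (∀ n, Stop (j n)) → (∀ n J, Measurable (G n J)) → (∀ n J π, ‖G n J π‖ ≤ 1) →
    (∀ n J, Measurable (ξ n J)) → (∀ n J π, |ξ n J π| ≤ B) →
    0 < c → (∀ (m n : ℕ) (ω : ℤ → Fin b), m ≤ n → c * ((n : ℝ) - m) - C ≤ (j n ω : ℝ) - j m ω) →
    ∀ᵐ ω ∂P, ∀ ε : ℝ, 0 < ε → ∀ᶠ N : ℕ in atTop, ‖∑ n ∈ range N, Dd P (j n) (G n) (ξ n) ω‖ ≤ ε * N

/-! ### reduction to the conditional characteristic functions -/

/-- RED: the exponential sums are bounded by the averages of the conditional characteristic functions -/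
def S_RED : Prop :=
  ∀ (b : ℕ) [NeZero b], 2 ≤ b → ∀ (P : Measure (ℤ → Fin b)) [IsProbabilityMeasure P],
    MeasurePreserving (sh (b := b) 1) P P →
    ∀ (q : ℕ) (x₀ : ℝ) (f F : ℕ → ℝ → ℝ) (θ s : ℝ → ℝ) (Λ c τ σ : ℝ),
    (∀ x y, |θ x - θ y| ≤ Λ * |x - y|) → 0 < c → (∀ x, c ≤ θ x) → Continuous s → (σ = 1 ∨ σ = -1) →
    (∀ n, ∀ x ∈ Set.Icc x₀ (x₀ + 1 / (b : ℝ) ^ q),
      HasDerivWithinAt (f n) (F n x) (Set.Icc x₀ (x₀ + 1 / (b : ℝ) ^ q)) x) →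
    (∀ ε : ℝ, 0 < ε → ∀ᶠ n : ℕ in atTop, ∀ x ∈ Set.Icc x₀ (x₀ + 1 / (b : ℝ) ^ q),
      |F n x - σ * (b : ℝ) ^ (VV b θ s τ n x)| ≤ ε * (b : ℝ) ^ (VV b θ s τ n x)) →
    ∀ z : ℕ → ℂ, (∀ n, ‖z n‖ ≤ 1) → ∀ K : ℕ,
    ∀ᵐ ω ∂P, qq q (past (sh (q : ℤ) ω)) = x₀ → ∃ v : ℕ → ℝ,
      Tendsto (fun n => v n - VV b θ s τ n (val (fut ω))) atTop (𝓝 0) ∧
      ∀ ε : ℝ, 0 < ε → ∀ᶠ N : ℕ in atTop, ‖∑ n ∈ range N, z n * e (f n (val (fut ω)))‖ ≤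
        ε * N + ∑ n ∈ range N, Phi P K (sh (⌊v n⌋ - K) ω) (Int.fract (v n))

/-! ### equidistribution -/

/-- the assumptions of EQB and EQD: `a l j ∈ [0, 1]` has mean `m l` in `j` and is orthogonal to `e(j k / θ)`, `k ≠ 0` -/
def Hyp (L : ℕ) (θ : ℝ) (a : ℕ → ℕ → ℝ) (m : ℕ → ℝ) (v : ℕ → ℝ) : Prop :=
  0 < θ ∧ 16 ≤ L * θ ∧ (∀ l j, 0 ≤ a l j ∧ a l j ≤ 1) ∧
  (∀ l < L, Tendsto (fun M : ℕ => (∑ j ∈ range M, a l j) / M) atTop (𝓝 (m l))) ∧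
  (∀ l < L, ∀ k : ℤ, k ≠ 0 → Small (fun M : ℕ => ∑ j ∈ range M, (a l j : ℂ) * e (j * (k / θ)))) ∧
  SV θ v

/-- EQB: the sum over a block -/
def S_EQB : Prop :=
  ∀ (L : ℕ) (θ : ℝ) (a : ℕ → ℕ → ℝ) (m : ℕ → ℝ) (v : ℕ → ℝ), Hyp L θ a m v →
    ∃ η : ℝ, 0 < η ∧ ∀ τ : ℝ, 0 < τ → ∃ n₁ : ℕ, ∀ A B : ℕ, n₁ ≤ A → A ≤ B → (B : ℝ) ≤ (1 + η) * A →
      ∑ n ∈ Ico A B, a ⌊(L : ℝ) * Int.fract (v n)⌋₊ ⌊v n⌋.toNat ≤
        (64 / L * ∑ l ∈ range L, m l) * ((B : ℝ) - A) + τ * A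

/-- EQS: summation over the blocks -/
def S_EQS : Prop :=
  ∀ (u : ℕ → ℝ) (κ η : ℝ), (∀ n, 0 ≤ u n ∧ u n ≤ 1) → 0 < η → 0 ≤ κ →
    (∀ τ : ℝ, 0 < τ → ∃ n₁ : ℕ, ∀ A B : ℕ, n₁ ≤ A → A ≤ B → (B : ℝ) ≤ (1 + η) * A →
      ∑ n ∈ Ico A B, u n ≤ κ * ((B : ℝ) - A) + τ * A) →
    ∀ ε : ℝ, 0 < ε → ∀ᶠ N : ℕ in atTop, ∑ n ∈ range N, u n ≤ (κ + ε) * N

/-- SVL: `n θ + τ log n + s + o(1)` satisfies `SV` -/
def S_SVL : Prop :=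
  ∀ (b : ℕ) (θ τ s : ℝ) (v : ℕ → ℝ), 2 ≤ b →
    Tendsto (fun n : ℕ => v n - (n * θ + τ * Real.logb b n + s)) atTop (𝓝 0) → ∀ k : ℤ, SV θ (fun n => v n - k)

/-! ### the theorem of Wiener and Wintner -/

/-- WWM: the part orthogonal to the eigenfunctions -/
def S_WWM : Prop :=
  ∀ (Ω : Type) [MeasurableSpace Ω] (μ : Measure Ω) [IsProbabilityMeasure μ] (T : Ω → Ω) (hT : Ergodic T μ)
    (g : Ω → ℂ) (hg2 : MemLp g 2 μ), Measurable g → (∀ x, ‖g x‖ ≤ 1) →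
    hg2.toLp g ∈ (EigSpan (koop hT.toMeasurePreserving))ᗮ →
    ∀ᵐ x ∂μ, ∀ α : ℝ, Small (fun M : ℕ => ∑ j ∈ range M, g (T^[j] x) * e (j * α))

/-- WWK: the part in the closed span of the eigenfunctions -/
def S_WWK : Prop :=
  ∀ (Ω : Type) [MeasurableSpace Ω] (μ : Measure Ω) [IsProbabilityMeasure μ] (T : Ω → Ω) (hT : Ergodic T μ)
    (g : Ω → ℂ) (hg2 : MemLp g 2 μ), Measurable g → (∀ x, ‖g x‖ ≤ 1) →
    hg2.toLp g ∈ Ec (koop hT.toMeasurePreserving) →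
    ∃ E : Set ℂ, E.Countable ∧ ∀ᵐ x ∂μ, ∀ α : ℝ, e α ∉ E →
      Small (fun M : ℕ => ∑ j ∈ range M, g (T^[j] x) * e (j * α))

/-- WWD: the decomposition -/
def S_WWD : Prop :=
  ∀ (Ω : Type) [MeasurableSpace Ω] (μ : Measure Ω) [IsProbabilityMeasure μ] (T : Ω → Ω) (hT : Ergodic T μ)
    (f : Ω → ℝ), Measurable f → (∀ x, 0 ≤ f x ∧ f x ≤ 1) →
    ∃ (g₁ g₂ : Ω → ℂ) (h₁ : MemLp g₁ 2 μ) (h₂ : MemLp g₂ 2 μ), Measurable g₁ ∧ Measurable g₂ ∧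
      (∀ x, ‖g₁ x‖ ≤ 1) ∧ (∀ x, ‖g₂ x‖ ≤ 1) ∧ (∀ x, (f x : ℂ) = g₁ x + g₂ x) ∧
      h₁.toLp g₁ ∈ Ec (koop hT.toMeasurePreserving) ∧
      h₂.toLp g₂ ∈ (EigSpan (koop hT.toMeasurePreserving))ᗮ

/-- WW: the theorem of Wiener and Wintner -/
def S_WW : Prop :=
  ∀ (Ω : Type) [MeasurableSpace Ω] (μ : Measure Ω) [IsProbabilityMeasure μ] (T : Ω → Ω), Ergodic T μ →
    ∀ f : Ω → ℝ, Measurable f → (∀ x, 0 ≤ f x ∧ f x ≤ 1) →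
    ∃ E : Set ℂ, E.Countable ∧ ∀ᵐ x ∂μ, ∀ α : ℝ, e α ∉ E →
      Small (fun M : ℕ => ∑ j ∈ range M, (f (T^[j] x) : ℂ) * e (j * α))

/-! ### the averages of the conditional characteristic functions -/

/-- AVG: for almost all `ω` the averages are small for all slopes outside a countable set -/
def S_AVG : Prop :=
  ∀ (b : ℕ) [NeZero b], 2 ≤ b → ∀ (P : Measure (ℤ → Fin b)) [IsProbabilityMeasure P],
    Ergodic (sh (b := b) 1) P →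
    ∃ R : Set ℝ, R.Countable ∧ ∀ᵐ ω ∂P, ∀ θ : ℝ, 0 < θ → θ ∉ R → ∀ (K : ℕ) (v : ℕ → ℝ) (τ s : ℝ),
      Tendsto (fun n : ℕ => v n - (n * θ + τ * Real.logb b n + s)) atTop (𝓝 0) →
      ∀ ε : ℝ, 0 < ε → ∀ᶠ N : ℕ in atTop,
        ∑ n ∈ range N, Phi P K (sh (⌊v n⌋ - K) ω) (Int.fract (v n)) ≤
          (64 * (∫ u in (0 : ℝ)..1, ∫ ω, Phi P K ω u ∂P) + ε) * N

/-- CNT: the exceptional slopes are countable -/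
def S_CNT : Prop :=
  ∀ E : Set ℂ, E.Countable → {θ : ℝ | 0 < θ ∧ ∃ k : ℤ, k ≠ 0 ∧ e (k / θ) ∈ E}.Countable

/-! ### analysis -/

/-- DER: the exponent of the derivatives, on an interval -/
def S_DER : Prop :=
  ∀ (b : ℕ), 2 ≤ b → ∀ (U : Set ℝ), IsOpen U → ∀ (g r : ℝ → ℝ) (f : ℕ → ℝ → ℝ) (τ : ℝ),
    ContDiffOn ℝ 1 g U → (∀ x ∈ U, 1 < g x) → ContinuousOn r U → (∀ x ∈ U, r x ≠ 0) →
    (∀ n, DifferentiableOn ℝ (f n) U) →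
    TendstoLocallyUniformlyOn (fun (n : ℕ) x => deriv (f n) x / ((n : ℝ) ^ τ * g x ^ n)) r atTop U →
    ∀ x₀ x₁ : ℝ, x₀ < x₁ → Set.Icc x₀ x₁ ⊆ U →
    ∃ (θ s : ℝ → ℝ) (Λ c σ : ℝ), (∀ x y, |θ x - θ y| ≤ Λ * |x - y|) ∧ 0 < c ∧ (∀ x, c ≤ θ x) ∧ Continuous s ∧
      (σ = 1 ∨ σ = -1) ∧ (∀ x ∈ Set.Icc x₀ x₁, θ x = Real.logb b (g x)) ∧
      (∀ n, ∀ x ∈ Set.Icc x₀ x₁, HasDerivWithinAt (f n) (deriv (f n) x) (Set.Icc x₀ x₁) x) ∧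
      (∀ ε : ℝ, 0 < ε → ∀ᶠ n : ℕ in atTop, ∀ x ∈ Set.Icc x₀ x₁,
        |deriv (f n) x - σ * (b : ℝ) ^ (VV b θ s τ n x)| ≤ ε * (b : ℝ) ^ (VV b θ s τ n x))

/-- DIF: the class of sequences of functions is stable under differences -/
def S_DIF : Prop :=
  ∀ (U : Set ℝ), IsOpen U → ∀ (g r : ℝ → ℝ) (f : ℕ → ℝ → ℝ) (τ : ℝ),
    ContinuousOn g U → (∀ x ∈ U, 1 < g x) → ContinuousOn r U →
    (∀ n, DifferentiableOn ℝ (f n) U) →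
    TendstoLocallyUniformlyOn (fun (n : ℕ) x => deriv (f n) x / ((n : ℝ) ^ τ * g x ^ n)) r atTop U →
    ∀ l : ℕ, TendstoLocallyUniformlyOn (fun (n : ℕ) x => deriv (fun y => f (n + l) y - f n y) x /
      ((n : ℝ) ^ τ * g x ^ n)) (fun x => r x * (g x ^ l - 1)) atTop U

/-- EXA: the example `h g ^ n` -/
def S_EXA : Prop :=
  ∀ (U : Set ℝ), IsOpen U → ∀ (g h : ℝ → ℝ), ContDiffOn ℝ 1 g U → ContDiffOn ℝ 1 h U → (∀ x ∈ U, 1 < g x) →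
    TendstoLocallyUniformlyOn (fun (n : ℕ) x => deriv (fun y => h y * g y ^ n) x / ((n : ℝ) ^ (1 : ℝ) * g x ^ n))
      (fun x => h x * deriv g x / g x) atTop U

/-- LEV: the level sets are countable -/
def S_LEV : Prop :=
  ∀ (U : Set ℝ), IsOpen U → ∀ g : ℝ → ℝ, ContDiffOn ℝ 1 g U → (∀ x ∈ U, deriv g x ≠ 0) →
    ∀ R : Set ℝ, R.Countable → {x | x ∈ U ∧ g x ∈ R}.Countable

/-- ATM: no atoms -/
def S_ATM : Prop :=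
  ∀ (b : ℕ) [NeZero b], 2 ≤ b → ∀ (P : Measure (ℤ → Fin b)) [IsProbabilityMeasure P],
    Ergodic (sh (b := b) 1) P → ¬ Det P → ∀ C : Set ℝ, C.Countable → ∀ᵐ ω ∂P, val (fut ω) ∉ C

end Pool.Agent.T3H29.HK
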