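import Pool.Agent.T3H29.HK.Stm

/-! Task DER of project HK. -/

set_option autoImplicit false

namespace Pool.Agent.T3H29.HK

open Filter Topology Finset

namespace DERAux

/-- the clamp -/
noncomputable def cl (x₀ x₁ x : ℝ) : ℝ := max x₀ (min x x₁)

lemma cl_cont (x₀ x₁ : ℝ) : Continuous (cl x₀ x₁) := by
  unfold cl
  fun_prop

lemma cl_mem {x₀ x₁ : ℝ} (h : x₀ < x₁) (x : ℝ) : cl x₀ x₁ x ∈ Set.Icc x₀ x₁ := by
  unfold cl
  exact ⟨le_max_left _ _, max_le h.le (min_le_right _ _)⟩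

lemma cl_eq {x₀ x₁ x : ℝ} (hx : x ∈ Set.Icc x₀ x₁) : cl x₀ x₁ x = x := by
  unfold cl
  rw [min_eq_left hx.2, max_eq_right hx.1]

lemma cl_lip (x₀ x₁ x y : ℝ) : |cl x₀ x₁ x - cl x₀ x₁ y| ≤ |x - y| := by
  unfold cl
  simp only [max_def, min_def]
  split_ifs <;> (rw [abs_le]; constructor <;>
    linarith [neg_abs_le (x - y), le_abs_self (x - y), abs_nonneg (x - y)])

lemma const_sign {r : ℝ → ℝ} {x₀ x₁ : ℝ} (hr : ContinuousOn r (Set.Icc x₀ x₁))
    (h0 : ∀ x ∈ Set.Icc x₀ x₁, r x ≠ 0) :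
    ∃ σ : ℝ, (σ = 1 ∨ σ = -1) ∧ ∀ x ∈ Set.Icc x₀ x₁, σ * |r x| = r x := by
  by_cases h : ∀ x ∈ Set.Icc x₀ x₁, 0 < r x
  · exact ⟨1, Or.inl rfl, fun x hx => by rw [one_mul, abs_of_pos (h x hx)]⟩
  · push Not at h
    obtain ⟨y, hy, hy0⟩ := h
    refine ⟨-1, Or.inr rfl, fun x hx => ?_⟩
    have : r x < 0 := by
      by_contra hx0
      have h1 := isPreconnected_Icc.intermediate_value hy hx hr
      obtain ⟨z, hz, hz0⟩ := h1 (show (0 : ℝ) ∈ Set.Icc (r y) (r x) from ⟨hy0, not_lt.mp hx0⟩)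
      exact h0 z hz hz0
    rw [abs_of_neg this]
    ring

end DERAux

open DERAux in
theorem t_DER : S_DER := by
  intro b hb U hU g r f τ hg hg1 hr hr0 hf hlim x₀ x₁ hx hsub
  have hb1 : (1 : ℝ) < b := by exact_mod_cast (by omega : 1 < b)
  have hb0 : (0 : ℝ) < b := by linarith
  have hlogb : 0 < Real.log b := Real.log_pos hb1
  set I := Set.Icc x₀ x₁ with hI
  have hIne : I.Nonempty := Set.nonempty_Icc.mpr hx.le
  have hG : ContDiffOn ℝ 1 (fun x => Real.logb b (g x)) I := by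
    unfold Real.logb
    exact ((hg.mono hsub).log fun x hx' => (by linarith [hg1 x (hsub hx')])).div_const _
  obtain ⟨K, hK⟩ := hG.exists_lipschitzOnWith one_ne_zero (convex_Icc _ _) isCompact_Icc
  obtain ⟨xm, hxm, hmin⟩ := isCompact_Icc.exists_isMinOn hIne hG.continuousOn
  obtain ⟨σ, hσ, hσr⟩ := const_sign (hr.mono hsub) fun x hx' => hr0 x (hsub hx')
  obtain ⟨xd, hxd, hdmin⟩ := isCompact_Icc.exists_isMinOn hIne
    (f := fun x => |r x|) ((hr.mono hsub).abs)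
  have hd : 0 < |r xd| := abs_pos.mpr (hr0 xd (hsub hxd))
  refine ⟨fun x => Real.logb b (g (cl x₀ x₁ x)), fun x => Real.logb b |r (cl x₀ x₁ x)|, K,
    Real.logb b (g xm), σ, ?_, ?_, ?_, ?_, hσ, ?_, ?_, ?_⟩
  · intro x y
    have h1 := hK.dist_le_mul _ (cl_mem hx x) _ (cl_mem hx y)
    rw [Real.dist_eq, Real.dist_eq] at h1
    exact h1.trans (mul_le_mul_of_nonneg_left (cl_lip _ _ _ _) K.2)
  · exact Real.logb_pos hb1 (hg1 xm (hsub hxm))
  · intro x
    exact hmin (cl_mem hx x)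
  · unfold Real.logb
    refine Continuous.div_const (Continuous.log ?_ ?_) _
    · refine Continuous.abs ?_
      exact ContinuousOn.comp_continuous (hr.mono hsub) (cl_cont _ _) (cl_mem hx)
    · intro x
      exact abs_ne_zero.mpr (hr0 _ (hsub (cl_mem hx x)))
  · intro x hx'
    simp only
    rw [cl_eq hx']
  · intro n x hx'
    have : DifferentiableAt ℝ (f n) x :=
      (hf n x (hsub hx')).differentiableAt (hU.mem_nhds (hsub hx'))
    exact this.hasDerivAt.hasDerivWithinAt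
  · intro ε hε
    have h1 := (tendstoLocallyUniformlyOn_iff_tendstoUniformlyOn_of_compact
      (isCompact_Icc (a := x₀) (b := x₁))).mp (hlim.mono hsub)
    rw [Metric.tendstoUniformlyOn_iff] at h1
    filter_upwards [h1 (ε * |r xd|) (by positivity), eventually_ge_atTop 1] with n hn hn1 x hx'
    have hn0 : (0 : ℝ) < n := by exact_mod_cast hn1
    have hgx : 1 < g x := hg1 x (hsub hx')
    have hgx0 : 0 < g x := by linarith
    have hrx : 0 < |r x| := abs_pos.mpr (hr0 x (hsub hx'))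
    have h2 := hn x hx'
    rw [Real.dist_eq, abs_sub_comm] at h2
    have h3 : |r xd| ≤ |r x| := hdmin hx'
    have hV : (b : ℝ) ^ (VV b (fun x => Real.logb b (g (cl x₀ x₁ x)))
        (fun x => Real.logb b |r (cl x₀ x₁ x)|) τ n x) = (n : ℝ) ^ τ * g x ^ n * |r x| := by
      unfold VV
      simp only
      rw [cl_eq hx', Real.rpow_add hb0, Real.rpow_add hb0, Real.rpow_logb hb0 hb1.ne' hrx,
        mul_comm (n : ℝ), Real.rpow_mul hb0.le, Real.rpow_logb hb0 hb1.ne' hgx0, Real.rpow_natCast,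
        mul_comm τ, Real.rpow_mul hb0.le, Real.rpow_logb hb0 hb1.ne' hn0]
      ring
    rw [hV]
    have hP : 0 < (n : ℝ) ^ τ * g x ^ n := by positivity
    have h4 : deriv (f n) x - σ * ((n : ℝ) ^ τ * g x ^ n * |r x|) =
        (n : ℝ) ^ τ * g x ^ n * (deriv (f n) x / ((n : ℝ) ^ τ * g x ^ n) - r x) := by
      have := hσr x hx'
      rw [mul_sub, mul_div_cancel₀ _ hP.ne', mul_left_comm, this]
    rw [h4, abs_mul, abs_of_pos hP]
    calc _ ≤ (n : ℝ) ^ τ * g x ^ n * (ε * |r x|) := by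
          refine mul_le_mul_of_nonneg_left ?_ hP.le
          exact h2.le.trans (mul_le_mul_of_nonneg_left h3 hε.le)
      _ = _ := by ring

end Pool.Agent.T3H29.HK
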